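import Pool.Agent.Lib.MP_deef39_co_PW.Defs

/-! # Eng module Span: three directions which positively span the plane

`Sp p c a b d`: the directions of `a, b, d` at `c` are in counterclockwise order with three angles
less than 180. `contact`: if no segment from `f` (other than `f c`) leads to the right of `e f`, and
three segments from `f` positively span, then one of them ends at `c`.
`tri_ang`: no segment from `a` enters the angle `b a c` of an empty triangle with free side `b c`.
-/

set_option autoImplicit false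

namespace FPW

variable {α : Type*}

/-- the directions of `a, b, d` at `c` are in counterclockwise order and positively span -/
def Sp (p : α → ℝ × ℝ) (c a b d : α) : Prop :=
  0 < o p c a b ∧ 0 < o p c b d ∧ 0 < o p c d a

variable {p : α → ℝ × ℝ} {c a b d x : α}

theorem Sp_rot (h : Sp p c a b d) : Sp p c b d a := ⟨h.2.1, h.2.2, h.1⟩

theorem Sp_rot' (h : Sp p c a b d) : Sp p c d a b := ⟨h.2.2, h.1, h.2.1⟩

theorem Sp_mir (h : Sp (mir p) c a b d) : Sp p c a d b := by
  obtain ⟨h1, h2, h3⟩ := h
  rw [o_mir] at h1 h2 h3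
  have e1 : o p c a d = - o p c d a := by unfold o; ring
  have e2 : o p c d b = - o p c b d := by unfold o; ring
  have e3 : o p c b a = - o p c a b := by unfold o; ring
  exact ⟨by linarith, by linarith, by linarith⟩

theorem Sp_mir' (h : Sp p c a b d) : Sp (mir p) c a d b := by
  obtain ⟨h1, h2, h3⟩ := h
  have e1 : o p c a d = - o p c d a := by unfold o; ring
  have e2 : o p c d b = - o p c b d := by unfold o; ring
  have e3 : o p c b a = - o p c a b := by unfold o; ring
  refine ⟨?_, ?_, ?_⟩ <;> rw [o_mir] <;> linarith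

theorem o_pos_ne (h : 0 < o p a b c) : a ≠ b ∧ b ≠ c ∧ a ≠ c := by
  refine ⟨?_, ?_, ?_⟩ <;> rintro rfl <;> simp at h

theorem Sp_ne (h : Sp p c a b d) : c ≠ a ∧ c ≠ b ∧ c ≠ d ∧ a ≠ b ∧ b ≠ d ∧ a ≠ d := by
  obtain ⟨a1, a2, a3⟩ := o_pos_ne h.1
  obtain ⟨b1, b2, b3⟩ := o_pos_ne h.2.1
  obtain ⟨c1, c2, c3⟩ := o_pos_ne h.2.2
  exact ⟨a1, a3, c1, a2, b2, c2.symm⟩

/-- the linear relation -/
theorem Sp_rel (p : α → ℝ × ℝ) (c a b d x : α) : o p c b d * o p x c a + o p c d a * o p x c b +
    o p c a b * o p x c d = 0 := by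
  unfold o; ring

/-- some of the three directions is on the left of `x c` -/
theorem Sp_left (hgp : GP p) (h : Sp p c a b d) (hx : x ≠ c) :
    0 < o p x c a ∨ 0 < o p x c b ∨ 0 < o p x c d := by
  by_contra hh
  push Not at hh
  obtain ⟨h1, h2, h3⟩ := hh
  obtain ⟨n1, n2, n3, n4, n5, n6⟩ := Sp_ne h
  obtain ⟨k1, k2, k3⟩ := h
  have rel := Sp_rel p c a b d x
  have m1 := mul_nonpos_of_nonneg_of_nonpos k2.le h1
  have m2 := mul_nonpos_of_nonneg_of_nonpos k3.le h2
  have m3 := mul_nonpos_of_nonneg_of_nonpos k1.le h3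
  have z1 : o p x c a = 0 := by
    rcases eq_or_lt_of_le h1 with h | h
    · exact h
    · have := mul_neg_of_pos_of_neg k2 h
      linarith
  have z2 : o p x c b = 0 := by
    rcases eq_or_lt_of_le h2 with h | h
    · exact h
    · have := mul_neg_of_pos_of_neg k3 h
      linarith
  have hxa : x = a := by
    by_contra hxa
    exact hgp.ne x c a hx n1 hxa z1
  have hxb : x = b := by
    by_contra hxb
    exact hgp.ne x c b hx n2 hxb z2
  exact n4 (hxa.symm.trans hxb)

/-- some of the three directions is on the right of `x c` -/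
theorem Sp_right (hgp : GP p) (h : Sp p c a b d) (hx : x ≠ c) :
    o p x c a < 0 ∨ o p x c b < 0 ∨ o p x c d < 0 := by
  by_contra hh
  push Not at hh
  obtain ⟨h1, h2, h3⟩ := hh
  obtain ⟨n1, n2, n3, n4, n5, n6⟩ := Sp_ne h
  obtain ⟨k1, k2, k3⟩ := h
  have rel := Sp_rel p c a b d x
  have m1 := mul_nonneg k2.le h1
  have m2 := mul_nonneg k3.le h2
  have m3 := mul_nonneg k1.le h3
  have z1 : o p x c a = 0 := by
    rcases eq_or_lt_of_le h1 with h | h
    · exact h.symm
    · have := mul_pos k2 h
      linarith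
  have z2 : o p x c b = 0 := by
    rcases eq_or_lt_of_le h2 with h | h
    · exact h.symm
    · have := mul_pos k3 h
      linarith
  have hxa : x = a := by
    by_contra hxa
    exact hgp.ne x c a hx n1 hxa z1
  have hxb : x = b := by
    by_contra hxb
    exact hgp.ne x c b hx n2 hxb z2
  exact n4 (hxa.symm.trans hxb)

/-- **contact** (door on the counterclockwise side): `f` is seen from `e`, every segment from `f`
other than `f c`, `f e` leads to the left of `e f`; three segments from `f` which positively span: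
one of them ends at `c` -/
theorem contact (hgp : GP p) {G : α → α → Prop} {f e : α} (hfe : e ≠ f)
    (h4 : ∀ y, (G f y ∨ G y f) → y ≠ c → y ≠ e → 0 < o p e f y) (hs : Sp p f a b d)
    (ha : G f a ∨ G a f) (hb : G f b ∨ G b f) (hd : G f d ∨ G d f) : c = a ∨ c = b ∨ c = d := by
  by_contra hc
  push Not at hc
  obtain ⟨c1, c2, c3⟩ := hc
  have key : ∀ y, (G f y ∨ G y f) → c ≠ y → 0 ≤ o p e f y := by
    intro y hy hcy
    by_cases hye : y = e
    · subst hye
      have : o p y f y = 0 := by unfold o; ring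
      rw [this]
    · exact (h4 y hy hcy.symm hye).le
  rcases Sp_right hgp hs hfe with h | h | h
  · exact absurd (key a ha c1) (not_le.2 h)
  · exact absurd (key b hb c2) (not_le.2 h)
  · exact absurd (key d hd c3) (not_le.2 h)

/-- **contact**, mirrored -/
theorem contact_mir (hgp : GP p) {G : α → α → Prop} {f e : α} (hfe : e ≠ f)
    (h4 : ∀ y, (G f y ∨ G y f) → y ≠ c → y ≠ e → 0 < o p f e y) (hs : Sp p f a b d)
    (ha : G f a ∨ G a f) (hb : G f b ∨ G b f) (hd : G f d ∨ G d f) : c = a ∨ c = b ∨ c = d := by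
  have h := contact (p := mir p) (GP_mir hgp) (c := c) hfe
    (fun y hy hyc hye => by
      rw [o_mir]
      have := h4 y hy hyc hye
      have e1 : o p e f y = - o p f e y := by unfold o; ring
      linarith) (Sp_mir' hs) ha hd hb
  tauto

/-- no segment from `a` enters the angle at `a` of a triangle `a b c` without points, with free
opposite side -/
theorem tri_ang (hgp : GP p) {G : α → α → Prop} {V : Set α} (h0 : 0 < o p a b c)
    (hemp : ∀ z ∈ V, ¬ InTri p a b c z) (hbc : Vis p G b c) {z : α} (hz : z ∈ V)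
    (hG : G a z ∨ G z a) : ¬ (0 < o p a b z ∧ 0 < o p a z c) := by
  rintro ⟨h1, h2⟩
  obtain ⟨n1, n2, n3⟩ := o_pos_ne h0
  obtain ⟨m1, m2, m3⟩ := o_pos_ne h1
  obtain ⟨m4, m5, m6⟩ := o_pos_ne h2
  have h3 := hgp.ne b c z n2 m5.symm m2
  rcases lt_or_gt_of_ne h3 with h3 | h3
  · have hX : X p b c a z := by
      refine ⟨?_, ?_⟩
      · have e1 : o p b c a = o p a b c := by unfold o; ring
        rw [e1]
        exact mul_neg_of_pos_of_neg h0 h3
      · have e1 : o p a z b = - o p a b z := by unfold o; ring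
        rw [e1]
        exact mul_neg_of_neg_of_pos (by linarith) h2
    rcases hG with hG | hG
    · exact hbc a z hG hX
    · exact hbc z a hG (X_sw2.1 hX)
  · refine hemp z hz (Or.inl ⟨h1, h3, ?_⟩)
    have e1 : o p c a z = o p a z c := by unfold o; ring
    rw [e1]; exact h2

end FPW
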