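import Pool.Agent.Lib.MP_deef39_co_Eng.Push
import Pool.Agent.Lib.MP_deef39_co_Eng.Span

/-! # Eng module ChainG: the whole hull chain of an ear

`c` apex, `e` end, `l` target, `0 < o p e c l`, the segments `c e`, `c l` are free (with respect to
`G`: path edges, walls, kept segments), no `G`-edge at `c` lies strictly between `e` and `l`.
`ChG p G V e c l R`: `R` is the hull chain; all `c y` and all chain edges are free; at a chain vertex
`y` between `x` and `w` all `G`-edges other than `y c` lie in the closed cone from `x` to `w` away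
from `c`, and the directions of `x, c, w` positively span.
-/

set_option autoImplicit false

namespace FPW

variable {α : Type*}

/-- hull chain of an ear and what is free -/
structure ChG (p : α → ℝ × ℝ) (G : α → α → Prop) (V : Set α) (e c l : α) (R : List α) :
    Prop where
  chn : Chn p V e c l R
  spoke : ∀ y ∈ R ++ [l], Vis p G c y
  side : ∀ x y, Nx (e :: (R ++ [l])) x y → Vis p G x y
  cone : ∀ x y w, Nx (e :: (R ++ [l])) x y → Nx (e :: (R ++ [l])) y w →
    ∀ d, (G y d ∨ G d y) → d ≠ c → d ≠ x → d ≠ w → 0 < o p x y d ∧ 0 < o p y w d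
  span : ∀ x y w, Nx (e :: (R ++ [l])) x y → Nx (e :: (R ++ [l])) y w → Sp p y x c w
  near1 : ∀ x y, Nx (e :: (R ++ [l])) x y → ∀ d, (G x d ∨ G d x) →
    ¬ (0 < o p x c d ∧ 0 < o p x d y)
  near2 : ∀ x y, Nx (e :: (R ++ [l])) x y → ∀ d, (G y d ∨ G d y) →
    ¬ (0 < o p y x d ∧ 0 < o p y d c)
  nearc : ∀ x y, Nx (e :: (R ++ [l])) x y → ∀ d, (G c d ∨ G d c) →
    ¬ (0 < o p c y d ∧ 0 < o p c d x)

variable {p : α → ℝ × ℝ}

private theorem cg_split {v : α} : ∀ {A A' B B' : List α}, (A ++ v :: B).Nodup →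
    A ++ v :: B = A' ++ v :: B' → A = A' ∧ B = B' := by
  intro A
  induction A with
  | nil =>
    intro A' B B' hn h
    cases A' with
    | nil => exact ⟨rfl, (List.cons.inj h).2⟩
    | cons a A' =>
      exfalso
      have h1 := List.cons.inj h
      have h2 : v ∈ B := by
        rw [h1.2]
        simp
      exact (List.nodup_cons.1 hn).1 h2
  | cons a A ih =>
    intro A' B B' hn h
    cases A' with
    | nil =>
      exfalso
      have h1 := List.cons.inj h
      have h2 : a ∈ A ++ v :: B := by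
        rw [h1.1]
        simp
      exact (List.nodup_cons.1 hn).1 h2
    | cons a' A' =>
      have h1 := List.cons.inj h
      obtain ⟨h3, h4⟩ := ih (List.nodup_cons.1 hn).2 h1.2
      exact ⟨by rw [h1.1, h3], h4⟩

/-- two consecutive pairs with a common vertex form a consecutive triple -/
theorem nx3 {L : List α} {x y w : α} (hn : L.Nodup) (h1 : Nx L x y) (h2 : Nx L y w) :
    ∃ S T, L = S ++ x :: y :: w :: T := by
  obtain ⟨S, T, hS⟩ := h1
  obtain ⟨S', T', hS'⟩ := h2
  have e1 : (S ++ [x]) ++ y :: T = S' ++ y :: (w :: T') := by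
    rw [← hS', hS]
    simp
  have hnd : ((S ++ [x]) ++ y :: T).Nodup := by
    rw [e1, ← hS']
    exact hn
  obtain ⟨h3, h4⟩ := cg_split hnd e1
  exact ⟨S, T', by rw [hS, h4]⟩

theorem nx_sub {L : List α} {x y : α} (h : Nx L x y) : [x, y].Sublist L := by
  obtain ⟨S, T, rfl⟩ := h
  exact List.sublist_append_of_sublist_right
    (List.Sublist.cons_cons x (List.Sublist.cons_cons y (List.nil_sublist T)))

theorem nx3_sub {L : List α} {x y w : α} (hn : L.Nodup) (h1 : Nx L x y) (h2 : Nx L y w) :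
    [x, y, w].Sublist L := by
  obtain ⟨S, T, rfl⟩ := nx3 hn h1 h2
  exact List.sublist_append_of_sublist_right
    (List.Sublist.cons_cons x (List.Sublist.cons_cons y
      (List.Sublist.cons_cons w (List.nil_sublist T))))

private theorem cg_tri1 {c x y z : α} (h : InTri p x c y z) : InTri p c x y z := by
  have e1 : o p c x z = - o p x c z := by unfold o; ring
  have e2 : o p x y z = - o p y x z := by unfold o; ring
  have e3 : o p y c z = - o p c y z := by unfold o; ring
  rcases h with ⟨h1, h2, h3⟩ | ⟨h1, h2, h3⟩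
  · exact Or.inr ⟨by linarith, by linarith, by linarith⟩
  · exact Or.inl ⟨by linarith, by linarith, by linarith⟩

private theorem cg_tri2 {c x y z : α} (h : InTri p y x c z) : InTri p c x y z := by
  rcases h with ⟨h1, h2, h3⟩ | ⟨h1, h2, h3⟩
  · exact cg_tri1 (Or.inl ⟨h2, h3, h1⟩)
  · exact cg_tri1 (Or.inr ⟨h2, h3, h1⟩)

private theorem cg_tri3 {c x y z : α} (h : InTri p c y x z) : InTri p c x y z := by
  rcases h with ⟨h1, h2, h3⟩ | ⟨h1, h2, h3⟩
  · exact cg_tri1 (Or.inl ⟨h3, h1, h2⟩)
  · exact cg_tri1 (Or.inr ⟨h3, h1, h2⟩)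

/-- **hull chain of an ear** -/
theorem chainG [Finite α] (hgp : GP p) {G : α → α → Prop} {V : Set α}
    (hV : ∀ a b, G a b → a ∈ V ∧ b ∈ V ∧ a ≠ b) {e c l : α} (ho : 0 < o p e c l)
    (h1 : Vis p G c e) (h2 : Vis p G c l)
    (h3 : ∀ d, (G c d ∨ G d c) → ¬ (0 < o p e c d ∧ 0 < o p c l d)) :
    ∃ R, ChG p G V e c l R := by
  obtain ⟨R, hR⟩ := chain hgp V ho
  have spoke : ∀ y ∈ R ++ [l], Vis p G c y := by
    intro y hy a b hab hX
    have hn := X_ne hX
    rcases List.mem_append.1 hy with h | h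
    · exact (reg hgp hR hn.2.2.1.symm hn.2.2.2.1.symm (Or.inl (hV a b hab).1)
        (Or.inl (hV a b hab).2.1) (h1 a b hab) (h2 a b hab)).1 y h hX
    · rw [List.mem_singleton.1 h] at hX
      exact h2 a b hab hX
  have spoke' : ∀ y ∈ e :: (R ++ [l]), Vis p G c y := by
    intro y hy
    rcases List.mem_cons.1 hy with rfl | hy
    · exact h1
    · exact spoke y hy
  have side : ∀ x y, Nx (e :: (R ++ [l])) x y → Vis p G x y := by
    intro x y hnx a b hab hX
    have hn := X_ne hX
    by_cases ha : a = c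
    · subst ha
      exact reg_q hgp hR hn.2.1.symm (h3 b (Or.inl hab)) x y hnx hX
    by_cases hb : b = c
    · subst hb
      exact reg_q hgp hR hn.2.1 (h3 a (Or.inr hab)) x y hnx (X_sw2.1 hX)
    exact (reg hgp hR ha hb (Or.inl (hV a b hab).1)
        (Or.inl (hV a b hab).2.1) (h1 a b hab) (h2 a b hab)).2 x y hnx hX
  have inV : ∀ {a d : α}, (G a d ∨ G d a) → d ∈ V ∧ d ≠ a := by
    rintro a d (h | h)
    · exact ⟨(hV _ _ h).2.1, (hV _ _ h).2.2.symm⟩
    · exact ⟨(hV _ _ h).1, (hV _ _ h).2.2⟩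
  refine ⟨R, hR, spoke, side, ?_, ?_, ?_, ?_, ?_⟩
  · intro x y w hxy hyw d hd hdc hdx hdw
    obtain ⟨hdV, hdy⟩ := inV hd
    have hX1 : ¬ X p c e y d := by
      rcases hd with hd | hd
      · exact h1 y d hd
      · exact fun hX => h1 d y hd (X_sw2.1 hX)
    have hX2 : ¬ X p c l y d := by
      rcases hd with hd | hd
      · exact h2 y d hd
      · exact fun hX => h2 d y hd (X_sw2.1 hX)
    exact reg_left hgp hR hxy hyw (Or.inl hdV) hdy hdc hdx hdw hX1 hX2
  · intro x y w hxy hyw
    have a1 := hR.ang x y (nx_sub hxy)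
    have a2 := hR.ang y w (nx_sub hyw)
    have a3 := hR.conv x y w (nx3_sub hR.nodup hxy hyw)
    refine ⟨?_, ?_, ?_⟩
    · have e1 : o p y x c = - o p c x y := by unfold o; ring
      rw [e1]; linarith
    · have e1 : o p y c w = - o p c y w := by unfold o; ring
      rw [e1]; linarith
    · have e1 : o p y w x = o p x y w := by unfold o; ring
      rw [e1]; exact a3
  · intro x y hxy d hd
    have a1 := hR.ang x y (nx_sub hxy)
    refine tri_ang hgp (a := x) (b := c) (c := y) ?_
      (fun z hz hi => hR.emp x y hxy z hz (cg_tri1 hi))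
      (spoke' y (by obtain ⟨S, T, hS⟩ := hxy; rw [hS]; simp)) (inV hd).1 hd
    have e1 : o p x c y = - o p c x y := by unfold o; ring
    rw [e1]; linarith
  · intro x y hxy d hd
    have a1 := hR.ang x y (nx_sub hxy)
    refine tri_ang hgp (a := y) (b := x) (c := c) ?_
      (fun z hz hi => hR.emp x y hxy z hz (cg_tri2 hi))
      (Vis_comm.1 (spoke' x (by obtain ⟨S, T, hS⟩ := hxy; rw [hS]; simp))) (inV hd).1 hd
    have e1 : o p y x c = - o p c x y := by unfold o; ring
    rw [e1]; linarith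
  · intro x y hxy d hd
    have a1 := hR.ang x y (nx_sub hxy)
    refine tri_ang hgp (a := c) (b := y) (c := x) ?_
      (fun z hz hi => hR.emp x y hxy z hz (cg_tri3 hi)) (Vis_comm.1 (side x y hxy)) (inV hd).1 hd
    have e1 : o p c y x = - o p c x y := by unfold o; ring
    rw [e1]; linarith

/-- **hull chain of an ear**, mirrored: `l` lies counterclockwise from `e` at `c` -/
theorem chainG_mir [Finite α] (hgp : GP p) {G : α → α → Prop} {V : Set α}
    (hV : ∀ a b, G a b → a ∈ V ∧ b ∈ V ∧ a ≠ b) {e c l : α} (ho : 0 < o p c e l)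
    (h1 : Vis p G c e) (h2 : Vis p G c l)
    (h3 : ∀ d, (G c d ∨ G d c) → ¬ (0 < o p c e d ∧ 0 < o p c d l)) :
    ∃ R, ChG (mir p) G V e c l R := by
  refine chainG (p := mir p) (GP_mir hgp) hV ?_ (Vis_mir.2 h1) (Vis_mir.2 h2) ?_
  · rw [o_mir]
    have e1 : o p e c l = - o p c e l := by unfold o; ring
    linarith
  · rintro d hd ⟨t1, t2⟩
    rw [o_mir] at t1 t2
    have e1 : o p e c d = - o p c e d := by unfold o; ring
    have e2 : o p c l d = - o p c d l := by unfold o; ring
    exact h3 d hd ⟨by linarith, by linarith⟩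

end FPW
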