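import Pool.Agent.Lib.MP_deef39_co_PW.Defs

/-! # Eng module Cyc: cyclic order of the directions at a vertex

`Bt p c a x b`: at the vertex `c` the direction of `x` lies strictly in the counterclockwise range
from the direction of `a` to the direction of `b`. `rg p V c a b`: number of points of `V` in this
range.
-/

set_option autoImplicit false

namespace FPW

variable {α : Type*}

/-- `x` lies strictly in the counterclockwise range from `a` to `b` at `c` -/
def Bt (p : α → ℝ × ℝ) (c a x b : α) : Prop :=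
  (0 < o p c a x ∧ 0 < o p c x b) ∨ (0 < o p c x b ∧ 0 < o p c b a) ∨
    (0 < o p c b a ∧ 0 < o p c a x)

/-- number of points of `V` strictly in the counterclockwise range from `a` to `b` at `c` -/
noncomputable def rg (p : α → ℝ × ℝ) (V : Set α) (c a b : α) : ℕ :=
  {x | x ∈ V ∧ Bt p c a x b}.ncard

variable {p : α → ℝ × ℝ} {c a b x f : α}

theorem bt_rot (h : Bt p c a x b) : Bt p c x b a := by
  unfold Bt at h ⊢
  tauto

theorem bt_rot' (h : Bt p c a x b) : Bt p c b a x := bt_rot (bt_rot h)

theorem bt_asymm (h : Bt p c a x b) : ¬ Bt p c b x a := by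
  intro h'
  have e1 : o p c b x = - o p c x b := by unfold o; ring
  have e2 : o p c x a = - o p c a x := by unfold o; ring
  have e3 : o p c a b = - o p c b a := by unfold o; ring
  unfold Bt at h h'
  rw [e1, e2, e3] at h'
  rcases h with ⟨h1, h2⟩ | ⟨h1, h2⟩ | ⟨h1, h2⟩ <;> rcases h' with ⟨k1, k2⟩ | ⟨k1, k2⟩ | ⟨k1, k2⟩ <;>
    linarith

private theorem cy1 (c a : α) : o p c a a = 0 := by unfold o; ring
private theorem cy2 (c a : α) : o p c c a = 0 := by unfold o; ring
private theorem cy3 (c a : α) : o p c a c = 0 := by unfold o; ring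

theorem bt_ne (h : Bt p c a x b) : c ≠ a ∧ c ≠ x ∧ c ≠ b ∧ a ≠ x ∧ x ≠ b ∧ a ≠ b := by
  have key : ∀ c a x b : α, Bt p c a x b → c ≠ a ∧ a ≠ x := by
    intro c a x b h
    unfold Bt at h
    constructor
    · rintro rfl
      simp only [cy2, cy3, lt_irrefl, false_and, and_false, or_false] at h
    · rintro rfl
      have e : o p c b a = - o p c a b := by unfold o; ring
      simp only [cy1, lt_irrefl, false_and, and_false, or_false, false_or] at h
      linarith [h.1, h.2]
  have h1 := key _ _ _ _ h
  have h2 := key _ _ _ _ (bt_rot h)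
  have h3 := key _ _ _ _ (bt_rot' h)
  exact ⟨h1.1, h2.1, h3.1, h1.2, h2.2, h3.2.symm⟩

theorem bt_total (hgp : GP p) (hca : c ≠ a) (hcx : c ≠ x) (hcb : c ≠ b) (hax : a ≠ x)
    (hxb : x ≠ b) (hab : a ≠ b) : Bt p c a x b ∨ Bt p c b x a := by
  have h1 := hgp.ne c a x hca hax hcx
  have h2 := hgp.ne c x b hcx hxb hcb
  have h3 := hgp.ne c b a hcb hab.symm hca
  have e1 : o p c b x = - o p c x b := by unfold o; ring
  have e2 : o p c x a = - o p c a x := by unfold o; ring
  have e3 : o p c a b = - o p c b a := by unfold o; ring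
  unfold Bt
  rw [e1, e2, e3]
  rcases lt_or_gt_of_ne h1 with h1 | h1 <;> rcases lt_or_gt_of_ne h2 with h2 | h2 <;>
    rcases lt_or_gt_of_ne h3 with h3 | h3 <;>
    simp only [h1, h2, h3, neg_pos, and_self, true_or, or_true]

private theorem cyp {s t : ℝ} (h : 0 < s * t) (hs : 0 < s) : 0 < t :=
  (pos_iff_pos_of_mul_pos h).1 hs

/-- transitivity: order `a, x, f, b` -/
theorem bt_trans (h1 : Bt p c a x f) (h2 : Bt p c a f b) : Bt p c a x b := by
  have pl : o p c a f * o p c x b = o p c a x * o p c f b - o p c b a * o p c x f := by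
    unfold o; ring
  have e1 : o p c f a = - o p c a f := by unfold o; ring
  unfold Bt at *
  rw [e1] at h1
  rcases lt_or_ge 0 (o p c a f) with ha | ha
  · have h3 : 0 < o p c a x ∧ 0 < o p c x f := by
      rcases h1 with h1 | h1 | h1
      · exact h1
      · linarith [h1.2]
      · linarith [h1.1]
    rcases lt_or_ge 0 (o p c b a) with hb | hb
    · exact Or.inr (Or.inr ⟨hb, h3.1⟩)
    · have h4 : 0 < o p c f b := by
        rcases h2 with h2 | h2 | h2
        · exact h2.2
        · exact h2.1
        · linarith [h2.1]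
      refine Or.inl ⟨h3.1, cyp (s := o p c a f) ?_ ha⟩
      rw [pl]
      have k1 := mul_pos h3.1 h4
      have k2 : 0 ≤ (- o p c b a) * o p c x f := mul_nonneg (by linarith) h3.2.le
      linarith
  · have h3 : 0 < o p c f b ∧ 0 < o p c b a := by
      rcases h2 with h2 | h2 | h2
      · linarith [h2.1]
      · exact h2
      · linarith [h2.2]
    rcases lt_or_ge 0 (o p c a x) with hx | hx
    · exact Or.inr (Or.inr ⟨h3.2, hx⟩)
    · have h4 : 0 < o p c x f ∧ 0 < - o p c a f := by
        rcases h1 with h1 | h1 | h1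
        · linarith [h1.1]
        · exact h1
        · linarith [h1.2]
      refine Or.inr (Or.inl ⟨cyp (s := - o p c a f) ?_ h4.2, h3.2⟩)
      have k1 := mul_pos h3.2 h4.1
      have k2 : 0 ≤ (- o p c a x) * o p c f b := mul_nonneg (by linarith) h3.1.le
      linarith

/-- order `a, x, f, b`: the last three -/
theorem bt_trans3 (h1 : Bt p c a x f) (h2 : Bt p c a f b) : Bt p c x f b :=
  bt_rot' (bt_trans (bt_rot h2) (bt_rot' h1))

/-- order `a, x, f, b`: the first three from `a, x, b` and `x, f, b` -/
theorem bt_trans' (h1 : Bt p c a x b) (h2 : Bt p c x f b) : Bt p c a x f :=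
  bt_trans3 (bt_rot' h1) (bt_rot' h2)

/-- order `a, x, f, b`: `a, f, b` from `a, x, b` and `x, f, b` -/
theorem bt_trans'' (h1 : Bt p c a x b) (h2 : Bt p c x f b) : Bt p c a f b :=
  bt_rot (bt_trans (bt_rot' h1) (bt_rot' h2))

/-- the range is empty when it starts and ends in the same direction -/
theorem bt_same : ¬ Bt p c a x a := fun h => (bt_ne h).2.2.2.2.2 rfl

/-- mirror image -/
theorem bt_mir : Bt (mir p) c a x b ↔ Bt p c b x a := by
  have e1 : o p c b x = - o p c x b := by unfold o; ring
  have e2 : o p c x a = - o p c a x := by unfold o; ring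
  have e3 : o p c a b = - o p c b a := by unfold o; ring
  unfold Bt
  simp only [o_mir, e1, e2, e3]
  tauto

/-- angle less than 180 degrees -/
theorem bt_conv (h : 0 < o p c a b) : Bt p c a x b ↔ (0 < o p c a x ∧ 0 < o p c x b) := by
  have e3 : o p c b a = - o p c a b := by unfold o; ring
  unfold Bt
  rw [e3]
  constructor
  · rintro (h1 | h1 | h1)
    · exact h1
    · linarith [h1.2]
    · linarith [h1.1]
  · exact Or.inl

/-- angle greater than 180 degrees -/
theorem bt_refl (h : o p c a b < 0) : Bt p c a x b ↔ (0 < o p c a x ∨ 0 < o p c x b) := by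
  have e3 : o p c b a = - o p c a b := by unfold o; ring
  unfold Bt
  rw [e3]
  have h' : 0 < - o p c a b := by linarith
  constructor
  · rintro (h1 | h1 | h1)
    · exact Or.inl h1.1
    · exact Or.inr h1.1
    · exact Or.inl h1.2
  · rintro (h1 | h1)
    · exact Or.inr (Or.inr ⟨h', h1⟩)
    · exact Or.inr (Or.inl ⟨h1, h'⟩)

/-- in an empty angle less than 180 degrees: `x` follows `a` -/
theorem bt_of_lt (h1 : 0 < o p c a x) (h2 : 0 < o p c x b) : Bt p c a x b := Or.inl ⟨h1, h2⟩

section rg
variable [Finite α] {V : Set α}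

/-- the count drops when the start of the range moves forward -/
theorem rg_lt (hf : f ∈ V) (h : Bt p c a f b) : rg p V c f b < rg p V c a b := by
  refine Set.ncard_lt_ncard ⟨fun x hx => ⟨hx.1, ?_⟩, fun hs => ?_⟩ (Set.toFinite _)
  · exact bt_trans'' h hx.2
  · have := (hs ⟨hf, h⟩).2
    exact (bt_ne this).2.2.2.1 rfl

/-- the count drops when the end of the range moves backward -/
theorem rg_lt' (hf : f ∈ V) (h : Bt p c a f b) : rg p V c a f < rg p V c a b := by
  refine Set.ncard_lt_ncard ⟨fun x hx => ⟨hx.1, ?_⟩, fun hs => ?_⟩ (Set.toFinite _)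
  · exact bt_trans hx.2 h
  · have := (hs ⟨hf, h⟩).2
    exact (bt_ne this).2.2.2.2.1 rfl

theorem rg_le_card : rg p V c a b ≤ V.ncard :=
  Set.ncard_le_ncard (fun _ hx => hx.1) (Set.toFinite _)

end rg

end FPW
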