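import Pool.Agent.Lib.MP_deef39_co_Eng.LocLab

/-! # Eng module DiagS: a free diagonal of a polygon is on the same side at its two ends

`cc_vert2`: the triangle formula when two vertices of the triangle are on the cycle.
`diag_side`: `c, Y, d, Z` is a closed polygon without crossings, `c d` crosses none of its edges:
`c d` is on the left side of the polygon at `c` if and only if it is on the left side at `d`.
`diag_ss`: the same for two vertices of the loop of a rotation, in the notation of `LocLab`.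
-/

set_option autoImplicit false

namespace FPW

variable {α : Type*} {p : α → ℝ × ℝ}

private theorem nC1 {w s : α} : ¬ Cone p w s w s := by
  unfold Cone
  have h1 : o p w s w = 0 := by simp [o]
  rintro (⟨h, -, -⟩ | ⟨h, -, -⟩) <;> linarith

private theorem nC2 {w u t : α} : ¬ Cone p w u t u := by
  unfold Cone
  have h1 : o p w u u = 0 := o_self3 p w u
  rintro (⟨-, h, -⟩ | ⟨-, h, -⟩) <;> linarith

private theorem nC3 {w u t : α} : ¬ Cone p w u t w := by
  unfold Cone
  have h1 : o p w u w = 0 := by simp [o]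
  rintro (⟨-, h, -⟩ | ⟨-, h, -⟩) <;> linarith

private theorem nT1 {w s t : α} : ¬ InTri p w s t w := by
  unfold InTri
  have h1 : o p w s w = 0 := by simp [o]
  rintro (⟨h, -, -⟩ | ⟨h, -, -⟩) <;> linarith

private theorem nT2 {w s t : α} : ¬ InTri p w s t s := by
  unfold InTri
  have h1 : o p w s s = 0 := o_self3 p w s
  rintro (⟨h, -, -⟩ | ⟨h, -, -⟩) <;> linarith

private theorem tT {w u t b : α} : InTri p u w t b ↔ InTri p w u t b := by
  unfold InTri
  have e1 : o p u w b = - o p w u b := o_swap p w u b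
  have e2 : o p w t b = - o p t w b := o_swap p t w b
  have e3 : o p t u b = - o p u t b := o_swap p u t b
  rw [e1, e2, e3]
  constructor
  · rintro (⟨h1, h2, h3⟩ | ⟨h1, h2, h3⟩)
    · exact Or.inr ⟨by linarith, by linarith, by linarith⟩
    · exact Or.inl ⟨by linarith, by linarith, by linarith⟩
  · rintro (⟨h1, h2, h3⟩ | ⟨h1, h2, h3⟩)
    · exact Or.inr ⟨by linarith, by linarith, by linarith⟩
    · exact Or.inl ⟨by linarith, by linarith, by linarith⟩

private theorem sum3' (C : List (α × α)) (f g h k : α × α → ZMod 2)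
    (hk : ∀ e ∈ C, f e + g e + h e = k e) :
    (C.map f).sum + (C.map g).sum + (C.map h).sum = (C.map k).sum := by
  induction C with
  | nil => simp
  | cons e C ih =>
    have h1 := ih fun e he => hk e (List.mem_cons_of_mem _ he)
    have h2 := hk e List.mem_cons_self
    simp only [List.map_cons, List.sum_cons]
    rw [← h1, ← h2]
    ring

/-- value of a segment in the triangle `w u t` -/
private noncomputable def kv (p : α → ℝ × ℝ) (w u t a b : α) : ZMod 2 :=
  (b2 (a = w ∧ Cone p w u t b) + b2 (b = w ∧ Cone p w u t a)) +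
    (b2 (a = u ∧ Cone p u w t b) + b2 (b = u ∧ Cone p u w t a)) +
    (b2 (InTri p w u t a) + b2 (InTri p w u t b))

private theorem kv_pt (hgp : GP p) {w u t a b : α} (hwu : w ≠ u) (hwt : w ≠ t) (hut : u ≠ t)
    (ha : t ≠ a) (hb : t ≠ b) :
    b2 (X p w u a b) + b2 (X p u t a b) + b2 (X p t w a b) = kv p w u t a b := by
  have Z : ∀ {P : Prop}, ¬ P → b2 P = 0 := fun h => b2_false h
  have T : ∀ {P Q : Prop}, P → b2 (P ∧ Q) = b2 Q := fun h => b2_congr ⟨fun k => k.2, fun k => ⟨h, k⟩⟩
  have hab : ∀ {s r : α}, b2 (X p s r a a) = 0 := fun {s r} => Z fun h => (X_ne h).2.1 rfl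
  unfold kv
  by_cases haw : a = w
  · subst haw
    by_cases hba : b = a
    · subst hba
      rw [hab, hab, hab, Z (P := b = b ∧ Cone p b u t b) fun h => nC3 h.2,
        Z (P := b = u ∧ Cone p u b t b) fun h => hwu h.1, Z (P := InTri p b u t b) nT1]
      simp
    · by_cases hbu : b = u
      · subst hbu
        rw [Z (P := X p a b a b) not_X_of_eq1, Z (P := X p b t a b) not_X_of_eq2,
          Z (P := X p t a a b) not_X_of_eq3, Z (P := a = a ∧ Cone p a b t b) fun h => nC2 h.2,
          Z (P := b = a ∧ Cone p a b t a) fun h => hba h.1,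
          Z (P := a = b ∧ Cone p b a t b) fun h => hba h.1.symm,
          Z (P := b = b ∧ Cone p b a t a) fun h => nC2 h.2,
          Z (P := InTri p a b t a) nT1, Z (P := InTri p a b t b) nT2]
        simp
      · have h5 := cone_par hgp hwu hwt hut (a := b) ⟨fun h => hba h.symm, fun h => hbu h.symm, hb⟩
        rw [Z (P := X p a u a b) not_X_of_eq1, Z (P := X p t a a b) not_X_of_eq3,
          T (P := a = a) rfl, Z (P := b = a ∧ Cone p a u t a) fun h => hba h.1,
          Z (P := a = u ∧ Cone p u a t b) fun h => hwu h.1,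
          Z (P := b = u ∧ Cone p u a t a) fun h => hbu h.1, Z (P := InTri p a u t a) nT1, ← h5]
        have h7 := b2_add_self (InTri p a u t b)
        linear_combination -h7
  · by_cases hau : a = u
    · subst hau
      by_cases hba : b = a
      · subst hba
        rw [hab, hab, hab, Z (P := b = w ∧ Cone p w b t b) fun h => haw h.1,
          Z (P := b = b ∧ Cone p b w t b) fun h => nC3 h.2, Z (P := InTri p w b t b) nT2]
        simp
      · by_cases hbw : b = w
        · subst hbw
          rw [Z (P := X p b a a b) not_X_of_eq2, Z (P := X p a t a b) not_X_of_eq1,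
            Z (P := X p t b a b) not_X_of_eq4, Z (P := a = b ∧ Cone p b a t b) fun h => haw h.1,
            Z (P := b = b ∧ Cone p b a t a) fun h => nC2 h.2,
            Z (P := a = a ∧ Cone p a b t b) fun h => nC2 h.2,
            Z (P := b = a ∧ Cone p a b t a) fun h => hba h.1,
            Z (P := InTri p b a t a) nT2, Z (P := InTri p b a t b) nT1]
          simp
        · have h5 := cone_par hgp hwu.symm hut hwt (a := b)
            ⟨fun h => hba h.symm, fun h => hbw h.symm, hb⟩
          rw [Z (P := X p w a a b) not_X_of_eq3, Z (P := X p a t a b) not_X_of_eq1,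
            Z (P := a = w ∧ Cone p w a t b) fun h => haw h.1,
            Z (P := b = w ∧ Cone p w a t a) fun h => hbw h.1, T (P := a = a) rfl,
            Z (P := b = a ∧ Cone p a w t a) fun h => hba h.1, Z (P := InTri p w a t a) nT2,
            ← h5, b2_congr (tT (p := p) (w := w) (u := a) (t := t) (b := b)),
            b2_congr (X_sw1 (p := p) (a := t) (b := w) (c := a) (d := b))]
          have h7 := b2_add_self (InTri p w a t b)
          linear_combination -h7
    · by_cases hbw : b = w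
      · subst hbw
        have h5 := cone_par hgp hwu hwt hut (a := a) ⟨fun h => haw h.symm, fun h => hau h.symm, ha⟩
        rw [Z (P := X p b u a b) not_X_of_eq2, Z (P := X p t b a b) not_X_of_eq4,
          Z (P := a = b ∧ Cone p b u t b) fun h => haw h.1, T (P := b = b) rfl,
          Z (P := a = u ∧ Cone p u b t b) fun h => hau h.1,
          Z (P := b = u ∧ Cone p u b t a) fun h => hwu h.1, Z (P := InTri p b u t b) nT1, ← h5,
          b2_congr (X_sw2 (p := p) (a := u) (b := t) (c := a) (d := b))]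
        have h7 := b2_add_self (InTri p b u t a)
        linear_combination -h7
      · by_cases hbu : b = u
        · subst hbu
          have h5 := cone_par hgp hwu.symm hut hwt (a := a)
            ⟨fun h => hau h.symm, fun h => haw h.symm, ha⟩
          rw [Z (P := X p w b a b) not_X_of_eq4, Z (P := X p b t a b) not_X_of_eq2,
            Z (P := a = w ∧ Cone p w b t b) fun h => haw h.1,
            Z (P := b = w ∧ Cone p w b t a) fun h => hbw h.1,
            Z (P := a = b ∧ Cone p b w t b) fun h => hau h.1, T (P := b = b) rfl,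
            Z (P := InTri p w b t b) nT2, ← h5,
            b2_congr (tT (p := p) (w := w) (u := b) (t := t) (b := a)),
            b2_congr (X_sw1 (p := p) (a := t) (b := w) (c := a) (d := b)),
            b2_congr (X_sw2 (p := p) (a := w) (b := t) (c := a) (d := b))]
          have h7 := b2_add_self (InTri p w b t a)
          linear_combination -h7
        · have h5 := tri_par hgp hwu hut hwt (a := a) (b := b)
            ⟨fun h => haw h.symm, fun h => hau h.symm, ha⟩
            ⟨fun h => hbw h.symm, fun h => hbu h.symm, hb⟩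
          rw [Z (P := a = w ∧ Cone p w u t b) fun h => haw h.1,
            Z (P := b = w ∧ Cone p w u t a) fun h => hbw h.1,
            Z (P := a = u ∧ Cone p u w t b) fun h => hau h.1,
            Z (P := b = u ∧ Cone p u w t a) fun h => hbu h.1, h5]
          ring

/-- the triangle formula when `w` and `u` may lie on the cycle -/
theorem cc_vert2 (hgp : GP p) {w u t : α} {C : List (α × α)} (hC : Cyc C) (hwu : w ≠ u)
    (hwt : w ≠ t) (hut : u ≠ t) (ht : ¬ OnC t C) :
    cc p w u C + cc p u t C + cc p t w C = rays p w u t C + rays p u w t C := by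
  have h4 := sum3' C (fun e => b2 (X p w u e.1 e.2)) (fun e => b2 (X p u t e.1 e.2))
    (fun e => b2 (X p t w e.1 e.2)) (fun e => kv p w u t e.1 e.2)
    (fun e he => kv_pt hgp hwu hwt hut (fun h => ht ⟨e, he, Or.inl h.symm⟩)
      (fun h => ht ⟨e, he, Or.inr h.symm⟩))
  have h5 := sum_cyc hC fun v => b2 (InTri p w u t v)
  have h6 := sum3' C (fun e => b2 (e.1 = w ∧ Cone p w u t e.2) + b2 (e.2 = w ∧ Cone p w u t e.1))
    (fun e => b2 (e.1 = u ∧ Cone p u w t e.2) + b2 (e.2 = u ∧ Cone p u w t e.1))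
    (fun e => b2 (InTri p w u t e.1) + b2 (InTri p w u t e.2))
    (fun e => kv p w u t e.1 e.2) (fun e _ => rfl)
  unfold cc rays
  rw [h4, ← h6, h5, add_zero]

/-! ## signs -/

private noncomputable def sb (x : ℝ) : Bool := decide (0 < x)

private theorem sb_pos {x : ℝ} : 0 < x ↔ sb x = true := by simp [sb]

private theorem sb_neg {x : ℝ} (hx : x ≠ 0) : x < 0 ↔ sb x = false := by
  unfold sb
  rw [decide_eq_false_iff_not, not_lt]
  exact ⟨le_of_lt, fun h => lt_of_le_of_ne h hx⟩

private theorem sb_npos {x : ℝ} (hx : x ≠ 0) : 0 < -x ↔ sb x = false := by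
  rw [neg_pos, sb_neg hx]

private theorem sb_nneg {x : ℝ} : -x < 0 ↔ sb x = true := by
  rw [neg_lt_zero, sb_pos]

private theorem b2b {P : Prop} {a : Bool} (h : P ↔ a = true) : b2 P = cond a 1 0 := by
  cases a with
  | true => rw [b2_true (h.2 rfl)]; rfl
  | false => rw [b2_false fun k => by simpa using h.1 k]; rfl

private theorem bool3 : ∀ h i j : Bool,
    (cond ((h && i && j) || (!h && !i && !j)) 1 0 : ZMod 2) =
      cond ((!i && h) || (h && !j) || (!j && !i)) 1 0 + cond h 1 0 := by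
  decide

private theorem sgn3 (hgp : GP p) {w u t b : α} (hwu : w ≠ u) (hwt : w ≠ t) (hut : u ≠ t)
    (hwb : w ≠ b) (hub : u ≠ b) (htb : t ≠ b) :
    b2 (Cone p w u t b) = b2 (Bt p w b u t) + b2 (0 < o p w u t) := by
  have n1 := hgp.ne w u t hwu hut hwt
  have n2 := hgp.ne w u b hwu hub hwb
  have n3 := hgp.ne w b t hwb htb.symm hwt
  have e1 : o p w b u = - o p w u b := o_swap' p w u b
  have e2 : o p w t b = - o p w b t := o_swap' p w b t
  have hC : Cone p w u t b ↔ ((sb (o p w u t) && sb (o p w u b) && sb (o p w b t)) ||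
      (!sb (o p w u t) && !sb (o p w u b) && !sb (o p w b t))) = true := by
    unfold Cone
    rw [sb_neg n1, sb_neg n2, sb_neg n3, sb_pos, sb_pos, sb_pos]
    simp only [Bool.or_eq_true, Bool.and_eq_true, Bool.not_eq_true', and_assoc]
  have hB : Bt p w b u t ↔ ((!sb (o p w u b) && sb (o p w u t)) ||
      (sb (o p w u t) && !sb (o p w b t)) || (!sb (o p w b t) && !sb (o p w u b))) = true := by
    unfold Bt
    rw [e1, e2, sb_npos n2, sb_npos n3, sb_pos]
    simp only [Bool.or_eq_true, Bool.and_eq_true, Bool.not_eq_true', or_assoc]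
  rw [b2b hC, b2b hB, b2b (sb_pos (x := o p w u t))]
  exact bool3 _ _ _

private theorem bool6 : ∀ a b c e f g : Bool,
    ¬ ((a == g) && (b != f) && (c == e)) = true → ¬ ((a != g) && (b == f) && (c != e)) = true →
    (cond ((a && b && !e) || (!a && !b && e)) 1 0 : ZMod 2) +
      cond ((a && c && !f) || (!a && !c && f)) 1 0 +
      cond ((!f && !g && !e) || (f && g && e)) 1 0 =
      cond ((c && !g) || (!g && !b) || (!b && c)) 1 0 + cond f 1 0 := by
  decide

/-- four directions `z, t, y, c` at `w` -/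
private theorem sgn4 (hgp : GP p) {w z t y c : α} (hwz : w ≠ z) (hwt : w ≠ t) (hwy : w ≠ y)
    (hwc : w ≠ c) (hzt : z ≠ t) (hzy : z ≠ y) (hzc : z ≠ c) (hty : t ≠ y) (htc : t ≠ c)
    (hyc : y ≠ c) :
    b2 (Cone p w z t y) + b2 (Cone p w z t c) + b2 (Cone p w c t y) =
      b2 (Bt p w z c y) + b2 (0 < o p w t c) := by
  have na := hgp.ne w z t hwz hzt hwt
  have nb := hgp.ne w z y hwz hzy hwy
  have nc := hgp.ne w z c hwz hzc hwc
  have ne := hgp.ne w t y hwt hty hwy
  have nf := hgp.ne w t c hwt htc hwc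
  have ng := hgp.ne w y c hwy hyc hwc
  have e1 : o p w y t = - o p w t y := o_swap' p w t y
  have e2 : o p w c t = - o p w t c := o_swap' p w t c
  have e3 : o p w c y = - o p w y c := o_swap' p w y c
  have e4 : o p w y z = - o p w z y := o_swap' p w z y
  have pl : o p w z t * o p w y c - o p w z y * o p w t c + o p w z c * o p w t y = 0 := by
    unfold o; ring
  have h1 : Cone p w z t y ↔ ((sb (o p w z t) && sb (o p w z y) && !sb (o p w t y)) ||
      (!sb (o p w z t) && !sb (o p w z y) && sb (o p w t y))) = true := by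
    unfold Cone
    rw [e1, sb_neg na, sb_neg nb, sb_nneg, sb_npos ne, sb_pos, sb_pos]
    simp only [Bool.or_eq_true, Bool.and_eq_true, Bool.not_eq_true', and_assoc]
  have h2 : Cone p w z t c ↔ ((sb (o p w z t) && sb (o p w z c) && !sb (o p w t c)) ||
      (!sb (o p w z t) && !sb (o p w z c) && sb (o p w t c))) = true := by
    unfold Cone
    rw [e2, sb_neg na, sb_neg nc, sb_nneg, sb_npos nf, sb_pos, sb_pos]
    simp only [Bool.or_eq_true, Bool.and_eq_true, Bool.not_eq_true', and_assoc]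
  have h3 : Cone p w c t y ↔ ((!sb (o p w t c) && !sb (o p w y c) && !sb (o p w t y)) ||
      (sb (o p w t c) && sb (o p w y c) && sb (o p w t y))) = true := by
    unfold Cone
    rw [e1, e2, e3, sb_npos nf, sb_npos ng, sb_npos ne, sb_nneg, sb_nneg, sb_nneg]
    simp only [Bool.or_eq_true, Bool.and_eq_true, Bool.not_eq_true', and_assoc]
  have h4 : Bt p w z c y ↔ ((sb (o p w z c) && !sb (o p w y c)) ||
      (!sb (o p w y c) && !sb (o p w z y)) || (!sb (o p w z y) && sb (o p w z c))) = true := by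
    unfold Bt
    rw [e3, e4, sb_npos ng, sb_npos nb, sb_pos]
    simp only [Bool.or_eq_true, Bool.and_eq_true, Bool.not_eq_true', or_assoc]
  rw [b2b h1, b2b h2, b2b h3, b2b h4, b2b (sb_pos (x := o p w t c))]
  have prod : ∀ {x y : ℝ}, x ≠ 0 → y ≠ 0 → (sb x = sb y → 0 < x * y) ∧ (sb x ≠ sb y → x * y < 0) := by
    intro x y hx hy
    rcases lt_or_gt_of_ne hx with h | h <;> rcases lt_or_gt_of_ne hy with k | k
    · exact ⟨fun _ => mul_pos_of_neg_of_neg h k, fun hh =>
        absurd (((sb_neg hx).1 h).trans ((sb_neg hy).1 k).symm) hh⟩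
    · refine ⟨fun hh => ?_, fun _ => mul_neg_of_neg_of_pos h k⟩
      rw [(sb_neg hx).1 h, sb_pos.1 k] at hh
      simp at hh
    · refine ⟨fun hh => ?_, fun _ => mul_neg_of_pos_of_neg h k⟩
      rw [(sb_neg hy).1 k, sb_pos.1 h] at hh
      simp at hh
    · exact ⟨fun _ => mul_pos h k, fun hh => absurd ((sb_pos.1 h).trans (sb_pos.1 k).symm) hh⟩
  refine bool6 _ _ _ _ _ _ ?_ ?_
  · intro h
    rw [Bool.and_eq_true, Bool.and_eq_true, beq_iff_eq, bne_iff_ne, beq_iff_eq] at h
    have k1 := (prod na ng).1 h.1.1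
    have k2 := (prod nb nf).2 h.1.2
    have k3 := (prod nc ne).1 h.2
    linarith
  · intro h
    rw [Bool.and_eq_true, Bool.and_eq_true, bne_iff_ne, beq_iff_eq, bne_iff_ne] at h
    have k1 := (prod na ng).2 h.1.1
    have k2 := (prod nb nf).1 h.1.2
    have k3 := (prod nc ne).2 h.2
    linarith

/-! ## rays of a path at its vertices -/

theorem rays_append {w s t : α} {C D : List (α × α)} :
    rays p w s t (C ++ D) = rays p w s t C + rays p w s t D := by
  simp [rays]

theorem rays_one {w s t a b : α} : rays p w s t [(a, b)] =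
    b2 (a = w ∧ Cone p w s t b) + b2 (b = w ∧ Cone p w s t a) := by
  simp [rays]

theorem pe_snoc {a b : α} (A : List α) : pe (A ++ [a, b]) = pe (A ++ [a]) ++ [(a, b)] := by
  match A with
  | [] => rfl
  | [c] => rfl
  | c :: d :: A =>
    have h := pe_snoc (a := a) (b := b) (d :: A)
    simp only [List.cons_append, pe_cons2] at h ⊢
    rw [h]

theorem onC_pe {v : α} {l : List α} (h : OnC v (pe l)) : v ∈ l := by
  obtain ⟨e, he, h1 | h1⟩ := h
  · rw [← h1]; exact (pe_mem l he).1
  · rw [← h1]; exact (pe_mem l he).2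

theorem rays_start {w s t b : α} {B : List α} (hw : w ∉ b :: B) :
    rays p w s t (pe (w :: b :: B)) = b2 (Cone p w s t b) := by
  have h1 : pe (w :: b :: B) = [(w, b)] ++ pe (b :: B) := rfl
  rw [h1, rays_append, rays_one, rays_off fun h => hw (onC_pe h), add_zero,
    b2_congr (Q := Cone p w s t b) ⟨fun h => h.2, fun h => ⟨rfl, h⟩⟩,
    b2_false (P := b = w ∧ Cone p w s t w) fun h => hw (by simp [h.1]), add_zero]

theorem rays_end {w s t a : α} {A : List α} (hw : w ∉ A ++ [a]) :
    rays p w s t (pe (A ++ [a, w])) = b2 (Cone p w s t a) := by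
  rw [pe_snoc, rays_append, rays_one, rays_off fun h => hw (onC_pe h), zero_add,
    b2_congr (Q := Cone p w s t a) (P := w = w ∧ Cone p w s t a)
      ⟨fun h => h.2, fun h => ⟨rfl, h⟩⟩,
    b2_false (P := a = w ∧ Cone p w s t w) fun h => hw (by simp [h.1]), zero_add]

/-- **a free diagonal of a polygon is on the same side at its two ends**: `c, Y, d, Z` closed
polygon, `y, y'` first and last vertex of `Y`, `z, z'` first and last vertex of `Z` -/
theorem diag_side (hgp : GP p) {c d y y' z z' : α} {Y Z : List α}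
    (hn : (c :: (Y ++ d :: Z)).Nodup) (hy : Y.head? = some y) (hy' : Y.getLast? = some y')
    (hz : Z.head? = some z) (hz' : Z.getLast? = some z')
    (hpl : Plane p (Ed (c :: (Y ++ d :: (Z ++ [c])))))
    (hcd : Vis p (Ed (c :: (Y ++ d :: (Z ++ [c])))) c d) :
    Bt p c y d z' ↔ Bt p d z c y' := by
  obtain ⟨Y1, rfl⟩ : ∃ Y1, Y = y :: Y1 := by
    cases Y with
    | nil => simp at hy
    | cons a Y1 => exact ⟨Y1, by rw [List.head?_cons, Option.some.injEq] at hy; rw [hy]⟩
  obtain ⟨Z1, rfl⟩ : ∃ Z1, Z = z :: Z1 := by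
    cases Z with
    | nil => simp at hz
    | cons a Z1 => exact ⟨Z1, by rw [List.head?_cons, Option.some.injEq] at hz; rw [hz]⟩
  obtain ⟨Y2, hY2⟩ : ∃ Y2, y :: Y1 = Y2 ++ [y'] := by
    obtain ⟨h1, h2⟩ := List.getLast?_eq_some_iff.1 hy'
    exact ⟨h1, h2⟩
  obtain ⟨Z2, hZ2⟩ : ∃ Z2, z :: Z1 = Z2 ++ [z'] := by
    obtain ⟨h1, h2⟩ := List.getLast?_eq_some_iff.1 hz'
    exact ⟨h1, h2⟩
  set E : List α := c :: (y :: Y1 ++ d :: (z :: Z1 ++ [c])) with hE
  set C : List (α × α) := pe (c :: (y :: Y1 ++ [d])) ++ [(d, c)] with hC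
  have hCyc : Cyc C := by
    have h1 : C = pe (c :: ((y :: Y1 ++ [d]) ++ [c])) := by
      have h2 : c :: ((y :: Y1 ++ [d]) ++ [c]) = (c :: (y :: Y1)) ++ [d, c] := by simp
      rw [h2, pe_snoc, hC]
      rfl
    rw [h1]
    exact cyc_closed
  have hyd : y' ∈ y :: Y1 := by rw [hY2]; simp
  have hzd : z' ∈ z :: Z1 := by rw [hZ2]; simp
  -- distinctness
  have hn1 := List.nodup_cons.1 hn
  have hn2 := List.nodup_append'.1 hn1.2
  have hn3 := List.nodup_cons.1 hn2.2.1
  have cY : ∀ u ∈ y :: Y1, c ≠ u := fun u hu h => hn1.1 (h ▸ List.mem_append_left _ hu)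
  have cd : c ≠ d := fun h => hn1.1 (h ▸ List.mem_append_right _ List.mem_cons_self)
  have cZ : ∀ u ∈ z :: Z1, c ≠ u := fun u hu h =>
    hn1.1 (h ▸ List.mem_append_right _ (List.mem_cons_of_mem _ hu))
  have dY : ∀ u ∈ y :: Y1, d ≠ u := fun u hu h => hn2.2.2 hu (h ▸ List.mem_cons_self)
  have dZ : ∀ u ∈ z :: Z1, d ≠ u := fun u hu h => hn3.1 (h ▸ hu)
  have YZ : ∀ u ∈ y :: Y1, ∀ w ∈ z :: Z1, u ≠ w := fun u hu w hw h =>
    hn2.2.2 hu (h ▸ List.mem_cons_of_mem _ hw)
  have hy0 : y ∈ y :: Y1 := List.mem_cons_self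
  have hz0 : z ∈ z :: Z1 := List.mem_cons_self
  -- vertices of Z are off C
  have off : ∀ t ∈ z :: Z1, ¬ OnC t C := by
    intro t ht h
    have h1 : t ∈ c :: (y :: Y1 ++ [d]) := by
      obtain ⟨e, he, h⟩ := h
      rcases List.mem_append.1 he with he | he
      · exact onC_pe ⟨e, he, h⟩
      · rw [List.mem_singleton] at he
        rw [he] at h
        rcases h with h | h
        · rw [← h]; simp
        · rw [← h]; simp
    rcases List.mem_cons.1 h1 with h2 | h2
    · exact cZ t ht h2.symm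
    · rcases List.mem_append.1 h2 with h3 | h3
      · exact YZ t h3 t ht rfl
      · rw [List.mem_singleton] at h3
        exact dZ t ht h3.symm
  -- edges of the polygon do not cross C
  have hEC : ∀ e ∈ C, Ed E e.1 e.2 ∨ (e.1 = d ∧ e.2 = c) := by
    intro e he
    rcases List.mem_append.1 he with he | he
    · left
      have h1 : Ed (c :: (y :: Y1 ++ [d])) e.1 e.2 := (ed_pe _).2 (Or.inl he)
      have h2 : E = (c :: (y :: Y1)) ++ d :: (z :: Z1 ++ [c]) := by rw [hE]; simp
      rw [h2, ed_mid]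
      left
      simpa using h1
    · right
      rw [List.mem_singleton] at he
      rw [he]
      exact ⟨rfl, rfl⟩
  have free : ∀ u v, Ed E u v → cc p u v C = 0 := by
    intro u v huv
    refine cc_free fun e he hX => ?_
    rcases hEC e he with h | ⟨h1, h2⟩
    · exact hpl u v e.1 e.2 huv h hX
    · rw [h1, h2] at hX
      exact hcd u v huv (X_comm.1 (X_sw2.1 hX))
  have cd0 : cc p d c C = 0 := by
    refine cc_free fun e he hX => ?_
    rcases hEC e he with h | ⟨h1, h2⟩
    · exact hcd e.1 e.2 h (X_sw1.1 hX)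
    · rw [h1, h2] at hX
      exact not_X_of_eq1 hX
  have edZ : ∀ u v, Ed (z :: Z1) u v → Ed E u v := by
    intro u v h
    have h2 : E = (c :: (y :: Y1 ++ d :: Z2)) ++ z' :: [c] := by
      rw [hE, hZ2]; simp
    rw [hZ2] at h
    rw [h2, ed_mid]
    left
    have h3 : (c :: (y :: Y1 ++ d :: Z2)) ++ [z'] = (c :: (y :: Y1)) ++ d :: (Z2 ++ [z']) := by simp
    rw [h3, ed_mid]
    right
    cases Z2 with
    | nil => exact Or.inr (Or.inr h)
    | cons a Z2 => exact Or.inr (Or.inr h)
  have dz : cc p d z C = 0 := by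
    refine free d z ?_
    have h2 : E = (c :: (y :: Y1)) ++ d :: z :: (Z1 ++ [c]) := by rw [hE]; simp
    rw [h2]
    exact ed_of_split
  have zc : cc p z' c C = 0 := by
    refine free z' c ?_
    have h2 : E = (c :: (y :: Y1 ++ d :: Z2)) ++ z' :: c :: [] := by rw [hE, hZ2]; simp
    rw [h2]
    exact ed_of_split
  have zz : cc p z z' C = 0 :=
    cc_walk hgp hCyc Z1 z off (fun u v h => free u v (edZ u v h)) z' hzd
  -- rays
  have rd : ∀ s t : α, rays p d s t C = b2 (Cone p d s t y') + b2 (Cone p d s t c) := by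
    intro s t
    have h1 : c :: (y :: Y1 ++ [d]) = (c :: Y2) ++ [y', d] := by rw [hY2]; simp
    rw [hC, h1, rays_append, rays_end, rays_one,
      b2_congr (Q := Cone p d s t c) (P := d = d ∧ Cone p d s t c)
        ⟨fun h => h.2, fun h => ⟨rfl, h⟩⟩,
      b2_false (P := c = d ∧ Cone p d s t d) fun h => cd h.1, add_zero]
    intro h
    have h2 : (c :: Y2) ++ [y'] = c :: (y :: Y1) := by rw [hY2]; simp
    rw [h2] at h
    rcases List.mem_cons.1 h with h | h
    · exact cd h.symm
    · exact dY d h rfl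
  have rc : ∀ s t : α, rays p c s t C = b2 (Cone p c s t y) + b2 (Cone p c s t d) := by
    intro s t
    have h1 : c :: (y :: Y1 ++ [d]) = c :: y :: (Y1 ++ [d]) := by simp
    rw [hC, h1, rays_append, rays_start, rays_one,
      b2_congr (Q := Cone p c s t d) (P := c = c ∧ Cone p c s t d)
        ⟨fun h => h.2, fun h => ⟨rfl, h⟩⟩,
      b2_false (P := d = c ∧ Cone p c s t c) fun h => cd h.1.symm, zero_add]
    intro h
    rcases List.mem_cons.1 h with h | h
    · exact cY y hy0 h
    · rcases List.mem_append.1 h with h | h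
      · exact cY c (List.mem_cons_of_mem _ h) rfl
      · rw [List.mem_singleton] at h
        exact cd h
  -- the triangle `d c z'`
  have E2 := cc_vert2 hgp hCyc cd.symm (dZ z' hzd) (cZ z' hzd) (off z' hzd)
  rw [cd0, cc_comm (s := c) (t := z'), zc, rd, rc, b2_false (P := Cone p d c z' c) nC2,
    b2_false (P := Cone p c d z' d) nC2] at E2
  -- signs at `c`
  have S3 := sgn3 hgp cd (cZ z' hzd) (dZ z' hzd) (cY y hy0) (dY y hy0) (YZ y hy0 z' hzd).symm
  have sgn : b2 (0 < o p d z' c) = b2 (0 < o p c d z') := b2_congr (by rw [o_rot' p d z' c])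
  have fin : b2 (Bt p d z c y') = b2 (Bt p c y d z') := by
    by_cases hzz : z = z'
    · subst hzz
      rw [cc_comm (s := z) (t := d), dz] at E2
      have S3' := sgn3 hgp cd.symm (dZ z hz0) (cZ z hz0) (dY y' hyd) (cY y' hyd)
        (YZ y' hyd z hz0).symm
      have hneg : b2 (Bt p d y' c z) = 1 + b2 (Bt p d z c y') := by
        rcases bt_total hgp (dZ z hz0) cd.symm (dY y' hyd) (cZ z hz0).symm (cY y' hyd)
          (YZ y' hyd z hz0).symm with h | h
        · rw [b2_true h, b2_false (bt_asymm h)]; decide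
        · rw [b2_true h, b2_false (bt_asymm h)]; simp
      have hpos : b2 (0 < o p d c z) = 1 + b2 (0 < o p c d z) := by
        have h1 := hgp.ne c d z cd (dZ z hz0) (cZ z hz0)
        have h2 : o p d c z = - o p c d z := o_swap p c d z
        rcases lt_or_gt_of_ne h1 with h | h
        · rw [b2_true (by rw [h2]; linarith), b2_false (not_lt.2 h.le)]; simp
        · rw [b2_false (by rw [h2]; linarith), b2_true h]; decide
      rw [hneg, hpos] at S3'
      have two : (2 : ZMod 2) = 0 := by decide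
      linear_combination (exp := 1) E2 - S3 + S3' +
        (1 + b2 (Bt p d z c y') + b2 (Cone p c d z y) - b2 (Bt p c y d z)) * two
    · have E1 := cc_vert hgp hCyc (dZ z hz0) (dZ z' hzd) hzz (off z hz0) (off z' hzd)
      rw [dz, zz, rd] at E1
      have S4 := sgn4 hgp (dZ z hz0) (dZ z' hzd) (dY y' hyd) cd.symm hzz
        (YZ y' hyd z hz0).symm (cZ z hz0).symm (YZ y' hyd z' hzd).symm (cZ z' hzd).symm
        (cY y' hyd).symm
      rw [sgn] at S4
      have two : (2 : ZMod 2) = 0 := by decide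
      linear_combination (exp := 1) E2 - E1 - S4 + S3 + b2 (Cone p d c z' y') * two
  constructor
  · intro h
    rw [b2_true h] at fin
    exact b2_eq_one.1 fin
  · intro h
    rw [b2_true h] at fin
    exact b2_eq_one.1 fin.symm

theorem ss_comm {L : List α} {c d : α} (h : SS p L c d) : SS p L d c := by
  rcases h with ⟨h1, h2⟩ | ⟨h1, h2⟩
  · exact Or.inl ⟨h2, h1⟩
  · exact Or.inr ⟨h2, h1⟩

private theorem diag_ss0 (hgp : GP p) {A B1 Y B3 : List α} {v z c d : α}
    (hn : (A ++ v :: ((B1 ++ c :: (Y ++ d :: B3)) ++ [z])).Nodup)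
    (hpl : Plane p (Ed (A ++ v :: ((B1 ++ c :: (Y ++ d :: B3)) ++ [z]))))
    (hzv : Vis p (Ed (A ++ v :: ((B1 ++ c :: (Y ++ d :: B3)) ++ [z]))) z v)
    (hne : ¬ Ed (A ++ v :: ((B1 ++ c :: (Y ++ d :: B3)) ++ [z])) c d)
    (hw : Vis p (Ed (A ++ v :: ((B1 ++ c :: (Y ++ d :: B3)) ++ [z]))) c d)
    (hx : ¬ X p c d z v) : SS p (A ++ v :: ((B1 ++ c :: (Y ++ d :: B3)) ++ [z])) c d := by
  set L := A ++ v :: ((B1 ++ c :: (Y ++ d :: B3)) ++ [z]) with hL
  obtain ⟨y, Y1, rfl⟩ : ∃ y Y1, Y = y :: Y1 := by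
    cases Y with
    | nil =>
      refine absurd ?_ hne
      have h : L = (A ++ v :: B1) ++ c :: d :: (B3 ++ [z]) := by rw [hL]; simp
      rw [h]
      exact ed_of_split
    | cons y Y1 => exact ⟨y, Y1, rfl⟩
  obtain ⟨Y2, y', hY⟩ : ∃ Y2 y', y :: Y1 = Y2 ++ [y'] := by
    rcases List.eq_nil_or_concat (y :: Y1) with h | ⟨Y2, y', h⟩
    · simp at h
    · exact ⟨Y2, y', by rw [h, List.concat_eq_append]⟩
  obtain ⟨M, x0, hM⟩ : ∃ M x0, v :: B1 = M ++ [x0] := by
    rcases List.eq_nil_or_concat (v :: B1) with h | ⟨M, x0, h⟩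
    · simp at h
    · exact ⟨M, x0, by rw [h, List.concat_eq_append]⟩
  obtain ⟨z1, B4, hB⟩ : ∃ z1 B4, B3 ++ [z] = z1 :: B4 := by
    cases B3 with
    | nil => exact ⟨z, [], rfl⟩
    | cons b B3 => exact ⟨b, B3 ++ [z], rfl⟩
  -- neighbours
  have n1 : Nx L x0 c := by
    refine ⟨A ++ M, (y :: Y1 ++ d :: B3) ++ [z], ?_⟩
    have h : L = A ++ (v :: B1) ++ c :: ((y :: Y1 ++ d :: B3) ++ [z]) := by rw [hL]; simp
    rw [h, hM]
    simp
  have n2 : Nx L c y := ⟨A ++ v :: B1, Y1 ++ d :: B3 ++ [z], by rw [hL]; simp⟩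
  have n3 : Nx L y' d := by
    refine ⟨A ++ v :: (B1 ++ c :: Y2), B3 ++ [z], ?_⟩
    have h : L = A ++ v :: (B1 ++ c :: (y :: Y1)) ++ d :: (B3 ++ [z]) := by rw [hL]; simp
    rw [h, hY]
    simp
  have n4 : Nx L d z1 := by
    refine ⟨A ++ v :: (B1 ++ c :: (y :: Y1)), B4, ?_⟩
    have h : L = A ++ v :: (B1 ++ c :: (y :: Y1)) ++ d :: (B3 ++ [z]) := by rw [hL]; simp
    rw [h, hB]
  -- the polygon
  set W1 := y :: Y1 ++ d :: (B3 ++ [z]) with hW1
  have hLW : L = (A ++ v :: B1) ++ c :: W1 := by rw [hL, hW1]; simp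
  have hN : (c :: (y :: Y1 ++ d :: ((B3 ++ [z]) ++ (v :: B1)))).Nodup := by
    have h1 : L = A ++ ((v :: B1) ++ c :: W1) := by rw [hL, hW1]; simp
    rw [h1] at hn
    have h2 := (List.nodup_append'.1 hn).2.1
    have h3 : ((v :: B1) ++ c :: W1).Perm (c :: W1 ++ (v :: B1)) := List.perm_append_comm
    have h4 : c :: (y :: Y1 ++ d :: ((B3 ++ [z]) ++ (v :: B1))) = c :: W1 ++ (v :: B1) := by
      rw [hW1]; simp
    rw [h4]
    exact h3.nodup_iff.1 h2
  have hE : ∀ a b, Ed (c :: (y :: Y1 ++ d :: (((B3 ++ [z]) ++ (v :: B1)) ++ [c]))) a b →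
      Ed L a b ∨ (a = z ∧ b = v) ∨ (a = v ∧ b = z) := by
    intro a b h
    have h1 : c :: (y :: Y1 ++ d :: (((B3 ++ [z]) ++ (v :: B1)) ++ [c])) =
        (c :: (y :: Y1 ++ d :: B3)) ++ z :: (v :: (B1 ++ [c])) := by simp
    rw [h1, ed_mid] at h
    rcases h with h | h
    · left
      rw [hLW, ed_mid]
      right
      have h2 : c :: (y :: Y1 ++ d :: B3) ++ [z] = c :: W1 := by rw [hW1]; simp
      rw [h2] at h
      exact h
    · rcases h with h | h | h
      · exact Or.inr (Or.inl h)
      · exact Or.inr (Or.inr h)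
      · left
        rw [hLW, ed_mid]
        left
        have h2 : (A ++ v :: B1) ++ [c] = A ++ v :: (B1 ++ [c]) := by simp
        rw [h2, ed_mid]
        exact Or.inr h
  have key : Bt p c y d x0 ↔ Bt p d z1 c y' := by
    refine diag_side hgp hN rfl (by rw [hY]; simp) (by rw [hB]; rfl)
      (List.getLast?_eq_some_iff.2 ⟨(B3 ++ [z]) ++ M, by rw [hM]; simp⟩) ?_ ?_
    · intro a b a' b' h1 h2
      rcases hE a b h1 with h | ⟨rfl, rfl⟩ | ⟨rfl, rfl⟩ <;>
        rcases hE a' b' h2 with h' | ⟨rfl, rfl⟩ | ⟨rfl, rfl⟩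
      · exact hpl _ _ _ _ h h'
      · exact fun hX => hzv _ _ h (X_comm.1 hX)
      · exact fun hX => hzv _ _ h (X_comm.1 (X_sw2.1 hX))
      · exact hzv _ _ h'
      · exact not_X_of_eq1
      · exact not_X_of_eq2
      · exact fun hX => hzv _ _ h' (X_sw1.1 hX)
      · exact not_X_of_eq2
      · exact not_X_of_eq1
    · intro a b h1
      rcases hE a b h1 with h | ⟨rfl, rfl⟩ | ⟨rfl, rfl⟩
      · exact hw _ _ h
      · exact hx
      · exact fun hX => hx (X_sw2.1 hX)
  have cd : c ≠ d := by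
    rintro rfl
    have h := (List.nodup_cons.1 hN).1
    exact h (List.mem_append_right _ List.mem_cons_self)
  have cy : c ≠ y := by
    rintro rfl
    exact (List.nodup_cons.1 hN).1 (List.mem_append_left _ List.mem_cons_self)
  have yd : y ≠ d := by
    rintro rfl
    exact (List.nodup_append'.1 (List.nodup_cons.1 hN).2).2.2 List.mem_cons_self
      List.mem_cons_self
  have hx0 : x0 ∈ (B3 ++ [z]) ++ (v :: B1) := by rw [hM]; simp
  have cx : c ≠ x0 := by
    rintro rfl
    exact (List.nodup_cons.1 hN).1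
      (List.mem_append_right _ (List.mem_cons_of_mem _ hx0))
  have dx : d ≠ x0 := by
    rintro rfl
    exact (List.nodup_cons.1 (List.nodup_append'.1 (List.nodup_cons.1 hN).2).2.1).1 hx0
  have yx : y ≠ x0 := by
    rintro rfl
    exact (List.nodup_append'.1 (List.nodup_cons.1 hN).2).2.2 List.mem_cons_self
      (List.mem_cons_of_mem _ hx0)
  have hy' : y' ∈ y :: Y1 := by rw [hY]; simp
  have dy' : d ≠ y' := by
    rintro rfl
    exact (List.nodup_append'.1 (List.nodup_cons.1 hN).2).2.2 hy' List.mem_cons_self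
  have cy' : c ≠ y' := by
    rintro rfl
    exact (List.nodup_cons.1 hN).1 (List.mem_append_left _ hy')
  have hz1 : z1 ∈ (B3 ++ [z]) ++ (v :: B1) := by rw [hB]; simp
  have cz1 : c ≠ z1 := by
    rintro rfl
    exact (List.nodup_cons.1 hN).1
      (List.mem_append_right _ (List.mem_cons_of_mem _ hz1))
  have dz1 : d ≠ z1 := by
    rintro rfl
    exact (List.nodup_cons.1 (List.nodup_append'.1 (List.nodup_cons.1 hN).2).2.1).1 hz1
  have yz1 : y' ≠ z1 := by
    rintro rfl
    exact (List.nodup_append'.1 (List.nodup_cons.1 hN).2).2.2 hy'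
      (List.mem_cons_of_mem _ hz1)
  rcases bt_total hgp cy cd cx yd dx yx with h | h
  · exact Or.inl ⟨⟨x0, y, n1, n2, h⟩, ⟨y', z1, n3, n4, key.1 h⟩⟩
  · refine Or.inr ⟨⟨x0, y, n1, n2, h⟩, ⟨y', z1, n3, n4, ?_⟩⟩
    rcases bt_total hgp dz1 cd.symm dy' cz1.symm cy' yz1.symm with h' | h'
    · exact absurd (key.2 h') (bt_asymm h)
    · exact h'

/-- a wall between two vertices of the loop of a rotation is on the same side at its two ends -/
theorem diag_ss (hgp : GP p) {A B : List α} {v z c d : α} (hn : (A ++ v :: (B ++ [z])).Nodup)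
    (hpl : Plane p (Ed (A ++ v :: (B ++ [z])))) (hzv : Vis p (Ed (A ++ v :: (B ++ [z]))) z v)
    (hc : c ∈ B) (hd : d ∈ B) (hcd : c ≠ d) (hne : ¬ Ed (A ++ v :: (B ++ [z])) c d)
    (hw : Vis p (Ed (A ++ v :: (B ++ [z]))) c d) (hx : ¬ X p c d z v) :
    SS p (A ++ v :: (B ++ [z])) c d := by
  obtain ⟨B1, R, rfl⟩ := List.append_of_mem hc
  rcases List.mem_append.1 hd with h | h
  · obtain ⟨B1, Y, rfl⟩ := List.append_of_mem h
    have e : (B1 ++ d :: Y) ++ c :: R = B1 ++ d :: (Y ++ c :: R) := by simp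
    rw [e] at hn hpl hzv hne hw ⊢
    refine ss_comm (diag_ss0 hgp hn hpl hzv (fun h => hne (ed_symm h)) ?_ ?_)
    · exact fun a b h hX => hw a b h (X_sw1.1 hX)
    · exact fun hX => hx (X_sw1.1 hX)
  · rcases List.mem_cons.1 h with h | h
    · exact absurd h.symm hcd
    · obtain ⟨Y, B3, rfl⟩ := List.append_of_mem h
      exact diag_ss0 hgp hn hpl hzv hne hw hx

/-- **the label of a wall does not change under a rotation** -/
theorem lbl_rot (hgp : GP p) {A B : List α} {v z c d x : α} (hn : (A ++ v :: (B ++ [z])).Nodup)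
    (hpl : Plane p (Ed (A ++ v :: (B ++ [z])))) (hzv : Vis p (Ed (A ++ v :: (B ++ [z]))) z v)
    (hcd : c ≠ d) (hne : ¬ Ed (A ++ v :: (B ++ [z])) c d)
    (hw : Vis p (Ed (A ++ v :: (B ++ [z]))) c d) (hx : ¬ X p c d z v)
    (hc : c ∈ A ∨ (c ∈ B ∧ ¬ Nx (A ++ v :: (B ++ [z])) v c))
    (hd : d ∈ A ∨ d = v ∨ (d ∈ B ∧ ¬ Nx (A ++ v :: (B ++ [z])) v d))
    (hv : d = v → (SdL p (A ++ v :: (B ++ [z])) v c ↔ SdL p (A ++ v :: z :: B.reverse) v c) ∧
      (SdR p (A ++ v :: (B ++ [z])) v c ↔ SdR p (A ++ v :: z :: B.reverse) v c)) :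
    Lbl p (A ++ v :: (B ++ [z])) c d x ↔ Lbl p (A ++ v :: z :: B.reverse) c d x :=
  lab_rot hn hc hd (fun h1 h2 => diag_ss hgp hn hpl hzv h1 h2 hcd hne hw hx) hv

end FPW
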