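import Pool.Agent.Lib.MP_deef39_co_Eng.Cyc

/-! # Eng module Nosep: an empty triangle at a vertex separates no edges

`K x y` is a triangle without points of `V` inside whose side `x y` is free. No edge at `K` runs
strictly between `x` and `y`, so with respect to the other edges at `K` the directions of `x` and
`y` are in the same place of the cyclic order: a relocated ray never passes a wall or a clean
segment.
-/

set_option autoImplicit false

namespace FPW

variable {α : Type*} {p : α → ℝ × ℝ}

/-- a ray of the angle `x K y` of a triangle which does not end inside crosses the side `x y` -/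
theorem bt_ray (hgp : GP p) {K x y d : α} (ho : 0 < o p K x y) (h : Bt p K x d y)
    (hd : ¬ InTri p K x y d) : X p x y K d := by
  obtain ⟨n1, n2, n3, n4, n5, n6⟩ := bt_ne h
  obtain ⟨h1, h2⟩ := (bt_conv ho).1 h
  have h3 := hgp.ne x y d n6 n5.symm n4
  have h3 : o p x y d < 0 := by
    rcases lt_or_gt_of_ne h3 with h3 | h3
    · exact h3
    · refine absurd (Or.inl ⟨h1, h3, ?_⟩) hd
      have e : o p y K d = o p K d y := by unfold o; ring
      rw [e]; exact h2
  refine ⟨?_, ?_⟩
  · have e : o p x y K = o p K x y := by unfold o; ring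
    rw [e]
    exact mul_neg_of_pos_of_neg ho h3
  · have e : o p K d x = - o p K x d := by unfold o; ring
    rw [e]
    exact mul_neg_of_neg_of_pos (by linarith) h2

/-- `K x y` positively oriented: no edge at `K` strictly between `x` and `y` -/
theorem nosep (hgp : GP p) {E : α → α → Prop} {V : Set α}
    (hV : ∀ a b, E a b → a ∈ V ∧ b ∈ V ∧ a ≠ b) {K x y : α} (ho : 0 < o p K x y)
    (hemp : ∀ z ∈ V, ¬ InTri p K x y z) (hxy : Vis p E x y) :
    ∀ d, (E K d ∨ E d K) → ¬ Bt p K x d y := by
  intro d hd hB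
  have hdV : d ∈ V := by
    rcases hd with hd | hd
    · exact (hV _ _ hd).2.1
    · exact (hV _ _ hd).1
  have hX := bt_ray hgp ho hB (hemp d hdV)
  rcases hd with hd | hd
  · exact hxy K d hd hX
  · exact hxy d K hd (X_sw2.1 hX)

/-- `K x y` negatively oriented: no edge at `K` strictly between `y` and `x` -/
theorem nosep' (hgp : GP p) {E : α → α → Prop} {V : Set α}
    (hV : ∀ a b, E a b → a ∈ V ∧ b ∈ V ∧ a ≠ b) {K x y : α} (ho : o p K x y < 0)
    (hemp : ∀ z ∈ V, ¬ InTri p K x y z) (hxy : Vis p E x y) :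
    ∀ d, (E K d ∨ E d K) → ¬ Bt p K y d x := by
  refine nosep hgp hV ?_ ?_ ?_
  · have e : o p K y x = - o p K x y := by unfold o; ring
    rw [e]; linarith
  · intro z hz hi
    refine hemp z hz ?_
    unfold InTri at hi ⊢
    have e1 : o p K y z = - o p y K z := by unfold o; ring
    have e2 : o p y x z = - o p x y z := by unfold o; ring
    have e3 : o p x K z = - o p K x z := by unfold o; ring
    rw [e1, e2, e3] at hi
    rcases hi with ⟨h1, h2, h3⟩ | ⟨h1, h2, h3⟩
    · exact Or.inr ⟨by linarith, by linarith, by linarith⟩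
    · exact Or.inl ⟨by linarith, by linarith, by linarith⟩
  · intro a b hab hX
    exact hxy a b hab (X_sw1.1 hX)

/-- nothing among `a, b` in the angle `x K y`: `x` and `y` are in the same place -/
theorem bt_swap_of (hgp : GP p) {K x y a b : α} (hx : K ≠ x) (hy : K ≠ y) (hxy : x ≠ y)
    (hKa : K ≠ a) (hax : a ≠ x) (hay : a ≠ y) (hKb : K ≠ b) (hbx : b ≠ x) (hby : b ≠ y)
    (ha : ¬ Bt p K x a y) (hb : ¬ Bt p K x b y) : Bt p K a x b ↔ Bt p K a y b := by
  have h1 : Bt p K x y a := bt_rot' ((bt_total hgp hx hKa hy hax.symm hay hxy).resolve_left ha)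
  have h2 : Bt p K x y b := bt_rot' ((bt_total hgp hx hKb hy hbx.symm hby hxy).resolve_left hb)
  constructor
  · intro h
    exact bt_trans'' h h2
  · intro h
    exact bt_trans (bt_rot' h1) h

/-- a relocated ray never passes an edge: at `K` the directions of `x` and `y` are in the same
place of the cyclic order of the other edges -/
theorem nosep_iff (hgp : GP p) {E : α → α → Prop} {V : Set α}
    (hV : ∀ a b, E a b → a ∈ V ∧ b ∈ V ∧ a ≠ b) {K x y : α} (hx : K ≠ x) (hy : K ≠ y)
    (hxy : x ≠ y) (hemp : ∀ z ∈ V, ¬ InTri p K x y z) (hv : Vis p E x y) {a b : α}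
    (ha : E K a ∨ E a K) (hb : E K b ∨ E b K) (hax : a ≠ x) (hay : a ≠ y) (hbx : b ≠ x)
    (hby : b ≠ y) : Bt p K a x b ↔ Bt p K a y b := by
  have hKa : K ≠ a := by
    rcases ha with h | h
    · exact (hV _ _ h).2.2
    · exact (hV _ _ h).2.2.symm
  have hKb : K ≠ b := by
    rcases hb with h | h
    · exact (hV _ _ h).2.2
    · exact (hV _ _ h).2.2.symm
  rcases lt_or_gt_of_ne (hgp.ne K x y hx hxy hy) with ho | ho
  · have h := nosep' hgp hV ho hemp hv
    exact (bt_swap_of hgp hy hx hxy.symm hKa hay hax hKb hby hbx (h a ha) (h b hb)).symm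
  · have h := nosep hgp hV ho hemp hv
    exact bt_swap_of hgp hx hy hxy hKa hax hay hKb hbx hby (h a ha) (h b hb)

/-- the same with `x` or `y` replaced at the border of a range: nothing lies between -/
theorem nosep_start (hgp : GP p) {E : α → α → Prop} {V : Set α}
    (hV : ∀ a b, E a b → a ∈ V ∧ b ∈ V ∧ a ≠ b) {K x y : α} (hx : K ≠ x) (hy : K ≠ y)
    (hxy : x ≠ y) (hemp : ∀ z ∈ V, ¬ InTri p K x y z) (hv : Vis p E x y) {a b : α}
    (ha : E K a ∨ E a K) (hb : E K b ∨ E b K) (hab : a ≠ b) (hax : a ≠ x) (hay : a ≠ y)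
    (hbx : b ≠ x) (hby : b ≠ y) : Bt p K x a b ↔ Bt p K y a b := by
  have hKa : K ≠ a := by
    rcases ha with h | h
    · exact (hV _ _ h).2.2
    · exact (hV _ _ h).2.2.symm
  have hKb : K ≠ b := by
    rcases hb with h | h
    · exact (hV _ _ h).2.2
    · exact (hV _ _ h).2.2.symm
  have key : Bt p K b x a ↔ Bt p K b y a := nosep_iff hgp hV hx hy hxy hemp hv hb ha hbx hby hax
    hay
  have step : ∀ z, K ≠ z → a ≠ z → b ≠ z → (Bt p K z a b ↔ ¬ Bt p K a z b) := by
    intro z hz haz hbz
    constructor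
    · intro h h'
      exact bt_asymm h (bt_rot' h')
    · intro h
      have := (bt_total hgp hKa hz hKb haz hbz.symm hab).resolve_left h
      exact bt_rot this
  rw [step x hx hax hbx, step y hy hay hby, not_iff_not]
  exact nosep_iff hgp hV hx hy hxy hemp hv ha hb hax hay hbx hby

end FPW
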