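import Pool.Agent.Lib.MP_deef39_co_Eng.Push
import Pool.Agent.Lib.MP_deef39_co_Eng.Span

/-! # Eng module SpanV: contact with free (uncrossed) segments

Supplement to `Eng.Span`: the sector of a spanning triple, uniqueness of the first point of the
ear, and the contact lemma for segments which are only free (`Vis`), with the door `c e` and the
side `c l` in the plane relation `G`.
-/

set_option autoImplicit false

namespace FPW

variable {α : Type*} {p : α → ℝ × ℝ}

/-- every other direction lies strictly in one of the three sectors of a spanning triple -/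
theorem Sp_sector (hgp : GP p) {c a b d x : α} (h : Sp p c a b d) (hxc : x ≠ c) (hxa : x ≠ a)
    (hxb : x ≠ b) (hxd : x ≠ d) :
    (0 < o p c a x ∧ 0 < o p c x b) ∨ (0 < o p c b x ∧ 0 < o p c x d) ∨
      (0 < o p c d x ∧ 0 < o p c x a) := by
  obtain ⟨n1, n2, n3, n4, n5, n6⟩ := Sp_ne h
  have g1 := hgp.ne c x a hxc.symm hxa n1
  have g2 := hgp.ne c x b hxc.symm hxb n2
  have g3 := hgp.ne c x d hxc.symm hxd n3
  have e1 : o p c a x = - o p c x a := by unfold o; ring
  have e2 : o p c b x = - o p c x b := by unfold o; ring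
  have e3 : o p c d x = - o p c x d := by unfold o; ring
  have f1 : o p x c a = - o p c x a := by unfold o; ring
  have f2 : o p x c b = - o p c x b := by unfold o; ring
  have f3 : o p x c d = - o p c x d := by unfold o; ring
  rw [e1, e2, e3]
  rcases lt_or_gt_of_ne g1 with g1 | g1 <;> rcases lt_or_gt_of_ne g2 with g2 | g2 <;>
    rcases lt_or_gt_of_ne g3 with g3 | g3
  · exfalso
    rcases Sp_right hgp h hxc with k | k | k
    · rw [f1] at k
      linarith
    · rw [f2] at k
      linarith
    · rw [f3] at k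
      linarith
  · exact Or.inr (Or.inl ⟨by linarith, g3⟩)
  · exact Or.inl ⟨by linarith, g2⟩
  · exact Or.inl ⟨by linarith, g2⟩
  · exact Or.inr (Or.inr ⟨by linarith, g1⟩)
  · exact Or.inr (Or.inl ⟨by linarith, g3⟩)
  · exact Or.inr (Or.inr ⟨by linarith, g1⟩)
  · exfalso
    rcases Sp_left hgp h hxc with k | k | k
    · rw [f1] at k
      linarith
    · rw [f2] at k
      linarith
    · rw [f3] at k
      linarith

/-- the first point of the ear is unique -/
theorem Pf_unique {V : Set α} {e c l f g : α} (ho : 0 < o p e c l)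
    (hf : Pf p V e c l f) (hg : Pf p V e c l g) : f = g := by
  by_contra hne
  have a1 := hf.tri
  have a2 := hg.tri
  have s : o p e f g = - o p e g f := by unfold o; ring
  rcases a1 with rfl | a1
  · rcases a2 with rfl | a2
    · exact hne rfl
    · -- `f = l`, `g` inside: the triangle `c e l` is empty
      have h1 := hf.emp g hg.mem
      apply h1
      rcases InTri_pos a2 ho with ⟨k1, k2, k3⟩
      refine Or.inr ⟨?_, ?_, ?_⟩
      · have e1 : o p c e g = - o p e c g := by unfold o; ring
        linarith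
      · have e1 : o p e f g = - o p f e g := by unfold o; ring
        linarith
      · have e1 : o p f c g = - o p c f g := by unfold o; ring
        linarith
  · rcases a2 with rfl | a2
    · have h1 := hg.emp f hf.mem
      apply h1
      rcases InTri_pos a1 ho with ⟨k1, k2, k3⟩
      refine Or.inr ⟨?_, ?_, ?_⟩
      · have e1 : o p c e f = - o p e c f := by unfold o; ring
        linarith
      · have e1 : o p e g f = - o p g e f := by unfold o; ring
        linarith
      · have e1 : o p g c f = - o p c g f := by unfold o; ring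
        linarith
    · have k1 := hf.out g hg.mem a2 (Ne.symm hne)
      have k2 := hg.out f hf.mem a1 hne
      linarith

/-- contact, three free segments: the door `c e` and the side `c l` are edges of `G` -/
theorem contact_vis [Finite α] (hgp : GP p) {G : α → α → Prop} {V : Set α}
    (hV : ∀ a b, G a b → a ∈ V ∧ b ∈ V ∧ a ≠ b) (hpl : Plane p G) {e c l f a b d : α}
    (hl : l ∈ V) (ho : 0 < o p e c l) (h1 : G c e ∨ G e c) (h2 : G c l ∨ G l c)
    (h3 : ∀ d, (G c d ∨ G d c) → ¬ (0 < o p e c d ∧ 0 < o p c l d))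
    (hf : Pf p V e c l f) (hfl : f ≠ l) (hs : Sp p f a b d)
    (ha : Vis p G f a) (hb : Vis p G f b) (hd : Vis p G f d)
    (haV : a ∈ V) (hbV : b ∈ V) (hdV : d ∈ V) : c = a ∨ c = b ∨ c = d := by
  by_contra hc
  push Not at hc
  obtain ⟨c1, c2, c3⟩ := hc
  obtain ⟨n1, n2, n3, n4, n5, n6⟩ := Sp_ne hs
  have vis_e : ∀ {x y : α}, (G x y ∨ G y x) → ∀ u v, G u v → ¬ X p x y u v := by
    rintro x y (h | h) u v huv hX
    · exact hpl x y u v h huv hX
    · exact hpl y x u v h huv (X_sw1.1 hX)
  have hone := hf.one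
  obtain ⟨m1, m2, m3⟩ := o_pos_ne hone
  -- the enlarged relation
  let E : α → α → Prop := fun u v => G u v ∨ (u = f ∧ (v = a ∨ v = b ∨ v = d))
  have hE : ∀ u v, E u v → u ∈ V ∧ v ∈ V ∧ u ≠ v := by
    rintro u v (h | ⟨rfl, rfl | rfl | rfl⟩)
    · exact hV u v h
    · exact ⟨hf.mem, haV, n1⟩
    · exact ⟨hf.mem, hbV, n2⟩
    · exact ⟨hf.mem, hdV, n3⟩
  have hfree : ∀ {x y : α}, (G x y ∨ G y x) → Vis p E x y := by
    rintro x y hxy u v (h | ⟨rfl, h⟩) hX
    · exact vis_e hxy u v h hX
    · have hv : Vis p G u v := by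
        rcases h with rfl | rfl | rfl
        · exact ha
        · exact hb
        · exact hd
      rcases hxy with hxy | hxy
      · exact hv x y hxy (X_comm.1 hX)
      · exact hv y x hxy (X_sw2.1 (X_comm.1 hX))
  have h3' : ∀ x, (E c x ∨ E x c) → ¬ (0 < o p e c x ∧ 0 < o p c l x) := by
    rintro x (h | h)
    · rcases h with h | ⟨h, -⟩
      · exact h3 x (Or.inl h)
      · exact absurd h m2
    · rcases h with h | ⟨rfl, h⟩
      · exact h3 x (Or.inr h)
      · rcases h with h | h | h
        · exact absurd h c1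
        · exact absurd h c2
        · exact absurd h c3
  obtain ⟨g, hg, -, -, hgl, -⟩ := push_first hgp hE hl ho (hfree h1) (hfree h2) h3'
  have hfg := Pf_unique ho hf hg
  subst hfg
  have hcc := contact hgp m3 (G := E) (c := c) (fun x hx hxc hxe => hgl x hx hxc hxe hfl) hs
    (Or.inl (Or.inr ⟨rfl, Or.inl rfl⟩)) (Or.inl (Or.inr ⟨rfl, Or.inr (Or.inl rfl)⟩))
    (Or.inl (Or.inr ⟨rfl, Or.inr (Or.inr rfl)⟩))
  rcases hcc with h | h | h
  · exact c1 h
  · exact c2 h
  · exact c3 h

/-- mirrored form of `contact_vis`: `l` lies counterclockwise from `e` at `c` -/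
theorem contact_vis_mir [Finite α] (hgp : GP p) {G : α → α → Prop} {V : Set α}
    (hV : ∀ a b, G a b → a ∈ V ∧ b ∈ V ∧ a ≠ b) (hpl : Plane p G) {e c l f a b d : α}
    (hl : l ∈ V) (ho : 0 < o p c e l) (h1 : G c e ∨ G e c) (h2 : G c l ∨ G l c)
    (h3 : ∀ d, (G c d ∨ G d c) → ¬ (0 < o p c e d ∧ 0 < o p c d l))
    (hf : Pf (mir p) V e c l f) (hfl : f ≠ l) (hs : Sp p f a b d)
    (ha : Vis p G f a) (hb : Vis p G f b) (hd : Vis p G f d)
    (haV : a ∈ V) (hbV : b ∈ V) (hdV : d ∈ V) : c = a ∨ c = b ∨ c = d := by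
  have h := contact_vis (p := mir p) (GP_mir hgp) hV (Plane_mir.2 hpl) (e := e) (c := c)
    (l := l) (f := f) (a := a) (b := d) (d := b) hl
    (by
      rw [o_mir]
      have e1 : o p e c l = - o p c e l := by unfold o; ring
      linarith)
    h1 h2
    (by
      rintro x hx ⟨t1, t2⟩
      rw [o_mir] at t1 t2
      have e1 : o p e c x = - o p c e x := by unfold o; ring
      have e2 : o p c l x = - o p c x l := by unfold o; ring
      exact h3 x hx ⟨by linarith, by linarith⟩)
    hf hfl (Sp_mir' hs) (Vis_mir.2 ha) (Vis_mir.2 hd) (Vis_mir.2 hb) haV hdV hbV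
  tauto

end FPW
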