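import Pool.Agent.Lib.MP_deef39_co_Eng.ChainG
import Pool.Agent.Lib.MP_deef39_co_Eng.SpanV
import Pool.Agent.Lib.MP_deef39_co_Eng.Nosep

/-! # Eng module E2: contact with a lower pivot is a U

Lower level: apex `C`, next pivot `K`, first ray `R`, hull chain `Rl` from `K` to `R`, `s` the
forward neighbour of `K`, `y` a ray of `K` such that `C, y, s` positively span at `K`.
Top level: apex `D`, end `e`, target `r`; the first point of the ear is `K`.
Then `Rl` is empty, `D = R` and `r = C`: the top apex is the target of the lower level and its ray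
is the path edge `R C`.
-/

set_option autoImplicit false

namespace FPW

variable {α : Type*} {p : α → ℝ × ℝ}

/-- `f` is the first point of the ear `e c l` at the apex `c` (of either orientation) and no edge
at `c` lies strictly inside the ear -/
def Ear (p : α → ℝ × ℝ) (G : α → α → Prop) (V : Set α) (e c l f : α) : Prop :=
  (0 < o p e c l ∧ (∀ d, (G c d ∨ G d c) → ¬ (0 < o p e c d ∧ 0 < o p c l d)) ∧
      Pf p V e c l f) ∨
    (0 < o p c e l ∧ (∀ d, (G c d ∨ G d c) → ¬ (0 < o p c e d ∧ 0 < o p c d l)) ∧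
      Pf (mir p) V e c l f)

theorem Ear_mir {G : α → α → Prop} {V : Set α} {e c l f : α} (h : Ear p G V e c l f) :
    Ear (mir p) G V e c l f := by
  rcases h with ⟨h1, h2, h3⟩ | ⟨h1, h2, h3⟩
  · refine Or.inr ⟨?_, ?_, h3⟩
    · rw [o_mir]
      have e1 : o p e c l = - o p c e l := by unfold o; ring
      linarith
    · rintro d hd ⟨t1, t2⟩
      rw [o_mir] at t1 t2
      have e1 : o p e c d = - o p c e d := by unfold o; ring
      have e2 : o p c l d = - o p c d l := by unfold o; ring
      exact h2 d hd ⟨by linarith, by linarith⟩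
  · refine Or.inl ⟨?_, ?_, h3⟩
    · rw [o_mir]
      have e1 : o p e c l = - o p c e l := by unfold o; ring
      linarith
    · rintro d hd ⟨t1, t2⟩
      rw [o_mir] at t1 t2
      have e1 : o p e c d = - o p c e d := by unfold o; ring
      have e2 : o p c l d = - o p c d l := by unfold o; ring
      exact h2 d hd ⟨by linarith, by linarith⟩

/-- the first point, if it is not the target, is strictly inside the ear; no edge is -/
theorem ear_bt {G : α → α → Prop} {V : Set α} {e c l f : α} (h : Ear p G V e c l f)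
    (hf : f ≠ l) : ∃ a b, ((a = e ∧ b = l) ∨ (a = l ∧ b = e)) ∧ 0 < o p c a b ∧
      Bt p c a f b ∧ ∀ d, (G c d ∨ G d c) → ¬ Bt p c a d b := by
  rcases h with ⟨h1, h2, h3⟩ | ⟨h1, h2, h3⟩
  · have h0 : 0 < o p c l e := by
      have e1 : o p c l e = o p e c l := by unfold o; ring
      rw [e1]; exact h1
    refine ⟨l, e, Or.inr ⟨rfl, rfl⟩, h0, ?_, ?_⟩
    · obtain ⟨k1, k2, k3⟩ := InTri_pos (h3.tri.resolve_left hf) h1
      refine (bt_conv h0).2 ⟨k2, ?_⟩
      have e1 : o p c f e = o p e c f := by unfold o; ring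
      rw [e1]; exact k1
    · intro d hd hB
      obtain ⟨k1, k2⟩ := (bt_conv h0).1 hB
      have e1 : o p c d e = o p e c d := by unfold o; ring
      exact h2 d hd ⟨by linarith, k1⟩
  · refine ⟨e, l, Or.inl ⟨rfl, rfl⟩, h1, ?_, ?_⟩
    · have h1' : 0 < o (mir p) e c l := by
        rw [o_mir]
        have e1 : o p e c l = - o p c e l := by unfold o; ring
        linarith
      obtain ⟨k1, k2, k3⟩ := InTri_pos (h3.tri.resolve_left hf) h1'
      rw [o_mir] at k1 k2
      have e1 : o p e c f = - o p c e f := by unfold o; ring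
      have e2 : o p c l f = - o p c f l := by unfold o; ring
      exact (bt_conv h1).2 ⟨by linarith, by linarith⟩
    · intro d hd hB
      exact h2 d hd ((bt_conv h1).1 hB)

/-- **far cone**: at the forward neighbour `D` of `K` which is not the last chain vertex, `K` is on
the border of the cone of all edges, so it is not strictly inside an ear; if it is the last chain
vertex, the edge `C D` is a border of the ear -/
theorem e2_core (hgp : GP p) {G : α → α → Prop} {V : Set α}
    (hV : ∀ a b, G a b → a ∈ V ∧ b ∈ V ∧ a ≠ b) {C K R D a b : α} {Rl T : List α}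
    (hCR : G C R ∨ G R C) (hL : 0 < o p C K R)
    (hLn : ∀ d, (G C d ∨ G d C) → ¬ (0 < o p C K d ∧ 0 < o p C d R))
    (hch : ChG (mir p) G V K C R Rl) (hD : Rl ++ [R] = D :: T)
    (ha : G D a ∨ G a D) (hb : G D b ∨ G b D) (hab : 0 < o p D a b) (hK : Bt p D a K b)
    (hn : ∀ d, (G D d ∨ G d D) → ¬ Bt p D a d b) :
    Rl = [] ∧ D = R ∧ (a = C ∨ b = C) := by
  obtain ⟨m1, m2, m3, m4, m5, m6⟩ := bt_ne hK
  have inV : ∀ {a d : α}, (G a d ∨ G d a) → d ∈ V ∧ d ≠ a := by
    rintro a d (h | h)
    · exact ⟨(hV _ _ h).2.1, (hV _ _ h).2.2.symm⟩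
    · exact ⟨(hV _ _ h).1, (hV _ _ h).2.2⟩
  cases Rl with
  | nil =>
    have hDR : D = R := (List.cons.inj hD).1.symm
    subst hDR
    refine ⟨rfl, rfl, ?_⟩
    by_contra hc
    push Not at hc
    obtain ⟨c1, c2⟩ := hc
    have hDC : D ≠ C := (o_pos_ne hL).2.2.symm
    have hCK : C ≠ K := (o_pos_ne hL).1
    have hDCK : 0 < o p D C K := by
      have e1 : o p D C K = o p C K D := by unfold o; ring
      rw [e1]; exact hL
    have near : ∀ d, (G D d ∨ G d D) → ¬ Bt p D C d K := by
      intro d hd hB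
      obtain ⟨k1, k2⟩ := (bt_conv hDCK).1 hB
      refine hch.near2 K D ⟨[], [], rfl⟩ d hd ⟨?_, ?_⟩
      · rw [o_mir]
        have e1 : o p D K d = - o p D d K := by unfold o; ring
        linarith
      · rw [o_mir]
        have e1 : o p D d C = - o p D C d := by unfold o; ring
        linarith
    have := (bt_swap_of hgp (K := D) (x := C) (y := K) (a := a) (b := b) hDC m2 hCK m1 c1 m4 m3
      c2 (Ne.symm m5) (near a ha) (near b hb)).2 hK
    exact hn C (by tauto) this
  | cons f Rl =>
    exfalso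
    rw [List.cons_append] at hD
    obtain ⟨hfD, hT⟩ := List.cons.inj hD
    subst hfD
    obtain ⟨w, T', hw⟩ : ∃ w T', Rl ++ [R] = w :: T' := by
      cases Rl with
      | nil => exact ⟨R, [], rfl⟩
      | cons g Rl => exact ⟨g, Rl ++ [R], rfl⟩
    have nx1 : Nx (K :: ((f :: Rl) ++ [R])) K f := ⟨[], Rl ++ [R], rfl⟩
    have nx2 : Nx (K :: ((f :: Rl) ++ [R])) f w := ⟨[K], T', by
      rw [List.cons_append, hw]
      rfl⟩
    have hin := hch.chn.mem f List.mem_cons_self
    have hl := hch.chn.left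
    have k0 := InTri_pos hin.2 hl
    obtain ⟨k1, k2, k3⟩ := k0
    rw [o_mir] at k1 k2
    have haC : a ≠ C := by
      rintro rfl
      refine hLn f ha.symm ⟨?_, ?_⟩
      · have e1 : o p K a f = - o p a K f := by unfold o; ring
        linarith
      · have e1 : o p a R f = - o p a f R := by unfold o; ring
        linarith
    have hsign : o p f a K < 0 := by
      by_cases haw : a = w
      · subst haw
        have h1 := hch.chn.conv K f a (nx3_sub hch.chn.nodup nx1 nx2)
        rw [o_mir] at h1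
        have e1 : o p f a K = o p K f a := by unfold o; ring
        linarith
      · have h1 := (hch.cone K f w nx1 nx2 a ha haC m4 haw).1
        rw [o_mir] at h1
        have e1 : o p f a K = o p K f a := by unfold o; ring
        linarith
    have := ((bt_conv hab).1 hK).1
    linarith

/-- **E2 is a U** (lower level counterclockwise) -/
theorem e2_u [Finite α] (hgp : GP p) {G : α → α → Prop} {V : Set α}
    (hV : ∀ a b, G a b → a ∈ V ∧ b ∈ V ∧ a ≠ b) (hpl : Plane p G) {C K R D e r y s : α}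
    {Rl T : List α} (hCK : G C K ∨ G K C) (hCR : G C R ∨ G R C) (hL : 0 < o p C K R)
    (hLn : ∀ d, (G C d ∨ G d C) → ¬ (0 < o p C K d ∧ 0 < o p C d R))
    (hch : ChG (mir p) G V K C R Rl) (hs : Rl ++ [R] = s :: T) (hy : G K y ∨ G y K)
    (hsp : Sp p K C y s) (hDe : G D e ∨ G e D) (hDr : G D r ∨ G r D) (hDC : D ≠ C)
    (heC : e ≠ C) (hKr : K ≠ r) (hear : Ear p G V e D r K) : Rl = [] ∧ D = R ∧ r = C := by
  have inV : ∀ {a d : α}, (G a d ∨ G d a) → d ∈ V := by
    rintro a d (h | h)
    · exact (hV _ _ h).2.1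
    · exact (hV _ _ h).1
  have gvis : ∀ {x y : α}, (G x y ∨ G y x) → Vis p G x y := by
    rintro x y (h | h) u v huv hX
    · exact hpl _ _ _ _ h huv hX
    · exact hpl _ _ _ _ h huv (X_sw1.1 hX)
  have hnx : Nx (K :: (Rl ++ [R])) K s := ⟨[], T, by rw [hs]; rfl⟩
  have hKs : Vis p G K s := Vis_mir.1 (hch.side K s hnx)
  have hsV : s ∈ V := by
    cases Rl with
    | nil => rw [← (List.cons.inj hs).1]; exact inV hCR
    | cons f Rl =>
      rw [List.cons_append] at hs
      rw [← (List.cons.inj hs).1]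
      exact (hch.chn.mem f List.mem_cons_self).1
  have hcon : D = C ∨ D = y ∨ D = s := by
    rcases hear with ⟨h1, h2, h3⟩ | ⟨h1, h2, h3⟩
    · exact contact_vis hgp hV hpl (inV hDr) h1 hDe hDr h2 h3 hKr hsp
        (Vis_comm.1 (gvis hCK)) (gvis hy) hKs (inV hCK.symm) (inV hy) hsV
    · exact contact_vis_mir hgp hV hpl (inV hDr) h1 hDe hDr h2 h3 hKr hsp
        (Vis_comm.1 (gvis hCK)) (gvis hy) hKs (inV hCK.symm) (inV hy) hsV
  obtain ⟨a, b, hab, hab0, hKab, hno⟩ := ear_bt hear hKr
  have hDs : D = s := by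
    rcases hcon with h | h | h
    · exact absurd h hDC
    · exfalso
      subst h
      exact hno K (by tauto) hKab
    · exact h
  subst hDs
  have haG : G D a ∨ G a D := by
    rcases hab with ⟨rfl, rfl⟩ | ⟨rfl, rfl⟩
    · exact hDe
    · exact hDr
  have hbG : G D b ∨ G b D := by
    rcases hab with ⟨rfl, rfl⟩ | ⟨rfl, rfl⟩
    · exact hDr
    · exact hDe
  obtain ⟨h1, h2, h3⟩ := e2_core hgp hV hCR hL hLn hch hs haG hbG hab0 hKab hno
  refine ⟨h1, h2, ?_⟩
  rcases hab with ⟨rfl, rfl⟩ | ⟨rfl, rfl⟩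
  · exact h3.resolve_left heC
  · exact h3.resolve_right heC

/-- **E2 is a U** (lower level clockwise) -/
theorem e2_u_mir [Finite α] (hgp : GP p) {G : α → α → Prop} {V : Set α}
    (hV : ∀ a b, G a b → a ∈ V ∧ b ∈ V ∧ a ≠ b) (hpl : Plane p G) {C K R D e r y s : α}
    {Rl T : List α} (hCK : G C K ∨ G K C) (hCR : G C R ∨ G R C) (hL : 0 < o p K C R)
    (hLn : ∀ d, (G C d ∨ G d C) → ¬ (0 < o p K C d ∧ 0 < o p C R d))
    (hch : ChG p G V K C R Rl) (hs : Rl ++ [R] = s :: T) (hy : G K y ∨ G y K)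
    (hsp : Sp p K C s y) (hDe : G D e ∨ G e D) (hDr : G D r ∨ G r D) (hDC : D ≠ C)
    (heC : e ≠ C) (hKr : K ≠ r) (hear : Ear p G V e D r K) : Rl = [] ∧ D = R ∧ r = C := by
  refine e2_u (p := mir p) (GP_mir hgp) hV (Plane_mir.2 hpl) hCK hCR ?_ ?_ hch hs hy
    (Sp_mir' hsp) hDe hDr hDC heC hKr (Ear_mir hear)
  · rw [o_mir]
    have e1 : o p C K R = - o p K C R := by unfold o; ring
    linarith
  · rintro d hd ⟨t1, t2⟩
    rw [o_mir] at t1 t2
    have e1 : o p C K d = - o p K C d := by unfold o; ring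
    have e2 : o p C d R = - o p C R d := by unfold o; ring
    exact hLn d hd ⟨by linarith, by linarith⟩

end FPW
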