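import Pool.Agent.Lib.MP_deef39_co_PW.Lst

/-!
# The abstract engine: words, finite minimum, stacks

* `List A` (`A` a linear order, e.g. `ℕ` or `ℕ ×ₗ ℕ`) carries the lexicographic order in which a
  proper prefix is smaller (`<`).
* `min_word`: if every configuration of a finite nonempty set has success or a configuration with a
  smaller word, then there is success.
* `wd M [c₋₁, c₀, …, c_t, e] = [M c₋₁ c₀ c₁, …, M c_{t-1} c_t e]`: the word of a stack. The letter of
  `c_i` is `M c_{i-1} c_i c_{i+1}` (wall-, apex, wall+).
* `flp c L`: the suffix of `L` beginning with `c` is reversed (formal release of `c`: the path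
  `X l c B e` becomes `X l e B⁻¹ c`); `flp` commutes with the deletion of any other vertex.
-/

set_option autoImplicit false

namespace FPW

/-! ### words -/

section
variable {A : Type*} [LinearOrder A]

theorem word_lt_nil {a : A} {u : List A} : ([] : List A) < a :: u := List.nil_lt_cons _ _

theorem word_lt_cons {a : A} {u v : List A} (h : u < v) : a :: u < a :: v :=
  List.cons_lt_cons_self.2 h

theorem word_lt_head {a b : A} {u v : List A} (h : a < b) : a :: u < b :: v :=
  List.cons_lt_cons_iff.2 (Or.inl h)

/-- common prefix -/
theorem word_lt_app {u v : List A} (h : u < v) : ∀ w : List A, w ++ u < w ++ v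
  | [] => h
  | a :: w => by
    rw [List.cons_append, List.cons_append]
    exact word_lt_cons (word_lt_app h w)

/-- a proper prefix is smaller -/
theorem word_lt_prefix (w : List A) {u : List A} (h : u ≠ []) : w < w ++ u := by
  obtain ⟨a, u', rfl⟩ := List.exists_cons_of_ne_nil h
  have := word_lt_app (word_lt_nil (a := a) (u := u')) w
  rwa [List.append_nil] at this

/-- a letter drops; everything behind it is arbitrary -/
theorem word_lt_drop (w : List A) {a b : A} (h : a < b) (u v : List A) :
    w ++ a :: u < w ++ b :: v := word_lt_app (word_lt_head h) w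

/-! ### the finite minimum -/

/-- **finite minimum**: no termination proof is needed -/
theorem min_word {C : Type*} {S : Set C} (hS : S.Finite) (hne : S.Nonempty) (w : C → List A)
    {G : Prop} (step : ∀ c ∈ S, G ∨ ∃ c' ∈ S, w c' < w c) : G := by
  obtain ⟨c, hc, hmin⟩ := Set.exists_min_image S w hS hne
  rcases step c hc with h | ⟨c', hc', h⟩
  · exact h
  · exact absurd (hmin c' hc') (not_le.2 h)

/-- finite minimum, general linear order -/
theorem min_any {C B : Type*} [LinearOrder B] {S : Set C} (hS : S.Finite) (hne : S.Nonempty)
    (w : C → B) {G : Prop} (step : ∀ c ∈ S, G ∨ ∃ c' ∈ S, w c' < w c) : G := by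
  obtain ⟨c, hc, hmin⟩ := Set.exists_min_image S w hS hne
  rcases step c hc with h | ⟨c', hc', h⟩
  · exact h
  · exact absurd (hmin c' hc') (not_le.2 h)

/-- the same with a second coordinate: pairs `(word, m)`, lexicographic -/
theorem min_word2 {C B : Type*} [LinearOrder B] {S : Set C} (hS : S.Finite) (hne : S.Nonempty)
    (w : C → List A) (m : C → B) {G : Prop}
    (step : ∀ c ∈ S, G ∨ ∃ c' ∈ S, w c' < w c ∨ (w c' = w c ∧ m c' < m c)) : G := by
  refine min_any hS hne (fun c => toLex (w c, m c)) ?_
  intro c hc
  rcases step c hc with h | ⟨c', hc', h⟩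
  · exact Or.inl h
  · exact Or.inr ⟨c', hc', by rw [Prod.Lex.toLex_lt_toLex]; exact h⟩

end

/-! ### finiteness of the set of configurations -/

section
variable {α : Type*}

/-- lists without repetition over a finite type form a finite set -/
theorem nodup_finite [Finite α] : {l : List α | l.Nodup}.Finite := by
  have := Fintype.ofFinite α
  refine (List.finite_length_le α (Fintype.card α)).subset ?_
  intro l hl
  exact List.Nodup.length_le_card hl

/-- pairs (path, stack), both without repetition -/
theorem cfg_finite [Finite α] :
    {c : List α × List α | c.1.Nodup ∧ c.2.Nodup}.Finite :=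
  (nodup_finite.prod nodup_finite).subset fun _ h => h

/-- pairs (path, stack), stack of bounded length with entries in a finite type -/
theorem cfg_finite' [Finite α] {β : Type*} [Finite β] (N : ℕ) :
    {c : List α × List β | c.1.Nodup ∧ c.2.length ≤ N}.Finite :=
  (nodup_finite.prod (List.finite_length_le β N)).subset fun _ h => h

end

/-! ### the word of a stack -/

section
variable {A β : Type*} (M : β → β → β → A)

/-- word of the sequence `c₋₁, c₀, …, c_t, e` -/
def wd : List β → List A
  | a :: b :: c :: l => M a b c :: wd (b :: c :: l)
  | [_, _] => []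
  | [_] => []
  | [] => []

theorem wd_cons3 (a b c : β) (l : List β) :
    wd M (a :: b :: c :: l) = M a b c :: wd M (b :: c :: l) := rfl

theorem wd_two (a b : β) : wd M [a, b] = [] := rfl

theorem wd_one (a : β) : wd M [a] = [] := rfl

/-- splitting the word in the middle of the stack -/
theorem wd_split : ∀ (S : List β) (a b : β) (T : List β),
    wd M (S ++ a :: b :: T) = wd M (S ++ [a, b]) ++ wd M (a :: b :: T)
  | [], a, b, T => by simp [wd_two]
  | [s], a, b, T => by
    simp only [List.cons_append, List.nil_append, wd_cons3, wd_two]
  | s :: s' :: [], a, b, T => by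
    simp only [List.cons_append, List.nil_append, wd_cons3, wd_two]
  | s :: s' :: s'' :: S, a, b, T => by
    have := wd_split (s' :: s'' :: S) a b T
    simp only [List.cons_append, wd_cons3] at this ⊢
    rw [this]

variable [LinearOrder A]

/-- **cut**: the stack is cut back to `…, a, b` -/
theorem wd_cut (S : List β) (a b c : β) (T : List β) :
    wd M (S ++ [a, b]) < wd M (S ++ a :: b :: c :: T) := by
  rw [wd_split M S a b (c :: T)]
  exact word_lt_prefix _ (by rw [wd_cons3]; exact List.cons_ne_nil _ _)

/-- **turn**: the wall `b c` is replaced by `b c'` with a smaller letter, the rest is arbitrary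
(push, cut, replacement of the door) -/
theorem wd_turn (S : List β) {a b c c' : β} (T T' : List β) (h : M a b c' < M a b c) :
    wd M (S ++ a :: b :: c' :: T') < wd M (S ++ a :: b :: c :: T) := by
  rw [wd_split M S a b (c :: T), wd_split M S a b (c' :: T'), wd_cons3, wd_cons3]
  exact word_lt_app (word_lt_head h) _

/-- **push**: top level `… a b e` becomes `… a b f e'` -/
theorem wd_push (S : List β) {a b e f e' : β} (h : M a b f < M a b e) :
    wd M (S ++ [a, b, f, e']) < wd M (S ++ [a, b, e]) := wd_turn M S [] [e'] h

/-- **pop**: top level `… a b e` becomes `… a b` (the new end is `b`) -/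
theorem wd_pop (S : List β) (a b e : β) : wd M (S ++ [a, b]) < wd M (S ++ [a, b, e]) :=
  wd_cut M S a b e []

end

/-! ### formal release of a vertex: reversal of a suffix -/

section
variable {α : Type*} [DecidableEq α]

/-- the suffix beginning with `c` is reversed -/
def flp (c : α) (L : List α) : List α :=
  L.takeWhile (fun x => decide (x ≠ c)) ++ (L.dropWhile (fun x => decide (x ≠ c))).reverse

theorem takeWhile_mid {c : α} {X T : List α} (h : c ∉ X) :
    (X ++ c :: T).takeWhile (fun x => decide (x ≠ c)) = X := by
  induction X with
  | nil => simp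
  | cons a X ih =>
    simp only [List.mem_cons, not_or] at h
    rw [List.cons_append, List.takeWhile_cons_of_pos (by simpa using Ne.symm h.1), ih h.2]

theorem dropWhile_mid {c : α} {X T : List α} (h : c ∉ X) :
    (X ++ c :: T).dropWhile (fun x => decide (x ≠ c)) = c :: T := by
  induction X with
  | nil => simp
  | cons a X ih =>
    simp only [List.mem_cons, not_or] at h
    rw [List.cons_append, List.dropWhile_cons_of_pos (by simpa using Ne.symm h.1), ih h.2]

theorem flp_mid {c : α} {X T : List α} (h : c ∉ X) :
    flp c (X ++ c :: T) = X ++ T.reverse ++ [c] := by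
  unfold flp
  rw [takeWhile_mid h, dropWhile_mid h, List.reverse_cons, List.append_assoc]

/-- a rotation at `v` is the release of the successor of `v` -/
theorem flp_rot {v b z : α} {X B : List α} (h : b ∉ X ++ [v]) :
    flp b (X ++ v :: (b :: (B ++ [z]))) = X ++ v :: z :: (b :: B).reverse := by
  have e1 : X ++ v :: (b :: (B ++ [z])) = (X ++ [v]) ++ b :: (B ++ [z]) := by simp
  rw [e1, flp_mid h]
  simp

theorem mem_flp {c x : α} {L : List α} (hc : c ∈ L) (hn : L.Nodup) : x ∈ flp c L ↔ x ∈ L := by
  obtain ⟨X, T, rfl⟩ := List.append_of_mem hc
  have h : c ∉ X := by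
    rw [List.nodup_append] at hn
    intro h'
    exact hn.2.2 c h' c (by simp) rfl
  rw [flp_mid h]
  simp only [List.mem_append, List.mem_reverse, List.mem_cons, List.not_mem_nil, or_false]
  tauto

theorem flp_perm {c : α} {L : List α} : (flp c L).Perm L := by
  unfold flp
  exact ((List.reverse_perm _).append_left _).trans
    (by rw [List.takeWhile_append_dropWhile])

theorem flp_nodup {c : α} {L : List α} (hn : L.Nodup) : (flp c L).Nodup :=
  flp_perm.symm.nodup hn

/-- `flp` commutes with the deletion of another vertex -/
theorem flp_filter {c x : α} (hxc : x ≠ c) {L : List α} (hc : c ∈ L) (hn : L.Nodup) :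
    (flp c L).filter (fun y => decide (y ≠ x)) = flp c (L.filter (fun y => decide (y ≠ x))) := by
  obtain ⟨X, T, rfl⟩ := List.append_of_mem hc
  have h : c ∉ X := by
    rw [List.nodup_append] at hn
    intro h'
    exact hn.2.2 c h' c (by simp) rfl
  have hcx : ∀ l : List α, (c :: l).filter (fun y => decide (y ≠ x)) =
      c :: l.filter (fun y => decide (y ≠ x)) := by
    intro l
    exact List.filter_cons_of_pos (by simpa using hxc.symm)
  rw [flp_mid h, List.filter_append, List.filter_append, List.filter_append, hcx, hcx,
    flp_mid (by
      intro h'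
      exact h (List.mem_of_mem_filter h')), List.filter_reverse, List.filter_nil]

/-- the path after the formal release of all vertices of a stack (top first) -/
def flps (S : List α) (L : List α) : List α := S.foldl (fun L c => flp c L) L

theorem flps_nil (L : List α) : flps [] L = L := rfl

theorem flps_cons (c : α) (S : List α) (L : List α) : flps (c :: S) L = flps S (flp c L) := rfl

theorem flps_append (S T : List α) (L : List α) : flps (S ++ T) L = flps T (flps S L) := by
  unfold flps; rw [List.foldl_append]

theorem flps_perm (S : List α) : ∀ L : List α, (flps S L).Perm L := by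
  induction S with
  | nil => intro L; exact List.Perm.refl _
  | cons c S ih => intro L; exact (ih _).trans flp_perm

/-- two paths which agree after deletion of `x` still agree after formal releases of vertices
different from `x` -/
theorem flps_filter {x : α} : ∀ (S : List α) {L L' : List α}, (∀ c ∈ S, c ≠ x ∧ c ∈ L ∧ c ∈ L') →
    L.Nodup → L'.Nodup →
    L.filter (fun y => decide (y ≠ x)) = L'.filter (fun y => decide (y ≠ x)) →
    (flps S L).filter (fun y => decide (y ≠ x)) = (flps S L').filter (fun y => decide (y ≠ x)) := by
  intro S
  induction S with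
  | nil => intro L L' _ _ _ h; exact h
  | cons c S ih =>
    intro L L' hS hn hn' h
    rw [flps_cons, flps_cons]
    have hc := hS c (by simp)
    apply ih _ (flp_nodup hn) (flp_nodup hn')
    · rw [flp_filter hc.1.symm hc.2.1 hn, flp_filter hc.1.symm hc.2.2 hn', h]
    · intro d hd
      have h1 := hS d (List.mem_cons_of_mem _ hd)
      exact ⟨h1.1, (mem_flp hc.2.1 hn).2 h1.2.1, (mem_flp hc.2.2 hn').2 h1.2.2⟩

/-- **push at `v`** (path `X v B z` becomes `X v z B⁻¹`), followed by the formal release of `v`:
only `v` has moved -/
theorem push_release {v z : α} {X B : List α} (hn : (X ++ v :: (B ++ [z])).Nodup) :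
    (flp v (X ++ v :: z :: B.reverse)) = X ++ (B ++ [z]) ++ [v] := by
  have h : v ∉ X := by
    rw [List.nodup_append] at hn
    intro h'
    exact hn.2.2 v h' v (by simp) rfl
  rw [flp_mid h]
  simp

/-- the LIFO statement: after a push at `v` the formal paths of all lower levels change only by a
move of `v` -/
theorem push_flps {v z : α} {X B S : List α} (hn : (X ++ v :: (B ++ [z])).Nodup)
    (hS : ∀ c ∈ S, c ≠ v ∧ c ∈ X ++ v :: (B ++ [z])) :
    (flps (v :: S) (X ++ v :: z :: B.reverse)).filter (fun y => decide (y ≠ v)) =
      (flps S (X ++ v :: (B ++ [z]))).filter (fun y => decide (y ≠ v)) := by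
  rw [flps_cons, push_release hn]
  have hp : (X ++ (B ++ [z]) ++ [v]).Perm (X ++ v :: (B ++ [z])) := by
    rw [List.append_assoc]
    exact (List.perm_append_singleton _ _).append_left _
  apply flps_filter S _ (hp.symm.nodup hn) hn
  · have hv : ∀ l : List α, (v :: l).filter (fun y => decide (y ≠ v)) =
        l.filter (fun y => decide (y ≠ v)) := by
      intro l
      exact List.filter_cons_of_neg (by simp)
    simp only [List.filter_append, hv, List.filter_nil, List.append_nil]
  · intro c hc
    have := hS c hc
    exact ⟨this.1, hp.symm.subset this.2, this.2⟩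

end

end FPW
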