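import Pool.Agent.Lib.MP_deef39_co_Eng.GhWalk

/-! # Eng module GhFin: the frozen statement from the engine -/

set_option autoImplicit false

namespace FPW

/-- the frozen statement S11933 from the engine `EN` -/
theorem s11933_of_en
    (hEN : ∀ (n : ℕ) (p : Option (Fin n) → ℝ × ℝ), GP p → EN p) :
    ∀ (n : ℕ) (p : Fin n → ℝ × ℝ), Function.Injective p →
      (∀ i j k : Fin n, i ≠ j → j ≠ k → i ≠ k →
        ¬ Collinear ℝ ({p i, p j, p k} : Set (ℝ × ℝ))) →
      ∀ P : SimpleGraph (Fin n) → Prop,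
        (∀ A : SimpleGraph (Fin n), P A ↔
          (A.IsTree ∧ (∀ v : Fin n, (A.neighborSet v).ncard ≤ 2) ∧
            ∀ a b c d : Fin n, A.Adj a b → A.Adj c d → s(a, b) ≠ s(c, d) →
              ∀ x : ℝ × ℝ, x ∈ segment ℝ (p a) (p b) → x ∈ segment ℝ (p c) (p d) →
                (x = p a ∨ x = p b) ∧ (x = p c ∨ x = p d))) →
        ∀ G H : SimpleGraph (Fin n), P G → P H →
          Relation.ReflTransGen
            (fun A B : SimpleGraph (Fin n) =>
              P A ∧ P B ∧ (A.edgeSet \ B.edgeSet).ncard = 1 ∧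
                (B.edgeSet \ A.edgeSet).ncard = 1)
            G H := by
  intro n p hi hc
  have hgp : GP p := gp_of hi hc
  have h : ∀ g : ℝ × ℝ, GP (addG p g) → EN (addG p g) := fun g hg => hEN n (addG p g) hg
  exact k_graph n p hi hc (cl0_of_en hgp h) (clk_of_en hgp h)

end FPW
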