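import Pool.Agent.Lib.MP_deef39_co_Eng.GhNear
import Pool.Agent.Lib.MP_deef39_co_PW.HEnd

/-! # Eng module GhMap: paths and rotations in the family with a ghost

The ghost `none` is never on the path. Rotations of `l.map some` are rotations of `l`.
`RK p S O`: plane rotations which keep all hull edges of the set `S`.
-/

set_option autoImplicit false

namespace FPW

variable {α : Type*}

/-- a plane rotation of the moving part with obstacles `O` which keeps every edge `u v` with all
points of `S` on one side -/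
def RK (p : α → ℝ × ℝ) (S : Set α) (O : α → α → Prop) (l l' : List α) : Prop :=
  Rot p O l l' ∧ ∀ u v, Ed l u v → (∀ t ∈ S, 0 ≤ o p u v t) → Ed l' u v

theorem rk_rot {p : α → ℝ × ℝ} {S : Set α} {O : α → α → Prop} {l l' : List α}
    (h : Relation.ReflTransGen (RK p S O) l l') : Reach p O l l' :=
  Relation.ReflTransGen.mono (fun _ _ h => h.1) _ _ h

theorem ed_map {l : List α} {x y : α} : Ed (l.map some) (some x) (some y) ↔ Ed l x y := by
  induction l with
  | nil => exact Iff.rfl
  | cons a l ih =>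
    cases l with
    | nil => exact Iff.rfl
    | cons b l =>
      simp only [List.map_cons, ed_cons2, Option.some.injEq] at ih ⊢
      rw [ih]

theorem ed_map' {l : List α} {x y : Option α} (h : Ed (l.map some) x y) :
    ∃ x' y', x = some x' ∧ y = some y' ∧ Ed l x' y' := by
  have h1 := ed_mem h
  have h2 := ed_mem' h
  obtain ⟨x', -, rfl⟩ := List.mem_map.1 h1
  obtain ⟨y', -, rfl⟩ := List.mem_map.1 h2
  exact ⟨x', y', rfl, rfl, ed_map.1 h⟩

theorem X_addG {p : α → ℝ × ℝ} {g : ℝ × ℝ} {a b c d : α} :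
    X (addG p g) (some a) (some b) (some c) (some d) ↔ X p a b c d := Iff.rfl

theorem vis_map {p : α → ℝ × ℝ} {g : ℝ × ℝ} {l m : List α} {x y : α} :
    Vis (addG p g) (EO (l.map some) (Ed (m.map some))) (some x) (some y) ↔
      Vis p (EO l (Ed m)) x y := by
  constructor
  · intro h c d hcd hX
    refine h (some c) (some d) ?_ hX
    rcases hcd with hcd | hcd
    · exact Or.inl (ed_map.2 hcd)
    · exact Or.inr (ed_map.2 hcd)
  · rintro h c d (hcd | hcd) hX
    · obtain ⟨c', d', rfl, rfl, h1⟩ := ed_map' hcd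
      exact h c' d' (Or.inl h1) hX
    · obtain ⟨c', d', rfl, rfl, h1⟩ := ed_map' hcd
      exact h c' d' (Or.inr h1) hX

theorem plane_map {p : α → ℝ × ℝ} {g : ℝ × ℝ} {l : List α} :
    Plane (addG p g) (Ed (l.map some)) ↔ Plane p (Ed l) := by
  constructor
  · intro h a b c d hab hcd hX
    exact h (some a) (some b) (some c) (some d) (ed_map.2 hab) (ed_map.2 hcd) hX
  · intro h a b c d hab hcd hX
    obtain ⟨a', b', rfl, rfl, h1⟩ := ed_map' hab
    obtain ⟨c', d', rfl, rfl, h2⟩ := ed_map' hcd
    exact h a' b' c' d' h1 h2 hX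

theorem map_split {l : List α} {A B : List (Option α)} {v : Option α}
    (h : l.map some = A ++ v :: B) :
    ∃ A' v' B', l = A' ++ v' :: B' ∧ A = A'.map some ∧ v = some v' ∧ B = B'.map some := by
  obtain ⟨A', m, rfl, h1, h2⟩ := List.map_eq_append_iff.1 h
  obtain ⟨v', B', rfl, h3, h4⟩ := List.map_eq_cons_iff.1 h2
  exact ⟨A', v', B', rfl, h1.symm, h3.symm, h4.symm⟩

theorem rk_unmap {p : α → ℝ × ℝ} {g : ℝ × ℝ} {S : Set α} {l m : List α} {M : List (Option α)}
    (h : Relation.ReflTransGen (RK (addG p g) (some '' S) (Ed (m.map some))) (l.map some) M) :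
    ∃ l', M = l'.map some ∧ Relation.ReflTransGen (RK p S (Ed m)) l l' := by
  induction h with
  | refl => exact ⟨l, rfl, Relation.ReflTransGen.refl⟩
  | @tail M₁ M₂ _ h2 ih =>
    obtain ⟨l₁, rfl, h3⟩ := ih
    obtain ⟨⟨v, z, ⟨A, B, h4, h5⟩, h6⟩, h7⟩ := h2
    obtain ⟨A', v', B₁, h8, rfl, rfl, h9⟩ := map_split h4
    obtain ⟨B', z', C', h10, h11, h12, h13⟩ := map_split h9.symm
    have h14 : C' = [] := by
      cases C' with
      | nil => rfl
      | cons c C' => simp at h13
    subst h14
    subst h10 h11 h12 h8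
    have h15 : M₂ = (A' ++ v' :: z' :: B'.reverse).map some := by
      rw [h5]
      simp
    refine ⟨A' ++ v' :: z' :: B'.reverse, h15, h3.tail ⟨⟨v', z', ⟨A', B', rfl, rfl⟩, ?_⟩, ?_⟩⟩
    · exact vis_map.1 h6
    · intro u w huw hS
      have h16 := h7 (some u) (some w) (ed_map.2 huw) (by
        rintro t ⟨t', ht', rfl⟩
        exact hS t' ht')
      rw [h15] at h16
      exact ed_map.1 h16

end FPW
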