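import Pool.Agent.Lib.MP_deef39_co_PW.RotB

/-! # Eng module GhNear: a ghost near a vertex on an edge

`Near p h a e q`: the point `q` lies near `h` on the segment `h a`, slightly moved to the side of
`e`: the orientations of triples containing `q` are those of `h`, and for the triples with `h`
those of `a` (and, for `h, a, q`, of `h, a, e`). Such a point exists for every finite point set.
-/

set_option autoImplicit false

open Filter Topology

namespace FPW

variable {α : Type*}

/-- `q` is a ghost near `h` on the edge `h a`, on the side of `e` -/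
structure Near (p : α → ℝ × ℝ) (h a e q : α) : Prop where
  gen : ∀ x y, x ≠ y → x ≠ h → y ≠ h → x ≠ q → y ≠ q → 0 < o p x y q * o p x y h
  star : ∀ y, y ≠ h → y ≠ a → y ≠ q → 0 < o p h y q * o p h y a
  side : 0 < o p h a q * o p h a e

/-- the family with a ghost `g` added -/
def addG (p : α → ℝ × ℝ) (g : ℝ × ℝ) : Option α → ℝ × ℝ
  | none => g
  | some x => p x

theorem ev_quad0 {c0 c1 c2 : ℝ} (h : c0 ≠ 0) :
    ∀ᶠ t : ℝ in 𝓝[>] 0, 0 < (c0 + c1 * t + c2 * t ^ 2) * c0 := by
  have h1 : Tendsto (fun t : ℝ => (c0 + c1 * t + c2 * t ^ 2) * c0) (𝓝 0) (𝓝 (c0 * c0)) := by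
    have : Continuous (fun t : ℝ => (c0 + c1 * t + c2 * t ^ 2) * c0) := by fun_prop
    have h2 := this.tendsto 0
    simpa using h2
  have h3 : 0 < c0 * c0 := mul_self_pos.2 h
  exact ((h1.eventually (lt_mem_nhds h3)).filter_mono nhdsWithin_le_nhds)

theorem ev_quad1 {c1 c2 : ℝ} (h : c1 ≠ 0) :
    ∀ᶠ t : ℝ in 𝓝[>] 0, 0 < (c1 * t + c2 * t ^ 2) * c1 := by
  have h1 := ev_quad0 (c0 := c1) (c1 := c2) (c2 := 0) h
  filter_upwards [h1, self_mem_nhdsWithin] with t h2 h3
  have h4 : (0 : ℝ) < t := h3
  have h5 : (c1 * t + c2 * t ^ 2) * c1 = t * ((c1 + c2 * t + 0 * t ^ 2) * c1) := by ring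
  rw [h5]
  exact mul_pos h4 h2

theorem ev_quad2 {c2 : ℝ} (h : c2 ≠ 0) :
    ∀ᶠ t : ℝ in 𝓝[>] 0, 0 < (c2 * t ^ 2) * c2 := by
  filter_upwards [self_mem_nhdsWithin] with t h3
  have h4 : (0 : ℝ) < t := h3
  have h5 : (c2 * t ^ 2) * c2 = t ^ 2 * (c2 * c2) := by ring
  rw [h5]
  exact mul_pos (by positivity) (mul_self_pos.2 h)

/-- the point `p h + t (p a - p h) + t ^ 2 (p e - p h)` -/
def gpt (p : α → ℝ × ℝ) (h a e : α) (t : ℝ) : ℝ × ℝ :=
  ((p h).1 + t * ((p a).1 - (p h).1) + t ^ 2 * ((p e).1 - (p h).1),
    (p h).2 + t * ((p a).2 - (p h).2) + t ^ 2 * ((p e).2 - (p h).2))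

theorem o_gpt (p : α → ℝ × ℝ) (h a e : α) (t : ℝ) (x y : α) :
    o (addG p (gpt p h a e t)) (some x) (some y) none =
      o p x y h + (o p x y a - o p x y h) * t + (o p x y e - o p x y h) * t ^ 2 := by
  unfold o addG gpt
  simp only
  ring

@[simp] theorem o_addG (p : α → ℝ × ℝ) (g : ℝ × ℝ) (x y z : α) :
    o (addG p g) (some x) (some y) (some z) = o p x y z := rfl

/-- existence of the ghost -/
theorem near_exists [Finite α] {p : α → ℝ × ℝ} (hgp : GP p) {h a e : α} (hha : h ≠ a)
    (hhe : h ≠ e) (hae : a ≠ e) :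
    ∃ g : ℝ × ℝ, GP (addG p g) ∧ Near (addG p g) (some h) (some a) (some e) none := by
  have h1 : ∀ᶠ t : ℝ in 𝓝[>] 0, ∀ x y : α, x ≠ y → x ≠ h → y ≠ h →
      0 < o (addG p (gpt p h a e t)) (some x) (some y) none * o p x y h := by
    rw [eventually_all]
    intro x
    rw [eventually_all]
    intro y
    by_cases hxy : x ≠ y ∧ x ≠ h ∧ y ≠ h
    · have h2 := ev_quad0 (c1 := o p x y a - o p x y h) (c2 := o p x y e - o p x y h)
        (hgp.ne x y h hxy.1 hxy.2.2 hxy.2.1)
      filter_upwards [h2] with t h3 _ _ _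
      rw [o_gpt]
      exact h3
    · refine Eventually.of_forall fun t h4 h5 h6 => absurd ⟨h4, h5, h6⟩ hxy
  have h2 : ∀ᶠ t : ℝ in 𝓝[>] 0, ∀ y : α, y ≠ h → y ≠ a →
      0 < o (addG p (gpt p h a e t)) (some h) (some y) none * o p h y a := by
    rw [eventually_all]
    intro y
    by_cases hxy : y ≠ h ∧ y ≠ a
    · have h2 := ev_quad1 (c2 := o p h y e) (hgp.ne h y a hxy.1.symm hxy.2 hha)
      filter_upwards [h2] with t h3 _ _
      rw [o_gpt]
      have e1 : o p h y h = 0 := by unfold o; ring
      rw [e1]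
      convert h3 using 2
      ring
    · refine Eventually.of_forall fun t h4 h5 => absurd ⟨h4, h5⟩ hxy
  have h3 : ∀ᶠ t : ℝ in 𝓝[>] 0,
      0 < o (addG p (gpt p h a e t)) (some h) (some a) none * o p h a e := by
    have h2 := ev_quad2 (c2 := o p h a e) (hgp.ne h a e hha hae hhe)
    filter_upwards [h2] with t h3
    rw [o_gpt]
    have e1 : o p h a h = 0 := by unfold o; ring
    have e2 : o p h a a = 0 := by unfold o; ring
    rw [e1, e2]
    convert h3 using 2
    ring
  obtain ⟨t, h4, h5, h6⟩ := (h1.and (h2.and h3)).exists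
  set p' := addG p (gpt p h a e t) with hp'
  -- nonzero orientations with the ghost in the third place
  have hne : ∀ x y : α, x ≠ y → o p' (some x) (some y) none ≠ 0 := by
    intro x y hxy h0
    by_cases hx : x = h
    · subst hx
      by_cases hy : y = a
      · subst hy
        rw [h0, zero_mul] at h6
        exact lt_irrefl _ h6
      · have h7 := h5 y (Ne.symm hxy) hy
        rw [h0, zero_mul] at h7
        exact lt_irrefl _ h7
    · by_cases hy : y = h
      · subst hy
        have h0' : o p' (some y) (some x) none = 0 := by rw [o_swap, h0, neg_zero]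
        by_cases hx' : x = a
        · subst hx'
          rw [h0', zero_mul] at h6
          exact lt_irrefl _ h6
        · have h7 := h5 x hx hx'
          rw [h0', zero_mul] at h7
          exact lt_irrefl _ h7
      · have h7 := h4 x y hxy hx hy
        rw [h0, zero_mul] at h7
        exact lt_irrefl _ h7
  have hinj : ∀ x : α, p' none ≠ p' (some x) := by
    intro x hx
    have h7 : ∀ y : α, o p' (some x) (some y) none = 0 := by
      intro y
      have h8 : o p' (some x) (some y) none = o p' (some x) (some y) (some x) := by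
        unfold o
        rw [hx]
      rw [h8]
      unfold o
      ring
    by_cases hx' : x = h
    · exact hne x a (by rw [hx']; exact hha) (h7 a)
    · exact hne x h hx' (h7 h)
  refine ⟨gpt p h a e t, ⟨?_, ?_⟩, ⟨?_, ?_, ?_⟩⟩
  · rintro (_ | x) (_ | y) hxy
    · rfl
    · exact absurd hxy (hinj y)
    · exact absurd hxy.symm (hinj x)
    · exact congrArg some (hgp.inj hxy)
  · rintro (_ | x) (_ | y) (_ | z) hxy hyz hxz
    · exact absurd rfl hxy
    · exact absurd rfl hxy
    · exact absurd rfl hxz
    · rw [o_rot]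
      have h8 := hne y z (fun h => hyz (congrArg some h))
      have e1 : o p' none (some y) (some z) = o p' (some y) (some z) none := (o_rot p' _ _ _).symm
      rw [← o_rot]
      show o p' none (some y) (some z) ≠ 0
      rw [e1]
      exact h8
    · exact absurd rfl hyz
    · have h8 := hne z x (fun h => hxz (congrArg some h.symm))
      have e1 : o p' (some x) none (some z) = o p' (some z) (some x) none :=
        (o_rot' p' _ _ _).symm
      rw [← hp', e1]
      exact h8
    · exact hne x y (fun h => hxy (congrArg some h))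
    · exact hgp.ne x y z (fun h => hxy (congrArg some h)) (fun h => hyz (congrArg some h))
        (fun h => hxz (congrArg some h))
  · rintro (_ | x) (_ | y) hxy hx hy hxn hyn
    · exact absurd rfl hxy
    · exact absurd rfl hxn
    · exact absurd rfl hyn
    · exact h4 x y (fun h => hxy (congrArg some h)) (fun h => hx (congrArg some h))
        (fun h => hy (congrArg some h))
  · rintro (_ | y) hy hya hyn
    · exact absurd rfl hyn
    · exact h5 y (fun h => hy (congrArg some h)) (fun h => hya (congrArg some h))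
  · exact h6

end FPW
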