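import Pool.Agent.Lib.MP_deef39_co_Eng.GhMap
import Pool.Agent.Lib.MP_deef39_co_Ord.KRed

/-! # Eng module GhWalk: from the engine to the closing lemmas

`EN p` (the engine): in a plane path `A ++ a :: h :: B` with end `e`, let `q` be a ghost near `h` on
the edge `h a`, on the side of `e`, which `e` sees. Then plane rotations of the part `a :: h :: B`
which keep all hull edges of the path lead to an end which sees a vertex of `A ++ [a]`.

`cl0_of_en`, `clk_of_en`: the two closing lemmas of KRed. `frozen_of_en`: the frozen statement.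
-/

set_option autoImplicit false

namespace FPW

variable {α : Type*}

/-- the engine -/
def EN (p : α → ℝ × ℝ) : Prop :=
  ∀ (A : List α) (a h : α) (B C : List α) (e q : α), B = C ++ [e] →
    (A ++ a :: h :: B).Nodup → Plane p (Ed (A ++ a :: h :: B)) → q ∉ A ++ a :: h :: B →
    Near p h a e q → Vis p (Ed (A ++ a :: h :: B)) e q →
    ∃ D z g, Relation.ReflTransGen (RK p {t | t ∈ A ++ a :: h :: B} (Ed (A ++ [a])))
        (a :: h :: B) (D ++ [z]) ∧
      g ∈ A ++ [a] ∧ Vis p (EO (D ++ [z]) (Ed (A ++ [a]))) z g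

/-- the ray `h y` lies in the angle `e h a` -/
def Cone (p : α → ℝ × ℝ) (h e a y : α) : Prop :=
  o p h y e * o p h y a < 0 ∧ 0 < o p h e a * o p h e y

variable {p : α → ℝ × ℝ}

theorem cone_flip {h e a y : α} (hc : Cone p h e a y) : ¬ Cone p h y a e := by
  rintro ⟨h1, -⟩
  obtain ⟨-, h2⟩ := hc
  nlinarith

/-- signs -/
theorem sg {x y u v : ℝ} (h1 : 0 < x * u) (h2 : 0 < y * v) (h3 : x * y < 0) : u * v < 0 := by
  rcases mul_pos_iff.1 h1 with ⟨a, b⟩ | ⟨a, b⟩ <;> rcases mul_pos_iff.1 h2 with ⟨c, d⟩ | ⟨c, d⟩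
  · nlinarith
  · nlinarith
  · nlinarith
  · nlinarith

theorem sg' {x y u v : ℝ} (h1 : 0 < x * u) (h2 : 0 < y * v) (h3 : 0 < x * y) : 0 < u * v := by
  rcases mul_pos_iff.1 h1 with ⟨a, b⟩ | ⟨a, b⟩ <;> rcases mul_pos_iff.1 h2 with ⟨c, d⟩ | ⟨c, d⟩
  · nlinarith
  · nlinarith
  · nlinarith
  · nlinarith

/-- the end `e` sees the ghost near `h` -/
theorem vis_near {A : List α} {a h : α} {B : List α} {e q : α}
    (hn : (A ++ a :: h :: (B ++ [e])).Nodup) (hq : q ∉ A ++ a :: h :: (B ++ [e]))
    (hnear : Near p h a e q) (hv : Vis p (Ed (A ++ a :: h :: (B ++ [e]))) e h)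
    (hB : ∀ y B₁, B = y :: B₁ → ¬ Cone p h e a y) :
    Vis p (Ed (A ++ a :: h :: (B ++ [e]))) e q := by
  have hqm : ∀ x ∈ A ++ a :: h :: (B ++ [e]), x ≠ q := fun x hx hxq => hq (hxq ▸ hx)
  have heh : e ≠ h := by
    rintro rfl
    have h1 := (List.nodup_append.1 hn).2.1
    simp at h1
  have hea : e ≠ a := by
    rintro rfl
    have h1 := (List.nodup_append.1 hn).2.1
    simp at h1
  have heq : e ≠ q := hqm e (by simp)
  have hah : a ≠ h := by
    rintro rfl
    have h1 := (List.nodup_append.1 hn).2.1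
    simp at h1
  -- general edges
  have gen : ∀ x y : α, x ≠ h → y ≠ h → x ≠ q → y ≠ q → X p e q x y → X p e h x y := by
    intro x y hxh hyh hxq hyq hX
    have hne := X_ne hX
    have hxy : x ≠ y := hne.2.1
    have hex : e ≠ x := hne.2.2.1
    have hey : e ≠ y := hne.2.2.2.1
    obtain ⟨h1, h2⟩ := hX
    have g1 := hnear.gen e x hex heh hxh heq hxq
    have g2 := hnear.gen e y hey heh hyh heq hyq
    have g3 := hnear.gen x y hxy hxh hyh hxq hyq
    rw [o_swap' p e q x, o_swap' p e h x] at g1
    rw [o_swap' p e q y, o_swap' p e h y] at g2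
    constructor
    · exact sg (by linarith [neg_mul_neg (o p e q x) (o p e h x)])
        (by linarith [neg_mul_neg (o p e q y) (o p e h y)]) h1
    · rcases mul_pos_iff.1 g3 with ⟨a1, b1⟩ | ⟨a1, b1⟩
      · nlinarith
      · nlinarith
  -- edges at `h`
  have star : ∀ y : α, y ≠ h → y ≠ q → X p e q h y → y ≠ a ∧ Cone p h e a y := by
    intro y hyh hyq hX
    have hne := X_ne hX
    have hey : e ≠ y := hne.2.2.2.1
    obtain ⟨h1, h2⟩ := hX
    have hya : y ≠ a := by
      rintro rfl
      have := hnear.side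
      nlinarith
    refine ⟨hya, ?_, ?_⟩
    · have g1 := hnear.star y hyh hya hyq
      rcases mul_pos_iff.1 g1 with ⟨a1, b1⟩ | ⟨a1, b1⟩
      · nlinarith
      · nlinarith
    · have g1 := hnear.star e heh hea heq
      have g2 := hnear.gen e y hey heh hyh heq hyq
      -- o e q h = - o h e q ... ; o e q y = - o e y q
      have e1 : o p e q h = o p h e q := o_rot p h e q
      have e2 : o p e q y = - o p e y q := by rw [o_swap' p e q y]; ring
      have e3 : o p e y h = o p h e y := (o_rot p h e y)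
      rw [e1, e2] at h1
      rw [e3] at g2
      have g3 : o p h e a * o p h e y < 0 ∨ 0 < o p h e a * o p h e y := by
        rcases mul_pos_iff.1 g1 with ⟨a1, b1⟩ | ⟨a1, b1⟩ <;>
        rcases mul_pos_iff.1 g2 with ⟨c1, d1⟩ | ⟨c1, d1⟩
        · exact Or.inr (mul_pos b1 d1)
        · exact Or.inl (mul_neg_of_pos_of_neg b1 d1)
        · exact Or.inl (mul_neg_of_neg_of_pos b1 d1)
        · exact Or.inr (mul_pos_of_neg_of_neg b1 d1)
      rcases g3 with g3 | g3
      · exfalso
        have := sg (u := o p h e q) (v := o p e y q) (x := o p h e a) (y := o p h e y)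
          (by linarith) (by linarith) g3
        nlinarith
      · exact g3
  -- a neighbour of `h`
  have nb : ∀ y, Ed (A ++ a :: h :: (B ++ [e])) h y → y = a ∨ y = e ∨ ∃ B₁, B = y :: B₁ := by
    intro y hy
    have e0 : A ++ a :: h :: (B ++ [e]) = (A ++ [a]) ++ h :: (B ++ [e]) := by simp
    rw [e0] at hy hn
    rcases ed_mid.1 hy with h1 | h1
    · have e1 : (A ++ [a]) ++ [h] = A ++ a :: h :: [] := by simp
      rw [e1, ed_mid, ed_cons2] at h1
      rcases h1 with h1 | ⟨h1, h2⟩ | ⟨h1, h2⟩ | h1
      · exfalso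
        have h2 := ed_mem h1
        exact (List.nodup_append.1 hn).2.2 h h2 h (by simp) rfl
      · exact absurd h1.symm hah
      · exact Or.inl h2
      · exact h1.elim
    · cases B with
      | nil =>
        rcases h1 with ⟨-, h2⟩ | ⟨h1, h2⟩ | h1
        · exact Or.inr (Or.inl h2)
        · exact absurd h1.symm heh
        · exact h1.elim
      | cons b B =>
        rw [List.cons_append, ed_cons2] at h1
        have hhn : h ∉ b :: (B ++ [e]) := by
          have h3 := (List.nodup_append.1 hn).2.1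
          rw [List.nodup_cons] at h3
          exact h3.1
        rcases h1 with ⟨-, h2⟩ | ⟨h1, h2⟩ | h1
        · exact Or.inr (Or.inr ⟨B, by rw [h2]⟩)
        · exact absurd (h1 ▸ List.mem_cons_self) hhn
        · exact absurd (ed_mem h1) hhn
  intro x y hxy hX
  have hx := ed_mem hxy
  have hy := ed_mem' hxy
  by_cases hxh : x = h
  · subst hxh
    by_cases hyh : y = x
    · exact (X_ne hX).2.1 hyh.symm
    · obtain ⟨h1, h2⟩ := star y hyh (hqm y hy) hX
      rcases nb y hxy with h3 | h3 | ⟨B₁, h3⟩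
      · exact h1 h3
      · subst h3
        exact not_X_of_eq2 hX
      · exact hB y B₁ h3 h2
  · by_cases hyh : y = h
    · subst hyh
      obtain ⟨h1, h2⟩ := star x hxh (hqm x hx) (X_sw2.1 hX)
      rcases nb x (ed_symm hxy) with h3 | h3 | ⟨B₁, h3⟩
      · exact h1 h3
      · subst h3
        exact not_X_of_eq1 hX
      · exact hB x B₁ h3 h2
    · exact hv x y hxy (gen x y hxh hyh (hqm x hx) (hqm y hy) hX)

/-- steps of the moving part are steps of the whole path -/
theorem rk_lift {S : Set α} {A : List α} {a : α} {B : List α} {M : List α}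
    (h : Relation.ReflTransGen (RK p S (Ed (A ++ [a]))) (a :: B) M) :
    ∃ B', M = a :: B' ∧ Relation.ReflTransGen (RK p S NO) (A ++ a :: B) (A ++ a :: B') := by
  induction h with
  | refl => exact ⟨B, rfl, Relation.ReflTransGen.refl⟩
  | @tail M₁ M₂ _ h2 ih =>
    obtain ⟨B₁, rfl, h3⟩ := ih
    obtain ⟨⟨v, z, h4, h5⟩, h6⟩ := h2
    have hh := rotL_head h4
    rw [List.head?_cons] at hh
    obtain ⟨C, D, h7, h8⟩ := h4
    obtain ⟨B₂, rfl⟩ : ∃ B₂, M₂ = a :: B₂ := by
      cases M₂ with
      | nil => simp at hh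
      | cons b B₂ =>
        rw [List.head?_cons] at hh
        exact ⟨B₂, by rw [Option.some.inj hh]⟩
    have key : ∀ (B₃ : List α) (x y : α), Ed (A ++ a :: B₃) x y ↔
        EO (a :: B₃) (Ed (A ++ [a])) x y := by
      intro B₃ x y
      rw [ed_mid]
      exact or_comm
    refine ⟨B₂, rfl, h3.tail ⟨⟨v, z, ⟨A ++ C, D, ?_, ?_⟩, ?_⟩, ?_⟩⟩
    · rw [h7]; simp
    · rw [h8]; simp
    · intro c d hcd
      exact h5 c d ((key _ _ _).1 (eo_no.1 hcd))
    · intro u w huw hS
      rcases (key _ _ _).1 huw with h9 | h9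
      · exact (key _ _ _).2 (Or.inl (h6 u w h9 hS))
      · exact (key _ _ _).2 (Or.inr h9)

theorem rk_u {S : Set α} {l l' : List α} (h : Relation.ReflTransGen (RK p S NO) l l') :
    Relation.ReflTransGen (U p) l l' :=
  Relation.ReflTransGen.mono (fun _ _ h => Or.inl h.1) _ _ h

/-- the rotation at `h` -/
theorem rot_at {S : Set α} {A : List α} {a h : α} {B₁ : List α} {z y : α}
    (hS : ∀ t ∈ A ++ a :: h :: (y :: B₁ ++ [z]), t ∈ S)
    (hn : (A ++ a :: h :: (y :: B₁ ++ [z])).Nodup)
    (hp : Plane p (Ed (A ++ a :: h :: (y :: B₁ ++ [z]))))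
    (hv : Vis p (Ed (A ++ a :: h :: (y :: B₁ ++ [z]))) z h) (hc : Cone p h z a y) :
    RK p S NO (A ++ a :: h :: (y :: B₁ ++ [z])) (A ++ a :: h :: (z :: B₁.reverse ++ [y])) ∧
      Vis p (Ed (A ++ a :: h :: (z :: B₁.reverse ++ [y]))) y h := by
  have hrot : RotL h z (A ++ a :: h :: (y :: B₁ ++ [z]))
      (A ++ a :: h :: (z :: B₁.reverse ++ [y])) := by
    refine ⟨A ++ [a], y :: B₁, ?_, ?_⟩
    · simp
    · simp
  have e1 : A ++ a :: h :: (y :: B₁ ++ [z]) = (A ++ [a]) ++ h :: y :: (B₁ ++ [z]) := by simp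
  have e2 : A ++ a :: h :: (z :: B₁.reverse ++ [y]) =
      (A ++ [a]) ++ h :: z :: (B₁.reverse ++ [y]) := by simp
  have e3 : (B₁.reverse ++ [y]) = (y :: B₁).reverse := by simp
  refine ⟨⟨⟨h, z, hrot, fun c d hcd => hv c d (eo_no.1 hcd)⟩, ?_⟩, ?_⟩
  · intro u w huw hS'
    rw [e1, ed_mid, ed_cons2] at huw
    rw [e2, ed_mid, ed_cons2]
    have hz : z ∈ S := hS z (by simp)
    have ha : a ∈ S := hS a (by simp)
    obtain ⟨hc1, -⟩ := hc
    rcases huw with h1 | ⟨rfl, rfl⟩ | ⟨rfl, rfl⟩ | h1
    · exact Or.inl h1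
    · exfalso
      have h2 := hS' z hz
      have h3 := hS' a ha
      nlinarith
    · exfalso
      have h2 := hS' z hz
      have h3 := hS' a ha
      rw [o_swap] at h2 h3
      nlinarith
    · refine Or.inr (Or.inr (Or.inr ?_))
      have e4 : z :: (B₁.reverse ++ [y]) = (y :: (B₁ ++ [z])).reverse := by simp
      rw [e4, ed_reverse]
      exact h1
  · intro c d hcd hX
    rcases rotL_ed hrot hcd with h1 | ⟨rfl, rfl⟩ | ⟨rfl, rfl⟩
    · have hyh : Ed (A ++ a :: h :: (y :: B₁ ++ [z])) y h := by
        rw [e1]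
        exact ed_of_split'
      exact hp y h c d hyh h1 hX
    · exact not_X_of_eq4 (X_sw2.1 hX)
    · exact not_X_of_eq4 hX

/-- the walk along the arm -/
theorem walk [Finite α] (hgp : GP p) (hEN : ∀ g : ℝ × ℝ, GP (addG p g) → EN (addG p g)) :
    ∀ (n : ℕ) (A : List α) (h : α) (B : List α) (z : α), A.length ≤ n →
      (A ++ h :: (B ++ [z])).Nodup → Plane p (Ed (A ++ h :: (B ++ [z]))) →
      Vis p (Ed (A ++ h :: (B ++ [z]))) z h →
      ∃ l', Relation.ReflTransGen (RK p {t | t ∈ A ++ h :: (B ++ [z])} NO)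
        (A ++ h :: (B ++ [z])) l' ∧ Clos p l' := by
  intro n
  induction n with
  | zero =>
    intro A h B z hA hn hp hv
    have hA' : A = [] := List.length_eq_zero_iff.1 (Nat.le_zero.1 hA)
    subst hA'
    exact ⟨_, Relation.ReflTransGen.refl, clos_of_vis hp hv⟩
  | succ n ih =>
    intro A h B z hA hn hp hv
    rcases List.eq_nil_or_concat A with rfl | ⟨A, a, rfl⟩
    · exact ⟨_, Relation.ReflTransGen.refl, clos_of_vis hp hv⟩
    rw [List.concat_eq_append] at hA hn hp hv ⊢
    have hA' : A.length ≤ n := by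
      rw [List.length_append, List.length_singleton] at hA
      omega
    have e0 : ∀ m : List α, (A ++ [a]) ++ h :: m = A ++ a :: h :: m := by intro m; simp
    simp only [e0] at hn hp hv ⊢
    -- the claim without bad successor
    have main : ∀ (B' : List α) (e : α) (S : Set α),
        (∀ t, t ∈ S ↔ t ∈ A ++ a :: h :: (B' ++ [e])) →
        (A ++ a :: h :: (B' ++ [e])).Nodup → Plane p (Ed (A ++ a :: h :: (B' ++ [e]))) →
        Vis p (Ed (A ++ a :: h :: (B' ++ [e]))) e h →
        (∀ y B₁, B' = y :: B₁ → ¬ Cone p h e a y) →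
        ∃ l', Relation.ReflTransGen (RK p S NO) (A ++ a :: h :: (B' ++ [e])) l' ∧ Clos p l' := by
      intro B' e S hS hn hp hv hB
      have hah : h ≠ a := by
        rintro rfl
        have h1 := (List.nodup_append.1 hn).2.1
        simp at h1
      have heh : h ≠ e := by
        rintro rfl
        have h1 := (List.nodup_append.1 hn).2.1
        simp at h1
      have hea : a ≠ e := by
        rintro rfl
        have h1 := (List.nodup_append.1 hn).2.1
        simp at h1
      obtain ⟨g, hgp', hnear⟩ := near_exists hgp hah heh hea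
      have hmap : ∀ m : List α, (A.map some) ++ some a :: some h :: (m.map some ++ [some e]) =
          (A ++ a :: h :: (m ++ [e])).map some := by intro m; simp
      have hnn : (none : Option α) ∉ (A.map some) ++ some a :: some h ::
          (B'.map some ++ [some e]) := by
        rw [hmap]
        intro h1
        obtain ⟨x, -, hx⟩ := List.mem_map.1 h1
        exact absurd hx (by simp)
      have hn' : ((A.map some) ++ some a :: some h :: (B'.map some ++ [some e])).Nodup := by
        rw [hmap]
        exact hn.map (Option.some_injective α)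
      have hp' : Plane (addG p g) (Ed ((A.map some) ++ some a :: some h ::
          (B'.map some ++ [some e]))) := by
        rw [hmap]
        exact plane_map.2 hp
      have hv' : Vis (addG p g) (Ed ((A.map some) ++ some a :: some h ::
          (B'.map some ++ [some e]))) (some e) (some h) := by
        rw [hmap]
        intro c d hcd hX
        obtain ⟨c', d', rfl, rfl, h1⟩ := ed_map' hcd
        exact hv c' d' h1 hX
      have hvn := vis_near hn' hnn hnear hv' (by
        intro y B₁ hy hc
        obtain ⟨y', B₂, h1, h2, -⟩ := List.map_eq_cons_iff.1 hy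
        subst h2
        exact hB y' B₂ h1 hc)
      obtain ⟨D, z', g', h1, h2, h3⟩ := hEN g hgp' (A.map some) (some a) (some h)
        (B'.map some ++ [some e]) (B'.map some) (some e) none rfl hn' hp' hnn hnear hvn
      have hS' : {t | t ∈ (A.map some) ++ some a :: some h :: (B'.map some ++ [some e])} =
          some '' S := by
        ext t
        rw [hmap]
        simp only [Set.mem_ofPred_eq, Set.mem_image, List.mem_map]
        constructor
        · rintro ⟨x, hx, rfl⟩
          exact ⟨x, (hS x).2 hx, rfl⟩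
        · rintro ⟨x, hx, rfl⟩
          exact ⟨x, (hS x).1 hx, rfl⟩
      have e5 : (A.map some) ++ [some a] = (A ++ [a]).map some := by simp
      have e6 : some a :: some h :: (B'.map some ++ [some e]) =
          (a :: h :: (B' ++ [e])).map some := by simp
      rw [hS', e5, e6] at h1
      rw [e5] at h2 h3
      obtain ⟨l', h4, h5⟩ := rk_unmap h1
      obtain ⟨B'', rfl, h6⟩ := rk_lift h5
      -- the last vertex
      obtain ⟨D', z'', h7, h8, h9⟩ : ∃ D' z'', a :: B'' = D' ++ [z''] ∧ D = D'.map some ∧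
          z' = some z'' := by
        obtain ⟨D', z'', C', h7, h8, h9, h10⟩ := map_split (A := D) (v := z') (B := []) h4.symm
        have : C' = [] := by
          cases C' with
          | nil => rfl
          | cons c C' => simp at h10
        subst this
        exact ⟨D', z'', h7, h8, h9⟩
      subst h8 h9
      obtain ⟨g'', hg1, rfl⟩ := List.mem_map.1 h2
      have h10 : Vis p (EO (D' ++ [z'']) (Ed (A ++ [a]))) z'' g'' := by
        have e7 : D'.map some ++ [some z''] = (D' ++ [z'']).map some := by simp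
        rw [e7] at h3
        exact vis_map.1 h3
      have hperm : (A ++ a :: B'').Perm (A ++ a :: h :: (B' ++ [e])) := u_perm (rk_u h6)
      have hB'' : B'' ≠ [] := by
        rintro rfl
        have := hperm.length_eq
        simp at this
      obtain ⟨B₃, hB₃⟩ : ∃ B₃, B'' = B₃ ++ [z''] := by
        rcases List.eq_nil_or_concat B'' with h11 | ⟨B₃, w, h11⟩
        · exact absurd h11 hB''
        · rw [List.concat_eq_append] at h11
          refine ⟨B₃, ?_⟩
          rw [h11] at h7 ⊢
          have h12 : (a :: B₃) ++ [w] = D' ++ [z''] := h7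
          have h13 := List.append_inj_right' h12 rfl
          rw [List.cons.inj h13 |>.1]
      have hvis : Vis p (Ed (A ++ a :: B'')) z'' g'' := by
        intro c d hcd
        rw [← h7] at h10
        refine h10 c d ?_
        rcases ed_mid.1 hcd with h11 | h11
        · exact Or.inr h11
        · exact Or.inl h11
      have hn2 : (A ++ a :: B'').Nodup := hperm.nodup_iff.2 hn
      have hp2 : Plane p (Ed (A ++ a :: B'')) := u_plane hp (rk_u h6)
      have fin : ∀ (A₁ : List α) (A₂ : List α), A₁.length ≤ n →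
          A ++ a :: B'' = A₁ ++ g'' :: (A₂ ++ [z'']) →
          ∃ l', Relation.ReflTransGen (RK p S NO) (A ++ a :: h :: (B' ++ [e])) l' ∧
            Clos p l' := by
        intro A₁ A₂ hl he
        rw [he] at hn2 hp2 hvis h6 hperm
        obtain ⟨l', h11, h12⟩ := ih A₁ g'' A₂ z'' hl hn2 hp2 hvis
        have h13 : {t | t ∈ A₁ ++ g'' :: (A₂ ++ [z''])} = S := by
          ext t
          rw [Set.mem_ofPred_eq, hperm.mem_iff]
          exact (hS t).symm
        rw [h13] at h11
        exact ⟨l', h6.trans h11, h12⟩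
      rcases List.mem_append.1 hg1 with hg2 | hg2
      · obtain ⟨A₁, A₂, rfl⟩ := List.append_of_mem hg2
        refine fin A₁ (A₂ ++ a :: B₃) ?_ ?_
        · rw [List.length_append] at hA'
          omega
        · rw [hB₃]
          simp
      · rw [List.mem_singleton.1 hg2] at fin
        exact fin A B₃ hA' (by rw [hB₃])
    by_cases hbad : ∃ y B₁, B = y :: B₁ ∧ Cone p h z a y
    · obtain ⟨y, B₁, rfl, hc⟩ := hbad
      obtain ⟨h1, h2⟩ := rot_at (S := {t | t ∈ A ++ a :: h :: (y :: B₁ ++ [z])})
        (fun t ht => ht) hn hp hv hc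
      have hs := Relation.ReflTransGen.single h1
      have hperm := u_perm (rk_u hs)
      obtain ⟨l', h3, h4⟩ := main (z :: B₁.reverse) y {t | t ∈ A ++ a :: h :: (y :: B₁ ++ [z])}
        (fun t => by rw [Set.mem_ofPred_eq, hperm.mem_iff]) (hperm.nodup_iff.2 hn)
        (u_plane hp (rk_u hs)) h2 (by
          intro y' B₂ hy
          obtain ⟨rfl, -⟩ := List.cons.inj hy
          exact cone_flip hc)
      exact ⟨l', hs.trans h3, h4⟩
    · exact main B z _ (fun t => Iff.rfl) hn hp hv (fun y B₁ h1 h2 => hbad ⟨y, B₁, h1, h2⟩)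

/-- every plane path leads to a closable path by rotations which keep the hull edges -/
theorem close_of_en [Finite α] (hgp : GP p)
    (hEN : ∀ g : ℝ × ℝ, GP (addG p g) → EN (addG p g)) {l : List α} (hne : l ≠ [])
    (hn : l.Nodup) (hp : Plane p (Ed l)) :
    ∃ l', Relation.ReflTransGen (RK p {t | t ∈ l} NO) l l' ∧ Clos p l' := by
  rcases List.eq_nil_or_concat l with rfl | ⟨l₁, z, rfl⟩
  · exact absurd rfl hne
  rcases List.eq_nil_or_concat l₁ with rfl | ⟨A, h, rfl⟩
  · refine ⟨_, Relation.ReflTransGen.refl, z, [], by simp, ?_⟩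
    intro a b c d hab hcd hX
    simp only [List.concat_eq_append, List.nil_append, List.singleton_append] at hab
    rcases hab with ⟨rfl, rfl⟩ | ⟨rfl, rfl⟩ | hab
    · exact (X_ne hX).1 rfl
    · exact (X_ne hX).1 rfl
    · exact hab.elim
  · simp only [List.concat_eq_append] at hn hp ⊢
    have e1 : A ++ [h] ++ [z] = A ++ h :: ([] ++ [z]) := by simp
    rw [e1] at hn hp ⊢
    refine walk hgp hEN A.length A h [] z le_rfl hn hp ?_
    exact Vis_of_edge hp ed_of_split'

theorem cl0_of_en [Finite α] (hgp : GP p)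
    (hEN : ∀ g : ℝ × ℝ, GP (addG p g) → EN (addG p g)) : CL0 p := by
  intro l hne hn hp
  obtain ⟨l', h1, h2⟩ := close_of_en hgp hEN hne hn hp
  exact ⟨l', rk_u h1, h2⟩

theorem clk_of_en [Finite α] (hgp : GP p)
    (hEN : ∀ g : ℝ × ℝ, GP (addG p g) → EN (addG p g)) : CLK p := by
  intro u v l hn hp he hs
  have hne : l ≠ [] := by
    rintro rfl
    exact he
  obtain ⟨l', h1, h2⟩ := close_of_en hgp hEN hne hn hp
  refine ⟨l', ?_, Or.inl h2⟩
  clear h2
  have : Relation.ReflTransGen (UK p u v) l l' ∧ Ed l' u v := by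
    induction h1 with
    | refl => exact ⟨Relation.ReflTransGen.refl, he⟩
    | tail _ h3 ih =>
      obtain ⟨h4, h5⟩ := ih
      have h6 := h3.2 u v h5 hs
      exact ⟨h4.tail ⟨Or.inl h3.1, h5, h6⟩, h6⟩
  exact this.1

end FPW
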