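import Pool.Agent.Lib.MP_deef39_co_Ord.Jor

/-! # Eng module HullOrd: order of the hull vertices along a plane path (row R1, part 2)

`hull_ord`: if `z w`, `w v` are hull edges, a plane path which starts at a hull vertex `r` and ends
at `z` does not run through the edge `w v` from `w` to `v`.
-/

set_option autoImplicit false

namespace FPW

variable {α : Type*} {p : α → ℝ × ℝ}

private theorem ho_kk (hgp : GP p) {w v u a b : α} (hwu : w ≠ u) (hau : a ≠ u) (hbu : b ≠ u)
    (haw : a ≠ w) (hbw : b ≠ w) (hab : a ≠ b) (hu : 0 < o p w v u) (ha : 0 ≤ o p w v a)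
    (hb : 0 ≤ o p w v b) : kk p w a b u = xi (0 < o p w a u) + xi (0 < o p w b u) := by
  have key := gp_id (p := p) w v a u b
  have e1 : o p w u b = - o p w b u := o_swap' p w b u
  have n1 : o p w a u ≠ 0 := hgp.ne w a u haw.symm hau hwu
  have n2 : o p w b u ≠ 0 := hgp.ne w b u hbw.symm hbu hwu
  have n3 : o p w a b ≠ 0 := hgp.ne w a b haw.symm hab hbw.symm
  rcases lt_or_gt_of_ne n1 with h1 | h1 <;> rcases lt_or_gt_of_ne n2 with h2 | h2
  · rw [xi_false (by linarith), xi_false (by linarith)]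
    unfold kk
    rw [xi_false]
    · decide
    · rintro (⟨_, h, _⟩ | ⟨_, _, h⟩)
      · linarith
      · rw [e1] at h; linarith
  · rw [xi_false (by linarith), xi_true h2]
    have h3 : o p w a b < 0 := by
      by_contra hc
      have h4 : 0 < o p w a b := lt_of_le_of_ne (not_lt.1 hc) (Ne.symm n3)
      have h5 := mul_pos hu h4
      have h6 : o p w v a * o p w u b ≤ 0 :=
        mul_nonpos_of_nonneg_of_nonpos ha (by rw [e1]; linarith)
      have h7 : o p w v b * o p w a u ≤ 0 := mul_nonpos_of_nonneg_of_nonpos hb h1.le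
      linarith
    unfold kk
    rw [xi_true (Or.inr ⟨h3, h1, by rw [e1]; linarith⟩)]
    decide
  · rw [xi_true h1, xi_false (by linarith)]
    have h3 : 0 < o p w a b := by
      by_contra hc
      have h4 : o p w a b < 0 := lt_of_le_of_ne (not_lt.1 hc) n3
      have h5 := mul_neg_of_pos_of_neg hu h4
      have h6 : 0 ≤ o p w v a * o p w u b := mul_nonneg ha (by rw [e1]; linarith)
      have h7 : 0 ≤ o p w v b * o p w a u := mul_nonneg hb h1.le
      linarith
    unfold kk
    rw [xi_true (Or.inl ⟨h3, h1, by rw [e1]; linarith⟩)]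
    decide
  · rw [xi_true h1, xi_true h2]
    unfold kk
    rw [xi_false]
    · decide
    · rintro (⟨_, _, h⟩ | ⟨_, h, _⟩)
      · rw [e1] at h; linarith
      · linarith

private theorem ho_fan (hgp : GP p) {w v u : α} (hwu : w ≠ u) (hu : 0 < o p w v u) :
    ∀ (M : List α) (a z : α), ((a :: (M ++ [z])) : List α).Nodup → w ∉ a :: (M ++ [z]) →
      u ∉ a :: (M ++ [z]) → (∀ t ∈ a :: (M ++ [z]), 0 ≤ o p w v t) →
      (∀ c d, Ed (a :: (M ++ [z])) c d → ¬ X p w u c d) →
      fan p w (a :: (M ++ [z])) u = xi (0 < o p w a u) + xi (0 < o p w z u) := by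
  intro M
  induction M with
  | nil =>
    intro a z hn hw huM hv hX
    simp only [List.nil_append, List.mem_cons, List.not_mem_nil, or_false, not_or] at hw huM
    have hab : a ≠ z := by
      intro h; subst h; simp at hn
    have k := kk_eq hgp (g := w) (z := a) (w := z) (a := u) hw.1 hw.2 hab hwu.symm
      huM.1 huM.2
    have k2 : xx p w u a z = 0 := xi_false (hX a z (Or.inl ⟨rfl, rfl⟩))
    rw [k2, zero_add] at k
    show tt p w a z u + 0 = _
    rw [add_zero, k]
    exact ho_kk hgp hwu (Ne.symm huM.1) (Ne.symm huM.2) (Ne.symm hw.1) (Ne.symm hw.2) hab hu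
      (hv a (by simp)) (hv z (by simp))
  | cons b M ih =>
    intro a z hn hw huM hv hX
    have hn' : ((b :: (M ++ [z])) : List α).Nodup := (List.nodup_cons.1 hn).2
    have hw' : w ∉ b :: (M ++ [z]) := fun h => hw (List.mem_cons_of_mem _ h)
    have hu' : u ∉ b :: (M ++ [z]) := fun h => huM (List.mem_cons_of_mem _ h)
    have hi := ih b z hn' hw' hu' (fun t ht => hv t (List.mem_cons_of_mem _ ht))
      (fun c d hcd => hX c d (Or.inr (Or.inr hcd)))
    have hwa : w ≠ a := fun h => hw (by rw [h]; exact List.mem_cons_self)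
    have hua : u ≠ a := fun h => huM (by rw [h]; exact List.mem_cons_self)
    have hwb : w ≠ b := fun h => hw' (by rw [h]; exact List.mem_cons_self)
    have hub : u ≠ b := fun h => hu' (by rw [h]; exact List.mem_cons_self)
    have hab : a ≠ b := by
      intro h; subst h
      exact (List.nodup_cons.1 hn).1 List.mem_cons_self
    have k := kk_eq hgp (g := w) (z := a) (w := b) (a := u) hwa hwb hab hwu.symm hua hub
    have k2 : xx p w u a b = 0 := xi_false (hX a b (Or.inl ⟨rfl, rfl⟩))
    rw [k2, zero_add] at k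
    have k3 := ho_kk hgp hwu (Ne.symm hua) (Ne.symm hub) (Ne.symm hwa) (Ne.symm hwb) hab hu
      (hv a List.mem_cons_self) (hv b (List.mem_cons_of_mem _ List.mem_cons_self))
    show tt p w a b u + fan p w (b :: (M ++ [z])) u = _
    rw [k, k3, hi]
    generalize xi (0 < o p w a u) = x1
    generalize xi (0 < o p w b u) = x2
    generalize xi (0 < o p w z u) = x3
    revert x1 x2 x3
    decide

private theorem ho_zero (hgp : GP p) {w r y : α} (hwr : w ≠ r) (hyr : y ≠ r) (M : List α)
    (hw : w ∉ M) (hr : r ∉ M) (hwy : 0 ≤ o p r y w) (hy : ∀ t ∈ M, 0 ≤ o p r y t) :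
    fan p w M r = 0 := by
  induction M with
  | nil => rfl
  | cons a M ih =>
    cases M with
    | nil => rfl
    | cons b M =>
      have hi := ih (fun h => hw (List.mem_cons_of_mem _ h))
        (fun h => hr (List.mem_cons_of_mem _ h)) (fun t ht => hy t (List.mem_cons_of_mem _ ht))
      have ha := hy a List.mem_cons_self
      have hb := hy b (List.mem_cons_of_mem _ List.mem_cons_self)
      have hwa : w ≠ a := fun h => hw (by rw [h]; exact List.mem_cons_self)
      have hra : r ≠ a := fun h => hr (by rw [h]; exact List.mem_cons_self)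
      rw [fan_cons, hi, add_zero]
      apply xi_false
      have key : o p a b r * o p r y w + o p b w r * o p r y a + o p w a r * o p r y b = 0 := by
        have k := o_bary p w a b r y r
        rw [o_self2, mul_zero] at k
        linarith
      have fin : o p r y w = 0 → o p r y a = 0 → False := by
        intro h1 h2
        by_cases hyw : y = w
        · rw [hyw] at h2
          exact hgp.ne r w a (Ne.symm hwr) hwa hra h2
        · exact hgp.ne r y w (Ne.symm hyr) hyw (Ne.symm hwr) h1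
      rintro (⟨h1, h2, h3⟩ | ⟨h1, h2, h3⟩)
      · have m1 := mul_nonneg h2.le hwy
        have m2 := mul_nonneg h3.le ha
        have m3 := mul_nonneg h1.le hb
        have z1 : o p a b r * o p r y w = 0 := by linarith
        have z2 : o p b w r * o p r y a = 0 := by linarith
        exact fin ((mul_eq_zero.1 z1).resolve_left (ne_of_gt h2))
          ((mul_eq_zero.1 z2).resolve_left (ne_of_gt h3))
      · have m1 := mul_nonpos_of_nonpos_of_nonneg h2.le hwy
        have m2 := mul_nonpos_of_nonpos_of_nonneg h3.le ha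
        have m3 := mul_nonpos_of_nonpos_of_nonneg h1.le hb
        have z1 : o p a b r * o p r y w = 0 := by linarith
        have z2 : o p b w r * o p r y a = 0 := by linarith
        exact fin ((mul_eq_zero.1 z1).resolve_left (ne_of_lt h2))
          ((mul_eq_zero.1 z2).resolve_left (ne_of_lt h3))

private theorem ho_zero_mir (hgp : GP p) {w r y : α} (hwr : w ≠ r) (hyr : y ≠ r) (M : List α)
    (hw : w ∉ M) (hr : r ∉ M) (hwy : 0 ≤ o p y r w) (hy : ∀ t ∈ M, 0 ≤ o p y r t) :
    fan p w M r = 0 := by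
  have h := ho_zero (p := mir p) (GP_mir hgp) hwr hyr M hw hr
    (by rw [o_mir, ← o_swap]; exact hwy) (fun t ht => by rw [o_mir, ← o_swap]; exact hy t ht)
  have e : ∀ K : List α, fan (mir p) w K r = fan p w K r := by
    intro K
    induction K with
    | nil => rfl
    | cons a K ih =>
      cases K with
      | nil => rfl
      | cons b K =>
        rw [fan_cons, fan_cons, ih]
        congr 1
        exact xi_congr InTri_mir
  rw [← e]; exact h

/-- `r` lies on the boundary of the hull of the entries of `L` -/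
def HullL (p : α → ℝ × ℝ) (L : List α) (r : α) : Prop :=
  ∃ y, y ≠ r ∧ ((∀ t ∈ L, 0 ≤ o p r y t) ∨ (∀ t ∈ L, 0 ≤ o p y r t))

theorem hullL_mir {L : List α} {r : α} (h : HullL p L r) : HullL (mir p) L r := by
  obtain ⟨y, hy, h | h⟩ := h
  · exact ⟨y, hy, Or.inr fun t ht => by rw [o_mir, ← o_swap]; exact h t ht⟩
  · exact ⟨y, hy, Or.inl fun t ht => by rw [o_mir, ← o_swap]; exact h t ht⟩

/-- order of hull vertices on a plane path: `z`, `w`, `v` consecutive on the hull, the path from
the hull vertex `r` to `z` does not use the edge `w v` in this direction -/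
theorem hull_ordL (hgp : GP p) {r w v z : α} {A B : List α}
    (hn : (r :: (A ++ w :: v :: (B ++ [z]))).Nodup)
    (hp : Plane p (Ed (r :: (A ++ w :: v :: (B ++ [z])))))
    (hzw : ∀ t ∈ r :: (A ++ w :: v :: (B ++ [z])), 0 ≤ o p z w t)
    (hwv : ∀ t ∈ r :: (A ++ w :: v :: (B ++ [z])), 0 ≤ o p w v t)
    (hr : HullL p (r :: (A ++ w :: v :: (B ++ [z]))) r) : False := by
  have hn1 : ((r :: A) ++ (w :: (v :: (B ++ [z])))).Nodup := by
    simpa using hn
  obtain ⟨hn2, hn3, hd⟩ := List.nodup_append.1 hn1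
  have hwM : w ∉ v :: (B ++ [z]) := (List.nodup_cons.1 hn3).1
  have hnM : (v :: (B ++ [z])).Nodup := (List.nodup_cons.1 hn3).2
  obtain ⟨C, u, hC⟩ : ∃ C u, r :: A = C ++ [u] := by
    rcases List.eq_nil_or_concat (r :: A) with h | ⟨C, u, h⟩
    · exact absurd h (List.cons_ne_nil r A)
    · exact ⟨C, u, by rw [h, List.concat_eq_append]⟩
  have hu1 : u ∈ r :: A := by rw [hC]; simp
  have hL : r :: (A ++ w :: v :: (B ++ [z])) = (r :: A) ++ w :: (v :: (B ++ [z])) := by simp
  have hmA : ∀ t ∈ r :: A, t ∈ r :: (A ++ w :: v :: (B ++ [z])) := by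
    intro t ht; rw [hL]; exact List.mem_append_left _ ht
  have hmM : ∀ t ∈ v :: (B ++ [z]), t ∈ r :: (A ++ w :: v :: (B ++ [z])) := by
    intro t ht; rw [hL]; exact List.mem_append_right _ (List.mem_cons_of_mem _ ht)
  have hdA : ∀ t ∈ r :: A, t ∉ w :: (v :: (B ++ [z])) := fun t ht h => hd t ht t h rfl
  have hru : ∀ t ∈ r :: A, t ≠ w := fun t ht h => hdA t ht (by rw [h]; exact List.mem_cons_self)
  have huM : u ∉ v :: (B ++ [z]) := fun h => hdA u hu1 (List.mem_cons_of_mem _ h)
  have huw : w ≠ u := Ne.symm (hru u hu1)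
  have huv : v ≠ u := fun h => huM (by rw [← h]; exact List.mem_cons_self)
  have hwv' : w ≠ v := fun h => hwM (by rw [h]; exact List.mem_cons_self)
  have hzM : z ∈ v :: (B ++ [z]) := by simp
  have hwz : w ≠ z := fun h => hwM (by rw [h]; exact hzM)
  have hzu : z ≠ u := fun h => huM (by rw [← h]; exact hzM)
  -- signs at `u`
  have s1 : 0 < o p w v u :=
    lt_of_le_of_ne (hwv u (hmA u hu1)) (Ne.symm (hgp.ne w v u hwv' huv huw))
  have s2 : 0 < o p z w u :=
    lt_of_le_of_ne (hzw u (hmA u hu1)) (Ne.symm (hgp.ne z w u (Ne.symm hwz) huw hzu))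
  -- edges
  have eL : r :: (A ++ w :: v :: (B ++ [z])) = C ++ u :: w :: (v :: (B ++ [z])) := by
    rw [hL, hC]; simp
  have euw : Ed (r :: (A ++ w :: v :: (B ++ [z]))) w u := by
    rw [eL, ed_mid]; exact Or.inr (Or.inr (Or.inl ⟨rfl, rfl⟩))
  have eM : ∀ c d, Ed (v :: (B ++ [z])) c d → Ed (r :: (A ++ w :: v :: (B ++ [z]))) c d := by
    intro c d h
    rw [hL, ed_mid]
    exact Or.inr (Or.inr (Or.inr h))
  have ewv : Ed (r :: (A ++ w :: v :: (B ++ [z]))) w v := by
    rw [hL, ed_mid]
    exact Or.inr (Or.inl ⟨rfl, rfl⟩)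
  have eA : ∀ c d, Ed (r :: A) c d → Ed (r :: (A ++ w :: v :: (B ++ [z]))) c d := by
    intro c d h
    have h2 : Ed ((r :: A) ++ [w]) c d := by
      rw [hC] at h ⊢
      rw [ed_snoc]; exact Or.inl h
    rw [hL, ed_mid]
    exact Or.inl h2
  -- inside parity of `u`
  have f1 := ho_fan hgp huw s1 B v z hnM hwM huM (fun t ht => hwv t (hmM t ht))
    (fun c d hcd => hp w u c d euw (eM c d hcd))
  have x1 : xi (0 < o p w v u) = 1 := xi_true s1
  have x2 : xi (0 < o p w z u) = 0 := xi_false (by rw [o_swap p z w u]; linarith)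
  rw [x1, x2, add_zero] at f1
  -- outside parity of `r`
  have hrA : r ∈ r :: A := List.mem_cons_self
  have hrM : r ∉ v :: (B ++ [z]) := fun h => hdA r hrA (List.mem_cons_of_mem _ h)
  have hwL : w ∈ r :: (A ++ w :: v :: (B ++ [z])) := by
    rw [hL]; exact List.mem_append_right _ List.mem_cons_self
  have f0 : fan p w (v :: (B ++ [z])) r = 0 := by
    obtain ⟨y, hy, h | h⟩ := hr
    · exact ho_zero hgp (Ne.symm (hru r hrA)) hy _ hwM hrM (h w hwL)
        (fun t ht => h t (hmM t ht))
    · exact ho_zero_mir hgp (Ne.symm (hru r hrA)) hy _ hwM hrM (h w hwL)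
        (fun t ht => h t (hmM t ht))
  -- constant along `r :: A`
  have f2 := jor_path hgp w (v :: (B ++ [z])) A (z := r) (w := u) hdA ?_ hu1
  · rw [f0, f1] at f2
    exact absurd f2 (by decide)
  · intro c d hcd a b hab hX
    have hc : c ∈ r :: A := ed_mem hcd
    have hd' : d ∈ r :: A := ed_mem' hcd
    have hab' : (a = w ∧ b = v) ∨ (a = v ∧ b = w) ∨ Ed (v :: (B ++ [z])) a b ∨
        (a = z ∧ b = w) ∨ (a = w ∧ b = z) := by
      have h1 : w :: ((v :: (B ++ [z])) ++ [w]) = w :: v :: ((B ++ [z]) ++ [w]) := by simp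
      rw [h1] at hab
      rcases hab with h | h | h
      · exact Or.inl h
      · exact Or.inr (Or.inl h)
      · have h2 : v :: ((B ++ [z]) ++ [w]) = (v :: B) ++ [z, w] := by simp
        rw [h2, ed_snoc2] at h
        rcases h with h | h | h
        · exact Or.inr (Or.inr (Or.inl h))
        · exact Or.inr (Or.inr (Or.inr (Or.inl h)))
        · exact Or.inr (Or.inr (Or.inr (Or.inr h)))
    have hh : ¬ X p z w c d := by
      rintro ⟨h1, _⟩
      have := mul_nonneg (hzw c (hmA c hc)) (hzw d (hmA d hd'))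
      linarith
    rcases hab' with ⟨rfl, rfl⟩ | ⟨rfl, rfl⟩ | h | ⟨rfl, rfl⟩ | ⟨rfl, rfl⟩
    · exact hp _ _ _ _ ewv (eA c d hcd) hX
    · exact hp _ _ _ _ ewv (eA c d hcd) (X_sw1.1 hX)
    · exact hp _ _ _ _ (eM a b h) (eA c d hcd) hX
    · exact hh hX
    · exact hh (X_sw1.1 hX)

/-- mirror form of `hull_ordL` -/
theorem hull_ordR (hgp : GP p) {r w v z : α} {A B : List α}
    (hn : (r :: (A ++ w :: v :: (B ++ [z]))).Nodup)
    (hp : Plane p (Ed (r :: (A ++ w :: v :: (B ++ [z])))))
    (hzw : ∀ t ∈ r :: (A ++ w :: v :: (B ++ [z])), 0 ≤ o p w z t)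
    (hwv : ∀ t ∈ r :: (A ++ w :: v :: (B ++ [z])), 0 ≤ o p v w t)
    (hr : HullL p (r :: (A ++ w :: v :: (B ++ [z]))) r) : False :=
  hull_ordL (p := mir p) (GP_mir hgp) hn (Plane_mir.2 hp)
    (fun t ht => by rw [o_mir, ← o_swap]; exact hzw t ht)
    (fun t ht => by rw [o_mir, ← o_swap]; exact hwv t ht) (hullL_mir hr)

theorem hull_ord (hgp : GP p) {r w v z : α} {A B : List α}
    (hn : (r :: (A ++ w :: v :: (B ++ [z]))).Nodup)
    (hp : Plane p (Ed (r :: (A ++ w :: v :: (B ++ [z])))))
    (hzw : ∀ t ∈ r :: (A ++ w :: v :: (B ++ [z])), 0 ≤ o p z w t)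
    (hwv : ∀ t ∈ r :: (A ++ w :: v :: (B ++ [z])), 0 ≤ o p w v t) {y : α} (hy : y ≠ r)
    (hr : ∀ t ∈ r :: (A ++ w :: v :: (B ++ [z])), 0 ≤ o p r y t) : False :=
  hull_ordL hgp hn hp hzw hwv ⟨y, hy, Or.inl hr⟩

theorem hull_ord' (hgp : GP p) {r w v z : α} {A B : List α}
    (hn : (r :: (A ++ w :: v :: (B ++ [z]))).Nodup)
    (hp : Plane p (Ed (r :: (A ++ w :: v :: (B ++ [z])))))
    (hzw : ∀ t ∈ r :: (A ++ w :: v :: (B ++ [z])), 0 ≤ o p w z t)
    (hwv : ∀ t ∈ r :: (A ++ w :: v :: (B ++ [z])), 0 ≤ o p v w t) {y : α} (hy : y ≠ r)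
    (hr : ∀ t ∈ r :: (A ++ w :: v :: (B ++ [z])), 0 ≤ o p r y t) : False :=
  hull_ordR hgp hn hp hzw hwv ⟨y, hy, Or.inl hr⟩

end FPW
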