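import Pool.Agent.Lib.MP_deef39_co_Ord.Par

/-! # Eng module Z2: cycles mod 2

`C` is a finite list of segments. `cc p s t C`: number (mod 2) of the segments of `C` crossed by
the segment `s t`; `dg v C`: degree (mod 2) of `v`; `Cyc C`: all degrees are even.
`cc_tri`: the complement of a cycle has two sides. `cc_vert`: the side changes at a vertex `w`
exactly at the segments of `C` which end in `w`.
-/

set_option autoImplicit false

namespace FPW

variable {α : Type*} {p : α → ℝ × ℝ}

/-- crossings (mod 2) of the segment `s t` with the list `C` of segments -/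
noncomputable def cc (p : α → ℝ × ℝ) (s t : α) (C : List (α × α)) : ZMod 2 :=
  (C.map fun e => b2 (X p s t e.1 e.2)).sum

/-- degree (mod 2) of `v` in `C` -/
noncomputable def dg (v : α) (C : List (α × α)) : ZMod 2 :=
  (C.map fun e => b2 (e.1 = v) + b2 (e.2 = v)).sum

/-- every vertex has even degree -/
def Cyc (C : List (α × α)) : Prop := ∀ v, dg v C = 0

/-- `v` is an end of a segment of `C` -/
def OnC (v : α) (C : List (α × α)) : Prop := ∃ e ∈ C, e.1 = v ∨ e.2 = v

/-- the segments of `C` ending in `w` whose other end lies in the cone `w s t` (mod 2) -/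
noncomputable def rays (p : α → ℝ × ℝ) (w s t : α) (C : List (α × α)) : ZMod 2 :=
  (C.map fun e => b2 (e.1 = w ∧ Cone p w s t e.2) + b2 (e.2 = w ∧ Cone p w s t e.1)).sum

/-- the list of edges of a path -/
def pe : List α → List (α × α)
  | a :: b :: l => (a, b) :: pe (b :: l)
  | [_] => []
  | [] => []

/-! ## basic facts -/

@[simp] theorem cc_nil {s t : α} : cc p s t [] = 0 := rfl

theorem cc_cons {s t : α} {e : α × α} {C : List (α × α)} :
    cc p s t (e :: C) = b2 (X p s t e.1 e.2) + cc p s t C := by
  simp [cc]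

theorem cc_append {s t : α} {C D : List (α × α)} :
    cc p s t (C ++ D) = cc p s t C + cc p s t D := by
  simp [cc]

theorem cc_perm {s t : α} {C D : List (α × α)} (h : C.Perm D) : cc p s t C = cc p s t D :=
  (h.map _).sum_eq

theorem cc_comm {s t : α} {C : List (α × α)} : cc p s t C = cc p t s C := by
  unfold cc
  congr 1
  exact List.map_congr_left fun e _ => b2_congr X_sw1

theorem cc_self {s : α} {C : List (α × α)} : cc p s s C = 0 := by
  unfold cc
  rw [List.map_congr_left (g := fun _ => (0 : ZMod 2)) fun e _ =>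
    b2_false fun h => (X_ne h).1 rfl]
  simp

/-- a segment which crosses nothing -/
theorem cc_free {s t : α} {C : List (α × α)} (h : ∀ e ∈ C, ¬ X p s t e.1 e.2) :
    cc p s t C = 0 := by
  unfold cc
  rw [List.map_congr_left (g := fun _ => (0 : ZMod 2)) fun e he => b2_false (h e he)]
  simp

@[simp] theorem dg_nil {v : α} : dg v ([] : List (α × α)) = 0 := rfl

theorem dg_cons {v : α} {e : α × α} {C : List (α × α)} :
    dg v (e :: C) = b2 (e.1 = v) + b2 (e.2 = v) + dg v C := by
  simp [dg]

theorem dg_append {v : α} {C D : List (α × α)} : dg v (C ++ D) = dg v C + dg v D := by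
  simp [dg]

theorem dg_perm {v : α} {C D : List (α × α)} (h : C.Perm D) : dg v C = dg v D :=
  (h.map _).sum_eq

theorem cyc_append {C D : List (α × α)} (hC : Cyc C) (hD : Cyc D) : Cyc (C ++ D) := by
  intro v
  rw [dg_append, hC v, hD v, add_zero]

theorem cyc_perm {C D : List (α × α)} (h : C.Perm D) (hC : Cyc C) : Cyc D := by
  intro v
  rw [← dg_perm h]
  exact hC v

/-- a sum over the ends of the segments of a cycle is zero -/
theorem sum_cyc {C : List (α × α)} (hC : Cyc C) (f : α → ZMod 2) :
    (C.map fun e => f e.1 + f e.2).sum = 0 := by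
  classical
  have key : ∀ (C : List (α × α)) (V : Finset α), (∀ e ∈ C, e.1 ∈ V ∧ e.2 ∈ V) →
      (C.map fun e => f e.1 + f e.2).sum = ∑ v ∈ V, f v * dg v C := by
    intro C
    induction C with
    | nil => intro V _; simp
    | cons e C ih =>
      intro V hV
      have h1 := ih V fun e he => hV e (List.mem_cons_of_mem _ he)
      obtain ⟨h2, h3⟩ := hV e List.mem_cons_self
      have h4 : ∀ x ∈ V, f x = ∑ v ∈ V, f v * b2 (x = v) := by
        intro x hx
        rw [Finset.sum_eq_single x]
        · rw [b2_true rfl, mul_one]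
        · intro v _ hv
          rw [b2_false fun h => hv h.symm, mul_zero]
        · intro h
          exact absurd hx h
      rw [List.map_cons, List.sum_cons, h1]
      rw [h4 e.1 h2, h4 e.2 h3, ← Finset.sum_add_distrib, ← Finset.sum_add_distrib]
      refine Finset.sum_congr rfl fun v _ => ?_
      rw [dg_cons]
      ring
  rw [key C ((C.map Prod.fst ++ C.map Prod.snd).toFinset) (by
    intro e he
    simp only [List.mem_toFinset, List.mem_append, List.mem_map]
    exact ⟨Or.inl ⟨e, he, rfl⟩, Or.inr ⟨e, he, rfl⟩⟩)]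
  refine Finset.sum_eq_zero fun v _ => ?_
  rw [hC v, mul_zero]

/-! ## the two sides of a cycle -/

private theorem sum3 (C : List (α × α)) (f g h k : α × α → ZMod 2)
    (hk : ∀ e ∈ C, f e + g e + h e = k e) :
    (C.map f).sum + (C.map g).sum + (C.map h).sum = (C.map k).sum := by
  induction C with
  | nil => simp
  | cons e C ih =>
    have h1 := ih fun e he => hk e (List.mem_cons_of_mem _ he)
    have h2 := hk e List.mem_cons_self
    simp only [List.map_cons, List.sum_cons]
    rw [← h1, ← h2]
    ring

theorem cc_tri (hgp : GP p) {s t r : α} {C : List (α × α)} (hC : Cyc C)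
    (hs : ¬ OnC s C) (ht : ¬ OnC t C) (hr : ¬ OnC r C) :
    cc p s t C + cc p t r C + cc p s r C = 0 := by
  by_cases h1 : s = t
  · subst h1
    rw [cc_self, zero_add]
    exact CharTwo.add_self_eq_zero _
  by_cases h2 : t = r
  · subst h2
    rw [cc_self, add_zero]
    exact CharTwo.add_self_eq_zero _
  by_cases h3 : s = r
  · subst h3
    rw [cc_self, cc_comm (s := t), add_zero]
    exact CharTwo.add_self_eq_zero _
  rw [cc_comm (s := s) (t := r)]
  have h4 := sum3 C (fun e => b2 (X p s t e.1 e.2)) (fun e => b2 (X p t r e.1 e.2))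
    (fun e => b2 (X p r s e.1 e.2)) (fun e => b2 (InTri p s t r e.1) + b2 (InTri p s t r e.2))
    (by
      intro e he
      have ha : ∀ u : α, ¬ OnC u C → u ≠ e.1 ∧ u ≠ e.2 := fun u hu =>
        ⟨fun h => hu ⟨e, he, Or.inl h.symm⟩, fun h => hu ⟨e, he, Or.inr h.symm⟩⟩
      exact tri_par hgp h1 h2 h3 ⟨(ha s hs).1, (ha t ht).1, (ha r hr).1⟩
        ⟨(ha s hs).2, (ha t ht).2, (ha r hr).2⟩)
  unfold cc
  rw [h4]
  exact sum_cyc hC fun v => b2 (InTri p s t r v)

/-- transitivity of `same side` -/
theorem cc_trans (hgp : GP p) {s t r : α} {C : List (α × α)} (hC : Cyc C)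
    (hs : ¬ OnC s C) (ht : ¬ OnC t C) (hr : ¬ OnC r C) (h1 : cc p s t C = 0)
    (h2 : cc p t r C = 0) : cc p s r C = 0 := by
  have h := cc_tri hgp hC hs ht hr
  rw [h1, h2, zero_add, zero_add] at h
  exact h

/-- a path off the cycle which crosses nothing stays on one side -/
theorem cc_walk (hgp : GP p) {C : List (α × α)} (hC : Cyc C) (m : List α) : ∀ (c : α),
    (∀ t ∈ c :: m, ¬ OnC t C) → (∀ u v, Ed (c :: m) u v → cc p u v C = 0) →
    ∀ t ∈ c :: m, cc p c t C = 0 := by
  induction m with
  | nil =>
    intro c _ _ t ht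
    rw [List.mem_singleton] at ht
    rw [ht]
    exact cc_self
  | cons d m ih =>
    intro c hc hE t ht
    rcases List.mem_cons.1 ht with h1 | h1
    · rw [h1]
      exact cc_self
    · have h2 := ih d (fun t ht => hc t (List.mem_cons_of_mem _ ht))
        (fun u v h => hE u v (Or.inr (Or.inr h))) t h1
      exact cc_trans hgp hC (hc c List.mem_cons_self)
        (hc d (List.mem_cons_of_mem _ List.mem_cons_self)) (hc t (List.mem_cons_of_mem _ h1))
        (hE c d (Or.inl ⟨rfl, rfl⟩)) h2

private theorem notInTri_self {w s t : α} : ¬ InTri p w s t w := by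
  unfold InTri
  have h1 : o p w s w = 0 := by simp [o]
  rintro (⟨h, -, -⟩ | ⟨h, -, -⟩) <;> linarith

private theorem notCone_self {w s t : α} : ¬ Cone p w s t w := by
  unfold Cone
  have h1 : o p w s w = 0 := by simp [o]
  rintro (⟨-, h, -⟩ | ⟨-, h, -⟩) <;> linarith

/-- the side changes at the vertex `w` exactly at the rays of the cycle -/
theorem cc_vert (hgp : GP p) {w s t : α} {C : List (α × α)} (hC : Cyc C) (hws : w ≠ s)
    (hwt : w ≠ t) (hst : s ≠ t) (hs : ¬ OnC s C) (ht : ¬ OnC t C) :
    cc p w s C + cc p s t C + cc p t w C = rays p w s t C := by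
  have h4 := sum3 C (fun e => b2 (X p w s e.1 e.2)) (fun e => b2 (X p s t e.1 e.2))
    (fun e => b2 (X p t w e.1 e.2))
    (fun e => (b2 (e.1 = w ∧ Cone p w s t e.2) + b2 (e.2 = w ∧ Cone p w s t e.1)) +
      (b2 (InTri p w s t e.1) + b2 (InTri p w s t e.2)))
    (by
      intro e he
      have ha : ∀ u : α, ¬ OnC u C → u ≠ e.1 ∧ u ≠ e.2 := fun u hu =>
        ⟨fun h => hu ⟨e, he, Or.inl h.symm⟩, fun h => hu ⟨e, he, Or.inr h.symm⟩⟩
      obtain ⟨hs1, hs2⟩ := ha s hs
      obtain ⟨ht1, ht2⟩ := ha t ht
      obtain ⟨a, b⟩ := e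
      simp only at hs1 hs2 ht1 ht2 ⊢
      by_cases haw : a = w
      · subst haw
        by_cases hbw : b = a
        · subst hbw
          rw [b2_false (P := X p b s b b) fun h => (X_ne h).2.1 rfl,
            b2_false (P := X p s t b b) fun h => (X_ne h).2.1 rfl,
            b2_false (P := X p t b b b) fun h => (X_ne h).2.1 rfl,
            b2_false (P := InTri p b s t b) notInTri_self,
            b2_false (P := b = b ∧ Cone p b s t b) fun h => notCone_self h.2]
          simp
        · have h5 := cone_par hgp hws hwt hst (a := b) ⟨fun h => hbw h.symm, hs2, ht2⟩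
          rw [b2_false (P := X p a s a b) not_X_of_eq1, b2_false (P := X p t a a b) not_X_of_eq3,
            b2_false (P := InTri p a s t a) notInTri_self,
            b2_false (P := b = a ∧ Cone p a s t a) (fun h => hbw h.1)]
          have h6 : b2 (a = a ∧ Cone p a s t b) = b2 (Cone p a s t b) :=
            b2_congr ⟨fun h => h.2, fun h => ⟨rfl, h⟩⟩
          rw [h6, ← h5]
          have h7 := b2_add_self (InTri p a s t b)
          linear_combination -h7
      · by_cases hbw : b = w
        · subst hbw
          have h5 := cone_par hgp hws hwt hst (a := a) ⟨fun h => haw h.symm, hs1, ht1⟩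
          rw [b2_false (P := X p b s a b) not_X_of_eq2, b2_false (P := X p t b a b) not_X_of_eq4,
            b2_false (P := InTri p b s t b) notInTri_self,
            b2_false (P := a = b ∧ Cone p b s t b) (fun h => haw h.1),
            b2_congr (X_sw2 (p := p) (a := s) (b := t) (c := a) (d := b))]
          have h6 : b2 (b = b ∧ Cone p b s t a) = b2 (Cone p b s t a) :=
            b2_congr ⟨fun h => h.2, fun h => ⟨rfl, h⟩⟩
          rw [h6, ← h5]
          have h7 := b2_add_self (InTri p b s t a)
          linear_combination -h7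
        · have h5 := tri_par hgp hws hst hwt (a := a) (b := b)
            ⟨fun h => haw h.symm, hs1, ht1⟩ ⟨fun h => hbw h.symm, hs2, ht2⟩
          rw [b2_false (P := a = w ∧ Cone p w s t b) (fun h => haw h.1),
            b2_false (P := b = w ∧ Cone p w s t a) (fun h => hbw h.1), h5]
          ring)
  have h5 := sum_cyc hC fun v => b2 (InTri p w s t v)
  have h6 := sum3 C (fun e => b2 (e.1 = w ∧ Cone p w s t e.2) + b2 (e.2 = w ∧ Cone p w s t e.1))
    (fun e => b2 (InTri p w s t e.1) + b2 (InTri p w s t e.2)) (fun _ => 0)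
    (fun e => (b2 (e.1 = w ∧ Cone p w s t e.2) + b2 (e.2 = w ∧ Cone p w s t e.1)) +
      (b2 (InTri p w s t e.1) + b2 (InTri p w s t e.2))) (fun e _ => by ring)
  unfold cc rays
  rw [h4, ← h6, h5]
  simp

/-- at a point `w` off the cycle -/
theorem rays_off {w s t : α} {C : List (α × α)} (hw : ¬ OnC w C) : rays p w s t C = 0 := by
  unfold rays
  rw [List.map_congr_left (g := fun _ => (0 : ZMod 2)) fun e he => by
    rw [b2_false fun h => hw ⟨e, he, Or.inl h.1⟩, b2_false fun h => hw ⟨e, he, Or.inr h.1⟩,
      add_zero]]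
  simp

/-! ## paths -/

theorem pe_cons2 {a b : α} {l : List α} : pe (a :: b :: l) = (a, b) :: pe (b :: l) := rfl

theorem cc_pe {s t : α} (l : List α) : cc p s t (pe l) = xc p s t l := by
  match l with
  | [] => rfl
  | [_] => rfl
  | a :: b :: l => rw [pe_cons2, cc_cons, xc_cons2, cc_pe (b :: l)]

theorem ed_pe {a b : α} (l : List α) : Ed l a b ↔ (a, b) ∈ pe l ∨ (b, a) ∈ pe l := by
  match l with
  | [] => simp [pe, Ed]
  | [_] => simp [pe, Ed]
  | c :: d :: l =>
    have h := ed_pe (a := a) (b := b) (d :: l)
    rw [ed_cons2, h, pe_cons2]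
    simp only [List.mem_cons, Prod.mk.injEq]
    tauto

theorem pe_mem {e : α × α} (l : List α) (h : e ∈ pe l) : e.1 ∈ l ∧ e.2 ∈ l := by
  match l with
  | [] => simp [pe] at h
  | [_] => simp [pe] at h
  | c :: d :: l =>
    rw [pe_cons2] at h
    rcases List.mem_cons.1 h with h1 | h1
    · subst h1
      simp
    · have h2 := pe_mem (d :: l) h1
      exact ⟨List.mem_cons_of_mem _ h2.1, List.mem_cons_of_mem _ h2.2⟩

theorem dg_pe {v a : α} (l : List α) :
    dg v (pe (a :: l)) = b2 (a = v) + b2 ((a :: l).getLast (List.cons_ne_nil a l) = v) := by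
  induction l generalizing a with
  | nil => simp only [pe, dg_nil, List.getLast_singleton, b2_add_self]
  | cons b l ih =>
    rw [pe_cons2, dg_cons, ih, List.getLast_cons_cons]
    have h := b2_add_self (b = v)
    linear_combination h

/-- a closed path is a cycle -/
theorem cyc_closed {a : α} {l : List α} : Cyc (pe (a :: (l ++ [a]))) := by
  intro v
  have h2 : (a :: (l ++ [a])).getLast (List.cons_ne_nil a (l ++ [a])) = a := by
    simp
  rw [dg_pe, h2]
  exact b2_add_self _

/-- two paths with the same ends form a cycle -/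
theorem cyc_two {a b : α} {l m : List α} (hl : (a :: l).getLast (List.cons_ne_nil a l) = b)
    (hm : (a :: m).getLast (List.cons_ne_nil a m) = b) : Cyc (pe (a :: l) ++ pe (a :: m)) := by
  intro v
  rw [dg_append, dg_pe, dg_pe, hl, hm]
  have h1 := b2_add_self (a = v)
  have h2 := b2_add_self (b = v)
  linear_combination h1 + h2

/-- the sum of two cycles with a common segment, the segment deleted twice -/
theorem cyc_glue {C D : List (α × α)} {e : α × α} (hC : Cyc (e :: C)) (hD : Cyc (e :: D)) :
    Cyc (C ++ D) := by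
  intro v
  have h1 := hC v
  have h2 := hD v
  rw [dg_cons] at h1 h2
  rw [dg_append]
  have h3 := b2_add_self (e.1 = v)
  have h4 := b2_add_self (e.2 = v)
  linear_combination h1 + h2 - h3 - h4

end FPW
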