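import Pool.Agent.Lib.MP_deef39_co_Eng.Mv
import Pool.Agent.Lib.MP_deef39_co_Eng.Z2

/-! # Eng module LocLab: the label of a wall is a local function of the path

`L` path, `c d` a wall (a segment, not an edge of the path). `SdL p L c d` / `SdR p L c d`: at the
inner vertex `c` the direction of `d` is on the left / right side of the path. `SS`, `OS`: the wall
is on the same side / on opposite sides at its two ends. `Lbl p L c d x`: the label ray of `c` is
the path edge `c x`: the edge to the predecessor if `c` is before `d`, or if `d` is before `c` and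
the wall is on opposite sides; the edge to the successor if `d` is before `c` and the wall is on
the same side. `lab_rot`: a rotation does not change the label.
-/

set_option autoImplicit false

namespace FPW

variable {α : Type*} {p : α → ℝ × ℝ}

/-- `d` lies on the left side of the path `L` at its inner vertex `c` -/
def SdL (p : α → ℝ × ℝ) (L : List α) (c d : α) : Prop :=
  ∃ x y, Nx L x c ∧ Nx L c y ∧ Bt p c y d x

/-- `d` lies on the right side of the path `L` at its inner vertex `c` -/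
def SdR (p : α → ℝ × ℝ) (L : List α) (c d : α) : Prop :=
  ∃ x y, Nx L x c ∧ Nx L c y ∧ Bt p c x d y

/-- the wall `c d` is on the same side of the path at its two ends -/
def SS (p : α → ℝ × ℝ) (L : List α) (c d : α) : Prop :=
  (SdL p L c d ∧ SdL p L d c) ∨ (SdR p L c d ∧ SdR p L d c)

/-- the wall `c d` is on opposite sides of the path at its two ends -/
def OS (p : α → ℝ × ℝ) (L : List α) (c d : α) : Prop :=
  (SdL p L c d ∧ SdR p L d c) ∨ (SdR p L c d ∧ SdL p L d c)

/-- the label ray of `c` for the wall `c d` is the path edge `c x` -/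
def Lbl (p : α → ℝ × ℝ) (L : List α) (c d x : α) : Prop :=
  ([c, d].Sublist L ∧ Nx L x c) ∨ ([d, c].Sublist L ∧ SS p L c d ∧ Nx L c x) ∨
    ([d, c].Sublist L ∧ OS p L c d ∧ Nx L x c)

theorem nx_memb {L : List α} {x y : α} (h : Nx L x y) : x ∈ L ∧ y ∈ L := by
  obtain ⟨S, T, rfl⟩ := h
  simp

theorem sub_memb {L : List α} {x y : α} (h : [x, y].Sublist L) : x ∈ L ∧ y ∈ L :=
  ⟨h.subset (by simp), h.subset (by simp)⟩

/-- consecutive vertices of `A ++ v :: T` -/
theorem nx_split {A T : List α} {v x y : α} :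
    Nx (A ++ v :: T) x y ↔ Nx (A ++ [v]) x y ∨ (x = v ∧ T.head? = some y) ∨ Nx T x y := by
  rw [nx_mid]
  cases T with
  | nil =>
    have h1 : ¬ Nx [v] x y := nx_single
    have h2 : ¬ Nx ([] : List α) x y := fun h => by simpa using (nx_memb h).1
    simp [h1, h2]
  | cons t T =>
    rw [nx_cons2]
    simp only [List.head?_cons, Option.some.injEq]
    have : y = t ↔ t = y := ⟨Eq.symm, Eq.symm⟩
    tauto

section
variable {A T : List α} {v c d x : α}

theorem nx_left1 (hn : (A ++ v :: T).Nodup) (hc : c ∈ A) :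
    (Nx (A ++ v :: T) x c ↔ Nx (A ++ [v]) x c) ∧ (Nx (A ++ v :: T) c x ↔ Nx (A ++ [v]) c x) := by
  have h1 : c ∉ T := fun h => (List.nodup_append'.1 hn).2.2 hc (List.mem_cons_of_mem _ h)
  have h2 : c ≠ v := fun h => (List.nodup_append'.1 hn).2.2 hc (h ▸ List.mem_cons_self)
  rw [nx_split (T := T), nx_split (T := T)]
  refine ⟨⟨?_, Or.inl⟩, ⟨?_, Or.inl⟩⟩
  · rintro (h | ⟨-, h⟩ | h)
    · exact h
    · exact absurd (List.mem_of_head? h) h1
    · exact absurd (nx_memb h).2 h1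
  · rintro (h | ⟨h, -⟩ | h)
    · exact h
    · exact absurd h h2
    · exact absurd (nx_memb h).1 h1

theorem nx_right1 (hn : (A ++ v :: T).Nodup) (hc : c ∈ T) (hh : T.head? ≠ some c) :
    (Nx (A ++ v :: T) x c ↔ Nx T x c) ∧ (Nx (A ++ v :: T) c x ↔ Nx T c x) := by
  have h1 : c ∉ A ++ [v] := by
    intro h
    rcases List.mem_append.1 h with h | h
    · exact (List.nodup_append'.1 hn).2.2 h (List.mem_cons_of_mem _ hc)
    · rw [List.mem_singleton] at h
      rw [h] at hc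
      exact (List.nodup_cons.1 (List.nodup_append'.1 hn).2.1).1 hc
  have h2 : c ≠ v := fun h => h1 (by simp [h])
  rw [nx_split (T := T), nx_split (T := T)]
  refine ⟨⟨?_, fun h => Or.inr (Or.inr h)⟩, ⟨?_, fun h => Or.inr (Or.inr h)⟩⟩
  · rintro (h | ⟨-, h⟩ | h)
    · exact absurd (nx_memb h).2 h1
    · exact absurd h hh
    · exact h
  · rintro (h | ⟨h, -⟩ | h)
    · exact absurd (nx_memb h).1 h1
    · exact absurd h h2
    · exact h

/-- the order of two vertices -/
theorem sub_ll (hn : (A ++ v :: T).Nodup) (hc : c ∈ A ++ [v]) (hd : d ∈ A ++ [v]) :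
    [c, d].Sublist (A ++ v :: T) ↔ [c, d].Sublist (A ++ [v]) := by
  have e : A ++ v :: T = (A ++ [v]) ++ T := by simp
  rw [e] at hn ⊢
  have hdT : ∀ u ∈ A ++ [v], u ∉ T := fun u h1 h2 => (List.nodup_append'.1 hn).2.2 h1 h2
  constructor
  · intro h
    obtain ⟨l1, l2, h1, h2, h3⟩ := List.sublist_append_iff.1 h
    have h4 : l2 = [] := by
      cases l2 with
      | nil => rfl
      | cons u l2 =>
        exfalso
        have h5 : u ∈ T := h3.subset List.mem_cons_self
        have h6 : u ∈ [c, d] := by rw [h1]; simp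
        rcases List.mem_cons.1 h6 with h7 | h7
        · exact hdT c hc (h7 ▸ h5)
        · rw [List.mem_singleton] at h7
          exact hdT d hd (h7 ▸ h5)
    rw [h4, List.append_nil] at h1
    rw [h1]
    exact h2
  · intro h
    exact h.trans (List.sublist_append_left _ _)

theorem sub_rr (hn : (A ++ v :: T).Nodup) (hc : c ∈ T) (hd : d ∈ T) :
    [c, d].Sublist (A ++ v :: T) ↔ [c, d].Sublist T := by
  have e : A ++ v :: T = (A ++ [v]) ++ T := by simp
  rw [e] at hn ⊢
  have hdT : ∀ u ∈ A ++ [v], u ∉ T := fun u h1 h2 => (List.nodup_append'.1 hn).2.2 h1 h2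
  constructor
  · intro h
    obtain ⟨l1, l2, h1, h2, h3⟩ := List.sublist_append_iff.1 h
    have h4 : l1 = [] := by
      cases l1 with
      | nil => rfl
      | cons u l1 =>
        exfalso
        have h5 : u ∈ A ++ [v] := h2.subset List.mem_cons_self
        have h6 : u ∈ [c, d] := by rw [h1]; simp
        rcases List.mem_cons.1 h6 with h7 | h7
        · exact hdT u h5 (h7 ▸ hc)
        · rw [List.mem_singleton] at h7
          exact hdT u h5 (h7 ▸ hd)
    rw [h4, List.nil_append] at h1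
    rw [h1]
    exact h3
  · intro h
    exact h.trans (List.sublist_append_right _ _)

theorem sub_lr (hc : c ∈ A ++ [v]) (hd : d ∈ T) : [c, d].Sublist (A ++ v :: T) := by
  have e : A ++ v :: T = (A ++ [v]) ++ T := by simp
  rw [e]
  have h1 := (List.singleton_sublist.2 hc).append (List.singleton_sublist.2 hd)
  simpa using h1

theorem not_sub_rl (hn : (A ++ v :: T).Nodup) (hc : c ∈ A ++ [v]) (hd : d ∈ T) :
    ¬ [d, c].Sublist (A ++ v :: T) := by
  intro h
  have e : A ++ v :: T = (A ++ [v]) ++ T := by simp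
  rw [e] at hn h
  have hdT : ∀ u ∈ A ++ [v], u ∉ T := fun u h1 h2 => (List.nodup_append'.1 hn).2.2 h1 h2
  obtain ⟨l1, l2, h1, h2, h3⟩ := List.sublist_append_iff.1 h
  cases l1 with
  | nil =>
    rw [List.nil_append] at h1
    rw [← h1] at h3
    exact hdT c hc (h3.subset (by simp))
  | cons u l1 =>
    rw [List.cons_append, List.cons.injEq] at h1
    exact hdT d (h1.1 ▸ h2.subset List.mem_cons_self) hd

end

/-- **a rotation does not change the label**: `L = A ++ v :: (B ++ [z])` is rotated at `v`; `c` and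
`d` are not ends of the two paths, `c ≠ v`; if both are behind `v` the wall is on the same side at
its two ends; if `d = v`, the wall stays on its side at `v`. -/
theorem lab_rot {A B : List α} {v z c d x : α} (hn : (A ++ v :: (B ++ [z])).Nodup)
    (hc : c ∈ A ∨ (c ∈ B ∧ ¬ Nx (A ++ v :: (B ++ [z])) v c))
    (hd : d ∈ A ∨ d = v ∨ (d ∈ B ∧ ¬ Nx (A ++ v :: (B ++ [z])) v d))
    (hJ : c ∈ B → d ∈ B → SS p (A ++ v :: (B ++ [z])) c d)
    (hv : d = v → (SdL p (A ++ v :: (B ++ [z])) v c ↔ SdL p (A ++ v :: z :: B.reverse) v c) ∧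
      (SdR p (A ++ v :: (B ++ [z])) v c ↔ SdR p (A ++ v :: z :: B.reverse) v c)) :
    Lbl p (A ++ v :: (B ++ [z])) c d x ↔ Lbl p (A ++ v :: z :: B.reverse) c d x := by
  have eT : z :: B.reverse = (B ++ [z]).reverse := by simp
  rw [eT] at hv ⊢
  generalize hT : B ++ [z] = T at hn hc hd hJ hv ⊢
  have hn' : (A ++ v :: T.reverse).Nodup := by
    have h1 : (A ++ v :: T.reverse).Perm (A ++ v :: T) :=
      List.Perm.append_left _ (List.Perm.cons _ (List.reverse_perm _))
    exact h1.nodup_iff.2 hn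
  have hzT : T.reverse.head? = some z := by rw [← hT]; simp
  have hnT : T.Nodup := (List.nodup_cons.1 (List.nodup_append'.1 hn).2.1).2
  have hBz : ∀ u ∈ B, u ∈ T ∧ T.reverse.head? ≠ some u := by
    intro u hu
    refine ⟨by rw [← hT]; exact List.mem_append_left _ hu, ?_⟩
    rw [hzT]
    rintro h
    rw [Option.some.injEq] at h
    rw [← hT] at hnT
    exact (List.nodup_append'.1 hnT).2.2 hu (by simp [h])
  have hin : ∀ u, u ∈ B → ¬ Nx (A ++ v :: T) v u → T.head? ≠ some u := by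
    intro u hu h1 h2
    exact h1 (nx_split.2 (Or.inr (Or.inl ⟨rfl, h2⟩)))
  -- neighbours and sides
  have L1 : ∀ u ∈ A, ∀ y, (Nx (A ++ v :: T) y u ↔ Nx (A ++ v :: T.reverse) y u) ∧
      (Nx (A ++ v :: T) u y ↔ Nx (A ++ v :: T.reverse) u y) := by
    intro u hu y
    obtain ⟨h1, h2⟩ := nx_left1 (x := y) hn hu
    obtain ⟨h3, h4⟩ := nx_left1 (x := y) hn' hu
    exact ⟨h1.trans h3.symm, h2.trans h4.symm⟩
  have R1 : ∀ u, u ∈ B → ¬ Nx (A ++ v :: T) v u → ∀ y,
      (Nx (A ++ v :: T) y u ↔ Nx (A ++ v :: T.reverse) u y) ∧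
      (Nx (A ++ v :: T) u y ↔ Nx (A ++ v :: T.reverse) y u) := by
    intro u hu hu' y
    obtain ⟨h1, h2⟩ := nx_right1 (x := y) hn (hBz u hu).1 (hin u hu hu')
    obtain ⟨h3, h4⟩ := nx_right1 (x := y) hn' (List.mem_reverse.2 (hBz u hu).1) (hBz u hu).2
    rw [nx_reverse] at h3 h4
    exact ⟨h1.trans h4.symm, h2.trans h3.symm⟩
  have L2 : ∀ u ∈ A, ∀ w, (SdL p (A ++ v :: T) u w ↔ SdL p (A ++ v :: T.reverse) u w) ∧
      (SdR p (A ++ v :: T) u w ↔ SdR p (A ++ v :: T.reverse) u w) := by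
    intro u hu w
    constructor
    · constructor
      · rintro ⟨x, y, h1, h2, h3⟩
        exact ⟨x, y, (L1 u hu x).1.1 h1, (L1 u hu y).2.1 h2, h3⟩
      · rintro ⟨x, y, h1, h2, h3⟩
        exact ⟨x, y, (L1 u hu x).1.2 h1, (L1 u hu y).2.2 h2, h3⟩
    · constructor
      · rintro ⟨x, y, h1, h2, h3⟩
        exact ⟨x, y, (L1 u hu x).1.1 h1, (L1 u hu y).2.1 h2, h3⟩
      · rintro ⟨x, y, h1, h2, h3⟩
        exact ⟨x, y, (L1 u hu x).1.2 h1, (L1 u hu y).2.2 h2, h3⟩
  have R2 : ∀ u, u ∈ B → ¬ Nx (A ++ v :: T) v u → ∀ w,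
      (SdL p (A ++ v :: T) u w ↔ SdR p (A ++ v :: T.reverse) u w) ∧
      (SdR p (A ++ v :: T) u w ↔ SdL p (A ++ v :: T.reverse) u w) := by
    intro u hu hu' w
    constructor
    · constructor
      · rintro ⟨x, y, h1, h2, h3⟩
        exact ⟨y, x, (R1 u hu hu' y).2.1 h2, (R1 u hu hu' x).1.1 h1, h3⟩
      · rintro ⟨x, y, h1, h2, h3⟩
        exact ⟨y, x, (R1 u hu hu' y).1.2 h2, (R1 u hu hu' x).2.2 h1, h3⟩
    · constructor
      · rintro ⟨x, y, h1, h2, h3⟩
        exact ⟨y, x, (R1 u hu hu' y).2.1 h2, (R1 u hu hu' x).1.1 h1, h3⟩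
      · rintro ⟨x, y, h1, h2, h3⟩
        exact ⟨y, x, (R1 u hu hu' y).1.2 h2, (R1 u hu hu' x).2.2 h1, h3⟩
  -- sides of `d` in front
  have D2 : (d ∈ A ∨ d = v) → (SdL p (A ++ v :: T) d c ↔ SdL p (A ++ v :: T.reverse) d c) ∧
      (SdR p (A ++ v :: T) d c ↔ SdR p (A ++ v :: T.reverse) d c) := by
    rintro (h | h)
    · exact L2 d h c
    · rw [h]
      exact hv h
  have hAv : ∀ u, u ∈ A → u ∈ A ++ [v] := fun u h => List.mem_append_left _ h
  have hdv : (d ∈ A ∨ d = v) → d ∈ A ++ [v] := by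
    rintro (h | h)
    · exact hAv d h
    · rw [h]; simp
  have hd' : (d ∈ A ∨ d = v) ∨ (d ∈ B ∧ ¬ Nx (A ++ v :: T) v d) := or_assoc.2 hd
  rcases hc with hcA | ⟨hcB, hcn⟩
  · obtain ⟨c1, c2⟩ := L2 c hcA d
    obtain ⟨c3, c4⟩ := L1 c hcA x
    rcases hd' with hdA | ⟨hdB, hdn⟩
    · -- both in front
      obtain ⟨d1, d2⟩ := D2 hdA
      have s1 : [c, d].Sublist (A ++ v :: T) ↔ [c, d].Sublist (A ++ v :: T.reverse) :=
        (sub_ll hn (hAv c hcA) (hdv hdA)).trans (sub_ll hn' (hAv c hcA) (hdv hdA)).symm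
      have s2 : [d, c].Sublist (A ++ v :: T) ↔ [d, c].Sublist (A ++ v :: T.reverse) :=
        (sub_ll hn (hdv hdA) (hAv c hcA)).trans (sub_ll hn' (hdv hdA) (hAv c hcA)).symm
      unfold Lbl SS OS
      rw [s1, s2, c1, c2, c3, c4, d1, d2]
    · -- `c` in front, `d` behind
      have s1 := sub_lr (v := v) (hAv c hcA) (hBz d hdB).1
      have s2 := sub_lr (v := v) (hAv c hcA) (List.mem_reverse.2 (hBz d hdB).1)
      have s3 := not_sub_rl hn (hAv c hcA) (hBz d hdB).1
      have s4 := not_sub_rl hn' (hAv c hcA) (List.mem_reverse.2 (hBz d hdB).1)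
      constructor
      · rintro (⟨-, h⟩ | ⟨h, -⟩ | ⟨h, -⟩)
        · exact Or.inl ⟨s2, c3.1 h⟩
        · exact absurd h s3
        · exact absurd h s3
      · rintro (⟨-, h⟩ | ⟨h, -⟩ | ⟨h, -⟩)
        · exact Or.inl ⟨s1, c3.2 h⟩
        · exact absurd h s4
        · exact absurd h s4
  · obtain ⟨c1, c2⟩ := R2 c hcB hcn d
    obtain ⟨c3, c4⟩ := R1 c hcB hcn x
    rcases hd' with hdA | ⟨hdB, hdn⟩
    · -- `d` in front, `c` behind
      obtain ⟨d1, d2⟩ := D2 hdA
      have s1 := sub_lr (v := v) (hdv hdA) (hBz c hcB).1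
      have s2 := sub_lr (v := v) (hdv hdA) (List.mem_reverse.2 (hBz c hcB).1)
      have s3 := not_sub_rl hn (hdv hdA) (hBz c hcB).1
      have s4 := not_sub_rl hn' (hdv hdA) (List.mem_reverse.2 (hBz c hcB).1)
      constructor
      · rintro (⟨h, -⟩ | ⟨-, h1, h2⟩ | ⟨-, h1, h2⟩)
        · exact absurd h s3
        · refine Or.inr (Or.inr ⟨s2, ?_, c4.1 h2⟩)
          rcases h1 with ⟨h3, h4⟩ | ⟨h3, h4⟩
          · exact Or.inr ⟨c1.1 h3, d1.1 h4⟩
          · exact Or.inl ⟨c2.1 h3, d2.1 h4⟩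
        · refine Or.inr (Or.inl ⟨s2, ?_, c3.1 h2⟩)
          rcases h1 with ⟨h3, h4⟩ | ⟨h3, h4⟩
          · exact Or.inr ⟨c1.1 h3, d2.1 h4⟩
          · exact Or.inl ⟨c2.1 h3, d1.1 h4⟩
      · rintro (⟨h, -⟩ | ⟨-, h1, h2⟩ | ⟨-, h1, h2⟩)
        · exact absurd h s4
        · refine Or.inr (Or.inr ⟨s1, ?_, c3.2 h2⟩)
          rcases h1 with ⟨h3, h4⟩ | ⟨h3, h4⟩
          · exact Or.inr ⟨c2.2 h3, d1.2 h4⟩
          · exact Or.inl ⟨c1.2 h3, d2.2 h4⟩
        · refine Or.inr (Or.inl ⟨s1, ?_, c4.2 h2⟩)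
          rcases h1 with ⟨h3, h4⟩ | ⟨h3, h4⟩
          · exact Or.inr ⟨c2.2 h3, d2.2 h4⟩
          · exact Or.inl ⟨c1.2 h3, d1.2 h4⟩
    · -- both behind
      obtain ⟨d1, d2⟩ := R2 d hdB hdn c
      have s1 : [c, d].Sublist (A ++ v :: T) ↔ [d, c].Sublist (A ++ v :: T.reverse) := by
        rw [sub_rr hn (hBz c hcB).1 (hBz d hdB).1,
          sub_rr hn' (List.mem_reverse.2 (hBz d hdB).1) (List.mem_reverse.2 (hBz c hcB).1)]
        have h : [d, c] = [c, d].reverse := by simp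
        rw [h, List.reverse_sublist]
      have s2 : [d, c].Sublist (A ++ v :: T) ↔ [c, d].Sublist (A ++ v :: T.reverse) := by
        rw [sub_rr hn (hBz d hdB).1 (hBz c hcB).1,
          sub_rr hn' (List.mem_reverse.2 (hBz c hcB).1) (List.mem_reverse.2 (hBz d hdB).1)]
        have h : [c, d] = [d, c].reverse := by simp
        rw [h, List.reverse_sublist]
      have hS := hJ hcB hdB
      have hS' : SS p (A ++ v :: T.reverse) c d := by
        rcases hS with ⟨h3, h4⟩ | ⟨h3, h4⟩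
        · exact Or.inr ⟨c1.1 h3, d1.1 h4⟩
        · exact Or.inl ⟨c2.1 h3, d2.1 h4⟩
      -- opposite sides are impossible
      have hno : ∀ {L : List α}, L.Nodup → ∀ {a b : α}, SdL p L a b → ¬ SdR p L a b := by
        rintro L hL a b ⟨x1, y1, h1, h2, h3⟩ ⟨x2, y2, h4, h5, h6⟩
        obtain rfl := nx_unique' hL h1 h4
        obtain rfl := nx_unique hL h2 h5
        exact bt_asymm h3 h6
      have hO : ¬ OS p (A ++ v :: T) c d := by
        rintro (⟨h1, h2⟩ | ⟨h1, h2⟩) <;> rcases hS with ⟨h3, h4⟩ | ⟨h3, h4⟩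
        · exact hno hn h4 h2
        · exact hno hn h1 h3
        · exact hno hn h3 h1
        · exact hno hn h2 h4
      have hO' : ¬ OS p (A ++ v :: T.reverse) c d := by
        rintro (⟨h1, h2⟩ | ⟨h1, h2⟩) <;> rcases hS' with ⟨h3, h4⟩ | ⟨h3, h4⟩
        · exact hno hn' h4 h2
        · exact hno hn' h1 h3
        · exact hno hn' h3 h1
        · exact hno hn' h2 h4
      constructor
      · rintro (⟨h1, h2⟩ | ⟨h1, -, h2⟩ | ⟨-, h1, -⟩)
        · exact Or.inr (Or.inl ⟨s1.1 h1, hS', c3.1 h2⟩)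
        · exact Or.inl ⟨s2.1 h1, c4.1 h2⟩
        · exact absurd h1 hO
      · rintro (⟨h1, h2⟩ | ⟨h1, -, h2⟩ | ⟨-, h1, -⟩)
        · exact Or.inr (Or.inl ⟨s2.2 h1, hS, c4.2 h2⟩)
        · exact Or.inl ⟨s1.2 h1, c3.2 h2⟩
        · exact absurd h1 hO'

end FPW
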