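import Pool.Agent.Lib.MP_deef39_co_Ord.GChain
import Pool.Agent.Lib.MP_deef39_co_Ord.GReg
import Pool.Agent.Lib.MP_deef39_co_Ord.GMir
import Pool.Agent.Lib.MP_deef39_co_Ord.Jor
import Pool.Agent.Lib.MP_deef39_co_Eng.Cyc

/-! # Eng module Push: the first point of the triangle of door and second ray

`c` apex, `e` end with free door `c e`, `l` a vertex with `c l` free, the triangle `e c l`
positively oriented (so `l` lies clockwise from `e` at `c`, angle `< 180`). `Pf p V e c l f`: `f` is
the first point of `V` in the triangle by angle at `e` (`l` if there is none).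
-/

set_option autoImplicit false

namespace FPW

variable {α : Type*}

/-- `f` is the first point of `V` in the triangle `e c l` by angle at `e` seen from `e c` -/
structure Pf (p : α → ℝ × ℝ) (V : Set α) (e c l f : α) : Prop where
  mem : f ∈ V
  tri : f = l ∨ InTri p e c l f
  one : 0 < o p e c f
  emp : ∀ z ∈ V, ¬ InTri p c e f z
  out : ∀ z ∈ V, InTri p e c l z → z ≠ f → 0 < o p e f z

variable {p : α → ℝ × ℝ}

private theorem pu_ne {a b c : α} (h : 0 < o p a b c) : a ≠ b ∧ b ≠ c ∧ a ≠ c := by
  refine ⟨?_, ?_, ?_⟩ <;> rintro rfl <;> simp at h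

/-- the sector of the chain containing a point of the cone -/
private theorem pu_sec (hgp : GP p) {q z : α} (B : α) : ∀ (R : List α) (x : α),
    (∀ y ∈ x :: (R ++ [B]), q ≠ y) → z ≠ q → z ∉ x :: (R ++ [B]) → o p q x z < 0 → o p q z B < 0 →
    ∃ y w, Nx (x :: (R ++ [B])) y w ∧ o p q y z < 0 ∧ o p q z w < 0 := by
  intro R
  induction R with
  | nil =>
    intro x _ _ _ h1 h2
    exact ⟨x, B, ⟨[], [], rfl⟩, h1, h2⟩
  | cons y R ih =>
    intro x hq hzq hz h1 h2
    have hyz : z ≠ y := by
      rintro rfl
      exact hz (by simp)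
    have hqy : q ≠ y := hq y (by simp)
    have h3 := hgp.ne q z y hzq.symm hyz hqy
    rcases lt_or_gt_of_ne h3 with h3 | h3
    · exact ⟨x, y, ⟨[], R ++ [B], rfl⟩, h1, h3⟩
    · have e : o p q y z = - o p q z y := by unfold o; ring
      obtain ⟨u, w, ⟨S, T, hST⟩, h4, h5⟩ := ih y (fun t ht => hq t (List.mem_cons_of_mem _ ht)) hzq
        (fun ht => hz (List.mem_cons_of_mem _ ht)) (by rw [e]; linarith) h2
      exact ⟨u, w, ⟨x :: S, T, by rw [List.cons_append, hST]; rfl⟩, h4, h5⟩

/-- all points of the triangle lie beyond the first chain edge -/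
private theorem pu_out (hgp : GP p) {V : Set α} {A q B f : α} {R : List α}
    (h : Chn p V A q B R) (hf : ∃ T, R ++ [B] = f :: T) {z : α} (hz : z ∈ V)
    (hi : InTri p A q B z) (hzf : z ≠ f) : 0 < o p A f z := by
  obtain ⟨T, hT⟩ := hf
  have h0 := h.left
  obtain ⟨k1, k2, k3⟩ := InTri_pos hi h0
  obtain ⟨n1, n2, n3⟩ := pu_ne h0
  obtain ⟨m1, m2, m3⟩ := pu_ne k1
  obtain ⟨m4, m5, m6⟩ := pu_ne k2
  by_cases hzc : z ∈ A :: (R ++ [B])
  · rw [hT] at hzc
    rcases List.mem_cons.1 hzc with rfl | hzc
    · exact absurd rfl m3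
    rcases List.mem_cons.1 hzc with rfl | hzc
    · exact absurd rfl hzf
    refine h.conv A f z ?_
    rw [hT]
    exact List.Sublist.cons_cons A (List.Sublist.cons_cons f (List.singleton_sublist.2 hzc))
  · have hqn : ∀ y ∈ A :: (R ++ [B]), q ≠ y := by
      intro y hy
      rcases List.mem_cons.1 hy with rfl | hy
      · exact n1.symm
      rcases List.mem_append.1 hy with hy | hy
      · obtain ⟨t1, -, -⟩ := InTri_pos (h.mem y hy).2 h0
        exact (pu_ne t1).2.1
      · rw [List.mem_singleton.1 hy]
        exact n2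
    have e1 : o p q A z = - o p A q z := by unfold o; ring
    have e2 : o p q z B = - o p q B z := by unfold o; ring
    obtain ⟨x, y, hn, h1, h2⟩ := pu_sec hgp B R A hqn m2.symm hzc (by rw [e1]; linarith)
      (by rw [e2]; linarith)
    have h3 : 0 < o p x y z := by
      have hxz : x ≠ z := by
        rintro rfl
        simp at h1
      have hyz : y ≠ z := by
        rintro rfl
        simp at h2
      have hxy : x ≠ y := by
        rintro rfl
        have e : o p q z x = - o p q x z := by unfold o; ring
        linarith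
      have h4 := hgp.ne x y z hxy hyz hxz
      rcases lt_or_gt_of_ne h4 with h4 | h4
      · exfalso
        refine h.emp x y hn z hz (Or.inr ⟨h1, h4, ?_⟩)
        have e : o p y q z = o p q z y := by unfold o; ring
        rw [e]; exact h2
      · exact h4
    have hxy : o p q x y < 0 := by
      refine h.ang x y ?_
      obtain ⟨S, T', hS⟩ := hn
      rw [hS]
      exact List.sublist_append_of_sublist_right (by simp)
    have hfq : o p A f q < 0 := by
      have hAf : o p q A f < 0 := by
        refine h.ang A f ?_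
        rw [hT]
        simp
      have e : o p A f q = o p q A f := by unfold o; ring
      rw [e]; exact hAf
    have hcase : (x = A ∧ y = f) ∨ (x ∈ f :: T ∧ y ∈ T) := by
      obtain ⟨S, T', hS⟩ := hn
      rw [hT] at hS
      cases S with
      | nil =>
        rw [List.nil_append] at hS
        have hS2 := (List.cons.inj hS).2
        exact Or.inl ⟨(List.cons.inj hS).1.symm, (List.cons.inj hS2).1.symm⟩
      | cons s S =>
        rw [List.cons_append] at hS
        have hS2 := (List.cons.inj hS).2
        right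
        refine ⟨by rw [hS2]; simp, ?_⟩
        cases S with
        | nil =>
          rw [List.nil_append] at hS2
          rw [(List.cons.inj hS2).2]
          simp
        | cons s' S =>
          rw [List.cons_append] at hS2
          rw [(List.cons.inj hS2).2]
          simp
    rcases hcase with ⟨rfl, rfl⟩ | ⟨hx, hy⟩
    · exact h3
    have hst : 0 < o p A f y := by
      refine h.conv A f y ?_
      rw [hT]
      exact List.Sublist.cons_cons A (List.Sublist.cons_cons f (List.singleton_sublist.2 hy))
    have hx : 0 ≤ o p A f x := by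
      rcases List.mem_cons.1 hx with rfl | hx
      · have : o p A x x = 0 := by unfold o; ring
        rw [this]
      · refine (h.conv A f x ?_).le
        rw [hT]
        exact List.Sublist.cons_cons A (List.Sublist.cons_cons f (List.singleton_sublist.2 hx))
    have key : o p q x y * o p A f z = o p x y z * o p A f q + o p y q z * o p A f x +
        o p q x z * o p A f y := by unfold o; ring
    have e3 : o p y q z = o p q z y := by unfold o; ring
    rw [e3] at key
    have t1 : o p x y z * o p A f q < 0 := mul_neg_of_pos_of_neg h3 hfq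
    have t2 : o p q z y * o p A f x ≤ 0 := mul_nonpos_of_nonpos_of_nonneg h2.le hx
    have t3 : o p q x z * o p A f y < 0 := mul_neg_of_neg_of_pos h1 hst
    by_contra hc
    push Not at hc
    have := mul_nonneg_of_nonpos_of_nonpos hxy.le hc
    linarith

/-- the first point of the triangle and what it sees -/
theorem push_first [Finite α] (hgp : GP p) {E : α → α → Prop} {V : Set α}
    (hV : ∀ a b, E a b → a ∈ V ∧ b ∈ V ∧ a ≠ b) {e c l : α} (hl : l ∈ V) (ho : 0 < o p e c l)
    (h1 : Vis p E c e) (h2 : Vis p E c l)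
    (h3 : ∀ d, (E c d ∨ E d c) → ¬ (0 < o p e c d ∧ 0 < o p c l d)) :
    ∃ f, Pf p V e c l f ∧ Vis p E c f ∧ Vis p E e f ∧
      (∀ d, (E f d ∨ E d f) → d ≠ c → d ≠ e → f ≠ l → 0 < o p e f d) ∧
      ∀ d, (E f d ∨ E d f) → ¬ (0 < o p f e d ∧ 0 < o p f d c) := by
  obtain ⟨R, hR⟩ := chain hgp V ho
  obtain ⟨f, T, hT⟩ : ∃ f T, R ++ [l] = f :: T := by
    cases R with
    | nil => exact ⟨l, [], rfl⟩
    | cons f R => exact ⟨f, R ++ [l], rfl⟩
  obtain ⟨n1, n2, n3⟩ := pu_ne ho
  have hfm : f = l ∨ f ∈ R := by
    cases R with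
    | nil => exact Or.inl (List.cons.inj hT).1.symm
    | cons g R =>
      right
      rw [List.cons_append] at hT
      rw [(List.cons.inj hT).1]
      exact List.mem_cons_self
  have hnx : Nx (e :: (R ++ [l])) e f := ⟨[], T, by rw [hT]; rfl⟩
  have htri : f = l ∨ InTri p e c l f := hfm.imp id fun h => (hR.mem f h).2
  have hfV : f ∈ V := by
    rcases hfm with rfl | h
    · exact hl
    · exact (hR.mem f h).1
  have hone : 0 < o p e c f := by
    rcases htri with rfl | h
    · exact ho
    · exact (InTri_pos h ho).1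
  obtain ⟨m1, m2, m3⟩ := pu_ne hone
  have hemp : ∀ z ∈ V, ¬ InTri p c e f z := hR.emp e f hnx
  have hvc : Vis p E c f := by
    intro a b hab hX
    have hn := X_ne hX
    rcases hfm with rfl | h
    · exact h2 a b hab hX
    · exact (reg hgp hR hn.2.2.1.symm hn.2.2.2.1.symm (Or.inl (hV a b hab).1)
        (Or.inl (hV a b hab).2.1) (h1 a b hab) (h2 a b hab)).1 f h hX
  have hve : Vis p E e f := by
    intro a b hab hX
    have hn := X_ne hX
    by_cases ha : a = c
    · subst ha
      exact reg_q hgp hR hn.2.1.symm (h3 b (Or.inl hab)) e f hnx hX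
    by_cases hb : b = c
    · subst hb
      exact reg_q hgp hR hn.2.1 (h3 a (Or.inr hab)) e f hnx (X_sw2.1 hX)
    exact (reg hgp hR ha hb (Or.inl (hV a b hab).1)
        (Or.inl (hV a b hab).2.1) (h1 a b hab) (h2 a b hab)).2 e f hnx hX
  -- no edge at `f` enters the angle
  have hang : ∀ d, (E f d ∨ E d f) → ¬ (0 < o p f e d ∧ 0 < o p f d c) := by
    rintro d hd ⟨k1, k2⟩
    have hdV : d ∈ V := by
      rcases hd with hd | hd
      · exact (hV _ _ hd).2.1
      · exact (hV _ _ hd).1
    obtain ⟨q1, q2, q3⟩ := pu_ne k1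
    obtain ⟨q4, q5, q6⟩ := pu_ne k2
    have h4 := hgp.ne e c d n1 q5.symm q2
    rcases lt_or_gt_of_ne h4 with h4 | h4
    · have hX : X p c e f d := by
        have e1 : o p c e f = - o p e c f := by unfold o; ring
        have e2 : o p c e d = - o p e c d := by unfold o; ring
        have e3 : o p f d e = - o p f e d := by unfold o; ring
        refine ⟨?_, ?_⟩
        · rw [e1, e2]
          exact mul_neg_of_neg_of_pos (by linarith) (by linarith)
        · rw [e3]
          exact mul_neg_of_pos_of_neg k2 (by linarith)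
      rcases hd with hd | hd
      · exact h1 f d hd hX
      · exact h1 d f hd (X_sw2.1 hX)
    · refine hemp d hdV (Or.inr ⟨?_, ?_, ?_⟩)
      · have e1 : o p c e d = - o p e c d := by unfold o; ring
        rw [e1]; linarith
      · have e1 : o p e f d = - o p f e d := by unfold o; ring
        rw [e1]; linarith
      · have e1 : o p f c d = - o p f d c := by unfold o; ring
        rw [e1]; linarith
  refine ⟨f, ⟨hfV, htri, hone, hemp, fun z hz hi hzf => pu_out hgp hR ⟨T, hT⟩ hz hi hzf⟩, hvc,
    hve, ?_, hang⟩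
  intro d hd hdc hde hfl
  have hdV : d ∈ V := by
    rcases hd with hd | hd
    · exact (hV _ _ hd).2.1
    · exact (hV _ _ hd).1
  have hdf : d ≠ f := by
    rcases hd with hd | hd
    · exact (hV _ _ hd).2.2.symm
    · exact (hV _ _ hd).2.2
  cases R with
  | nil => exact absurd (List.cons.inj hT).1.symm hfl
  | cons g R =>
    rw [List.cons_append] at hT
    obtain ⟨hgf, hT'⟩ := List.cons.inj hT
    subst hgf
    obtain ⟨y, T', hy⟩ : ∃ y T', R ++ [l] = y :: T' := by
      cases R with
      | nil => exact ⟨l, [], rfl⟩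
      | cons f R => exact ⟨f, R ++ [l], rfl⟩
    by_cases hdy : d = y
    · subst hdy
      refine hR.conv e g d ?_
      rw [List.cons_append, hy]
      simp
    · have hnx' : Nx (e :: (g :: R ++ [l])) g y := ⟨[e], T', by rw [List.cons_append, hy]; rfl⟩
      have hX1 : ¬ X p c e g d := by
        rcases hd with hd | hd
        · exact h1 g d hd
        · exact fun hX => h1 d g hd (X_sw2.1 hX)
      have hX2 : ¬ X p c l g d := by
        rcases hd with hd | hd
        · exact h2 g d hd
        · exact fun hX => h2 d g hd (X_sw2.1 hX)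
      exact (reg_left hgp hR hnx hnx' (Or.inl hdV) hdf hdc hde hdy hX1 hX2).1

/-- two free sides of an empty triangle: the third side is free when no edge at the common vertex
crosses it -/
theorem third_side (hgp : GP p) {E : α → α → Prop} {V : Set α}
    (hV : ∀ a b, E a b → a ∈ V ∧ b ∈ V ∧ a ≠ b) {c e f : α} (h1 : Vis p E c e)
    (h2 : Vis p E c f) (hemp : ∀ z ∈ V, ¬ InTri p c e f z)
    (hc : ∀ d, (E c d ∨ E d c) → ¬ X p e f c d) : Vis p E e f := by
  intro a b hab hX
  obtain ⟨-, -, m1, m2, m3, m4⟩ := X_ne hX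
  by_cases ha : a = c
  · subst ha
    exact hc b (Or.inl hab) hX
  by_cases hb : b = c
  · subst hb
    exact hc a (Or.inr hab) (X_sw2.1 hX)
  have key := tl hgp (a := c) (b := e) (c := f) (z := a) (w := b) ha m1.symm m3.symm hb m2.symm
    m4.symm
  have e1 : xx p c e a b = 0 := xi_false (h1 a b hab)
  have e2 : xx p e f a b = 1 := xi_true hX
  have e3 : xx p f c a b = 0 := xi_false fun h => h2 a b hab (X_sw1.1 h)
  have e4 : tt p c e f a = 0 := xi_false (hemp a (hV a b hab).1)
  have e5 : tt p c e f b = 0 := xi_false (hemp b (hV a b hab).2.1)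
  rw [e1, e2, e3, e4, e5] at key
  simp at key

/-- the mirrored form: `l` lies counterclockwise from `e` at `c` -/
theorem push_first_mir [Finite α] (hgp : GP p) {E : α → α → Prop} {V : Set α}
    (hV : ∀ a b, E a b → a ∈ V ∧ b ∈ V ∧ a ≠ b) {e c l : α} (hl : l ∈ V) (ho : 0 < o p c e l)
    (h1 : Vis p E c e) (h2 : Vis p E c l)
    (h3 : ∀ d, (E c d ∨ E d c) → ¬ (0 < o p c e d ∧ 0 < o p c d l)) :
    ∃ f, Pf (mir p) V e c l f ∧ Vis p E c f ∧ Vis p E e f ∧
      (∀ d, (E f d ∨ E d f) → d ≠ c → d ≠ e → f ≠ l → 0 < o p f e d) ∧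
      ∀ d, (E f d ∨ E d f) → ¬ (0 < o p f c d ∧ 0 < o p f d e) := by
  obtain ⟨f, k1, k2, k3, k4, k5⟩ := push_first (p := mir p) (GP_mir hgp) hV hl
    (by
      rw [o_mir]
      have e1 : o p e c l = - o p c e l := by unfold o; ring
      linarith)
    (Vis_mir.2 h1) (Vis_mir.2 h2)
    (by
      rintro d hd ⟨t1, t2⟩
      rw [o_mir] at t1 t2
      have e1 : o p e c d = - o p c e d := by unfold o; ring
      have e2 : o p c l d = - o p c d l := by unfold o; ring
      exact h3 d hd ⟨by linarith, by linarith⟩)
  refine ⟨f, k1, Vis_mir.1 k2, Vis_mir.1 k3, ?_, ?_⟩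
  · intro d hd hdc hde hfl
    have := k4 d hd hdc hde hfl
    rw [o_mir] at this
    have e1 : o p f e d = - o p e f d := by unfold o; ring
    linarith
  · rintro d hd ⟨t1, t2⟩
    refine k5 d hd ?_
    rw [o_mir, o_mir]
    have e1 : o p f e d = - o p f d e := by unfold o; ring
    have e2 : o p f d c = - o p f c d := by unfold o; ring
    exact ⟨by linarith, by linarith⟩

end FPW
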