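import Pool.Agent.Lib.MP_deef39_co_Eng.Eng

/-! # Eng module Reach: runs of an abstract engine with an invariant

`Inv` holds at the start and every `Inv` configuration has the exit or a step to an `Inv`
configuration with a smaller word. Then a reachable configuration has the exit.
-/

set_option autoImplicit false

namespace FPW

section
variable {C B : Type*} [LinearOrder B]

/-- **run with an invariant**, general linear order of words -/
theorem reach_exit {F : Set C} (hF : F.Finite) (Stp : C → C → Prop) (Inv Exit : C → Prop)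
    (w : C → B) {c₀ : C} (h0 : Inv c₀) (hin : ∀ c, Inv c → c ∈ F)
    (step : ∀ c, Relation.ReflTransGen Stp c₀ c → Inv c →
      Exit c ∨ ∃ c', Stp c c' ∧ Inv c' ∧ w c' < w c) :
    ∃ c, Relation.ReflTransGen Stp c₀ c ∧ Inv c ∧ Exit c := by
  refine min_any (S := {c | Relation.ReflTransGen Stp c₀ c ∧ Inv c})
    (hF.subset fun c hc => hin c hc.2) ⟨c₀, Relation.ReflTransGen.refl, h0⟩ w ?_
  rintro c ⟨hr, hc⟩
  rcases step c hr hc with h | ⟨c', hs, hi, hw⟩
  · exact Or.inl ⟨c, hr, hc, h⟩
  · exact Or.inr ⟨c', ⟨hr.tail hs, hi⟩, hw⟩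

/-- the same with a second coordinate of the word -/
theorem reach_exit2 {B' : Type*} [LinearOrder B'] {F : Set C} (hF : F.Finite)
    (Stp : C → C → Prop) (Inv Exit : C → Prop) (w : C → B) (m : C → B') {c₀ : C} (h0 : Inv c₀)
    (hin : ∀ c, Inv c → c ∈ F)
    (step : ∀ c, Relation.ReflTransGen Stp c₀ c → Inv c →
      Exit c ∨ ∃ c', Stp c c' ∧ Inv c' ∧ (w c' < w c ∨ (w c' = w c ∧ m c' < m c))) :
    ∃ c, Relation.ReflTransGen Stp c₀ c ∧ Inv c ∧ Exit c := by
  refine reach_exit hF Stp Inv Exit (fun c => toLex (w c, m c)) h0 hin ?_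
  intro c hr hc
  rcases step c hr hc with h | ⟨c', hs, hi, hw⟩
  · exact Or.inl h
  · exact Or.inr ⟨c', hs, hi, by rw [Prod.Lex.toLex_lt_toLex]; exact hw⟩

/-- the exit set is not needed as a set: `G` follows -/
theorem reach_goal {F : Set C} (hF : F.Finite) (Stp : C → C → Prop) (Inv : C → Prop)
    (w : C → B) {c₀ : C} {G : Prop} (h0 : Inv c₀) (hin : ∀ c, Inv c → c ∈ F)
    (step : ∀ c, Relation.ReflTransGen Stp c₀ c → Inv c →
      G ∨ ∃ c', Stp c c' ∧ Inv c' ∧ w c' < w c) : G := by
  obtain ⟨c, -, -, h⟩ := reach_exit hF Stp Inv (fun _ => G) w h0 hin step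
  exact h

end

/-- projection of a run -/
theorem reach_proj {C D : Type*} {Stp : C → C → Prop} {R : D → D → Prop} (π : C → D)
    (h : ∀ c c', Stp c c' → Relation.ReflTransGen R (π c) (π c')) {c c' : C}
    (hc : Relation.ReflTransGen Stp c c') : Relation.ReflTransGen R (π c) (π c') := by
  induction hc with
  | refl => exact Relation.ReflTransGen.refl
  | tail _ hs ih => exact ih.trans (h _ _ hs)

/-- a property kept by every step holds along the run -/
theorem reach_inv {C : Type*} {Stp : C → C → Prop} {I : C → Prop} {c c' : C}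
    (hc : Relation.ReflTransGen Stp c c') (h0 : I c)
    (h : ∀ a b, Relation.ReflTransGen Stp c a → I a → Stp a b → I b) : I c' := by
  induction hc with
  | refl => exact h0
  | tail hr hs ih => exact h _ _ hr ih hs

/-! ### configurations `(path, stack)` -/

section
variable {α : Type*} {R : List α → List α → Prop}

/-- **engine**: configurations are a path and a stack with entries in a finite type `β`. `R` are the
moves of the path; a step of the engine is a sequence of moves of the path and any change of the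
stack. If every reachable `Inv` configuration has `Exit` or an `Inv` successor with a smaller word,
then a reachable path with a stack has `Exit`. -/
theorem engine [Finite α] {β A : Type*} [Finite β] [LinearOrder A]
    (Inv Exit : List α → List β → Prop) (w : List α → List β → List A) (N : ℕ)
    {l₀ : List α} {s₀ : List β} (h0 : Inv l₀ s₀)
    (hin : ∀ l s, Inv l s → l.Nodup ∧ s.length ≤ N)
    (step : ∀ l s, Relation.ReflTransGen R l₀ l → Inv l s →
      Exit l s ∨ ∃ l' s', Relation.ReflTransGen R l l' ∧ Inv l' s' ∧ w l' s' < w l s) :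
    ∃ l s, Relation.ReflTransGen R l₀ l ∧ Inv l s ∧ Exit l s := by
  let Stp : List α × List β → List α × List β → Prop :=
    fun c c' => Relation.ReflTransGen R c.1 c'.1
  have hp : ∀ c, Relation.ReflTransGen Stp (l₀, s₀) c → Relation.ReflTransGen R l₀ c.1 :=
    fun c hc => reach_proj (R := R) (fun c : List α × List β => c.1) (fun _ _ h => h) hc
  obtain ⟨c, h1, h2, h3⟩ := reach_exit (cfg_finite' (α := α) (β := β) N) Stp
    (fun c => Inv c.1 c.2) (fun c => Exit c.1 c.2) (fun c => w c.1 c.2) (c₀ := (l₀, s₀)) h0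
    (fun c hc => hin c.1 c.2 hc) (fun c hr hc => by
      rcases step c.1 c.2 (hp c hr) hc with h | ⟨l', s', k1, k2, k3⟩
      · exact Or.inl h
      · exact Or.inr ⟨(l', s'), k1, k2, k3⟩)
  exact ⟨c.1, c.2, hp c h1, h2, h3⟩

/-- the engine with a pair of words, lexicographic -/
theorem engine2 [Finite α] {β A B' : Type*} [Finite β] [LinearOrder A] [LinearOrder B']
    (Inv Exit : List α → List β → Prop) (w : List α → List β → List A)
    (m : List α → List β → B') (N : ℕ)
    {l₀ : List α} {s₀ : List β} (h0 : Inv l₀ s₀)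
    (hin : ∀ l s, Inv l s → l.Nodup ∧ s.length ≤ N)
    (step : ∀ l s, Relation.ReflTransGen R l₀ l → Inv l s →
      Exit l s ∨ ∃ l' s', Relation.ReflTransGen R l l' ∧ Inv l' s' ∧
        (w l' s' < w l s ∨ (w l' s' = w l s ∧ m l' s' < m l s))) :
    ∃ l s, Relation.ReflTransGen R l₀ l ∧ Inv l s ∧ Exit l s := by
  let Stp : List α × List β → List α × List β → Prop :=
    fun c c' => Relation.ReflTransGen R c.1 c'.1
  have hp : ∀ c, Relation.ReflTransGen Stp (l₀, s₀) c → Relation.ReflTransGen R l₀ c.1 :=
    fun c hc => reach_proj (R := R) (fun c : List α × List β => c.1) (fun _ _ h => h) hc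
  obtain ⟨c, h1, h2, h3⟩ := reach_exit2 (cfg_finite' (α := α) (β := β) N) Stp
    (fun c => Inv c.1 c.2) (fun c => Exit c.1 c.2) (fun c => w c.1 c.2) (fun c => m c.1 c.2)
    (c₀ := (l₀, s₀)) h0 (fun c hc => hin c.1 c.2 hc) (fun c hr hc => by
      rcases step c.1 c.2 (hp c hr) hc with h | ⟨l', s', k1, k2, k3⟩
      · exact Or.inl h
      · exact Or.inr ⟨(l', s'), k1, k2, k3⟩)
  exact ⟨c.1, c.2, hp c h1, h2, h3⟩

end

end FPW
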