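import Pool.Agent.Lib.MP_deef39_co_Eng.RotG
import Pool.Agent.Lib.MP_deef39_co_Eng.GhMap
import Pool.Agent.Lib.MP_deef39_co_Eng.Push
import Pool.Agent.Lib.MP_deef39_co_Eng.Reach

/-! # Eng module Mv: letters, words and moves

A configuration is a path `l` (obstacles `O`) and a stack `K`, top first:
`K = (e, _) :: (c_t, d_t) :: … :: (c_0, d_0) :: (a, _) :: …`, `e` the end of `l`. The Boolean is the
sense (`true` = counterclockwise). `Wk O K` are the obstacles together with the walls
`e c_t, c_t c_{t-1}, …`.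

Letters of `c` (wall- `a`, wall+ `e`): `Lt` number of points in the range from `e` to `a` in the
sense of `c`; `Lb` = (1 if the range is `> 180`, `Lt`); `Lty` = (0 if the sense is the sense of `a`,
else 1; `Lb`). `wt` the word of a stack, top first.
-/

set_option autoImplicit false

namespace FPW

variable {α : Type*}

/-! ### ranges with a sense -/

/-- at `c`, from `a` in the sense `d` to `b`: `x` lies strictly in this range -/
def Bd (p : α → ℝ × ℝ) (d : Bool) (c a x b : α) : Prop :=
  (d = true ∧ Bt p c a x b) ∨ (d = false ∧ Bt p c b x a)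

/-- number of points in the range from `a` in the sense `d` to `b` -/
noncomputable def rd (p : α → ℝ × ℝ) (V : Set α) (d : Bool) (c a b : α) : ℕ :=
  {x | x ∈ V ∧ Bd p d c a x b}.ncard

/-- the range from `a` in the sense `d` to `b` is less than 180 degrees -/
def Sm (p : α → ℝ × ℝ) (d : Bool) (c a b : α) : Prop :=
  (d = true ∧ 0 < o p c a b) ∨ (d = false ∧ 0 < o p c b a)

variable {p : α → ℝ × ℝ} {c a b x f : α} {d : Bool}

theorem bd_true : Bd p true c a x b ↔ Bt p c a x b := by unfold Bd; simp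

theorem bd_false : Bd p false c a x b ↔ Bt p c b x a := by unfold Bd; simp

theorem sm_true : Sm p true c a b ↔ 0 < o p c a b := by unfold Sm; simp

theorem sm_false : Sm p false c a b ↔ 0 < o p c b a := by unfold Sm; simp

theorem bd_not : Bd p (!d) c a x b ↔ Bd p d c b x a := by
  cases d <;> simp [bd_true, bd_false]

theorem sm_not : Sm p (!d) c a b ↔ Sm p d c b a := by
  cases d <;> simp [sm_true, sm_false]

theorem bd_mir : Bd (mir p) d c a x b ↔ Bd p (!d) c a x b := by
  cases d <;> simp [bd_true, bd_false, bt_mir]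

theorem sm_mir : Sm (mir p) d c a b ↔ Sm p (!d) c a b := by
  have e1 : o p c b a = - o p c a b := by unfold o; ring
  cases d <;> simp [sm_true, sm_false, o_mir, e1]

theorem bd_rot (h : Bd p d c a x b) : Bd p d c x b a := by
  cases d
  · rw [bd_false] at h ⊢; exact bt_rot' h
  · rw [bd_true] at h ⊢; exact bt_rot h

theorem bd_rot' (h : Bd p d c a x b) : Bd p d c b a x := bd_rot (bd_rot h)

theorem bd_asymm (h : Bd p d c a x b) : ¬ Bd p d c b x a := by
  cases d
  · rw [bd_false] at h ⊢; exact bt_asymm h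
  · rw [bd_true] at h ⊢; exact bt_asymm h

theorem bd_ne (h : Bd p d c a x b) : c ≠ a ∧ c ≠ x ∧ c ≠ b ∧ a ≠ x ∧ x ≠ b ∧ a ≠ b := by
  cases d
  · rw [bd_false] at h
    obtain ⟨h1, h2, h3, h4, h5, h6⟩ := bt_ne h
    exact ⟨h3, h2, h1, h5.symm, h4.symm, h6.symm⟩
  · rw [bd_true] at h; exact bt_ne h

theorem bd_total (hgp : GP p) (hca : c ≠ a) (hcx : c ≠ x) (hcb : c ≠ b) (hax : a ≠ x)
    (hxb : x ≠ b) (hab : a ≠ b) : Bd p d c a x b ∨ Bd p d c b x a := by
  cases d
  · rw [bd_false, bd_false]
    exact (bt_total hgp hca hcx hcb hax hxb hab).symm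
  · rw [bd_true, bd_true]
    exact bt_total hgp hca hcx hcb hax hxb hab

/-- order `a, x, f, b` -/
theorem bd_trans (h1 : Bd p d c a x f) (h2 : Bd p d c a f b) : Bd p d c a x b := by
  cases d
  · rw [bd_false] at h1 h2 ⊢; exact bt_trans'' h2 h1
  · rw [bd_true] at h1 h2 ⊢; exact bt_trans h1 h2

theorem bd_trans3 (h1 : Bd p d c a x f) (h2 : Bd p d c a f b) : Bd p d c x f b := by
  cases d
  · rw [bd_false] at h1 h2 ⊢; exact bt_trans' h2 h1
  · rw [bd_true] at h1 h2 ⊢; exact bt_trans3 h1 h2

theorem bd_trans' (h1 : Bd p d c a x b) (h2 : Bd p d c x f b) : Bd p d c a x f := by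
  cases d
  · rw [bd_false] at h1 h2 ⊢; exact bt_trans3 h2 h1
  · rw [bd_true] at h1 h2 ⊢; exact bt_trans' h1 h2

theorem bd_trans'' (h1 : Bd p d c a x b) (h2 : Bd p d c x f b) : Bd p d c a f b := by
  cases d
  · rw [bd_false] at h1 h2 ⊢; exact bt_trans h2 h1
  · rw [bd_true] at h1 h2 ⊢; exact bt_trans'' h1 h2

/-- a range less than 180 degrees -/
theorem bd_sm (h : Sm p d c a b) : Bd p d c a x b ↔ (Sm p d c a x ∧ Sm p d c x b) := by
  cases d
  · rw [sm_false] at h
    rw [bd_false, sm_false, sm_false, bt_conv h]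
    exact And.comm
  · rw [sm_true] at h
    rw [bd_true, sm_true, sm_true, bt_conv h]

/-- a range greater than 180 degrees -/
theorem bd_big (h : Sm p d c b a) : Bd p d c a x b ↔ (Sm p d c a x ∨ Sm p d c x b) := by
  cases d
  · rw [sm_false] at h
    have e : o p c b a = - o p c a b := by unfold o; ring
    rw [bd_false, sm_false, sm_false, bt_refl (by rw [e]; linarith)]
    exact Or.comm
  · rw [sm_true] at h
    have e : o p c a b = - o p c b a := by unfold o; ring
    rw [bd_true, sm_true, sm_true, bt_refl (by rw [e]; linarith)]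

theorem sm_total (hgp : GP p) (h1 : c ≠ a) (h2 : a ≠ b) (h3 : c ≠ b) :
    Sm p d c a b ∨ Sm p d c b a := by
  have h := hgp.ne c a b h1 h2 h3
  have e : o p c b a = - o p c a b := by unfold o; ring
  cases d
  · rw [sm_false, sm_false, e]
    rcases lt_or_gt_of_ne h with h | h
    · exact Or.inl (by linarith)
    · exact Or.inr h
  · rw [sm_true, sm_true, e]
    rcases lt_or_gt_of_ne h with h | h
    · exact Or.inr (by linarith)
    · exact Or.inl h

theorem sm_asymm (h : Sm p d c a b) : ¬ Sm p d c b a := by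
  have e : o p c b a = - o p c a b := by unfold o; ring
  intro h'
  cases d
  · rw [sm_false] at h h'; linarith
  · rw [sm_true] at h h'; linarith

section rd
variable [Finite α] {V : Set α}

/-- the count drops when the start of the range moves forward -/
theorem rd_lt (hf : f ∈ V) (h : Bd p d c a f b) : rd p V d c f b < rd p V d c a b := by
  refine Set.ncard_lt_ncard ⟨fun x hx => ⟨hx.1, ?_⟩, fun hs => ?_⟩ (Set.toFinite _)
  · exact bd_trans'' h hx.2
  · have := (hs ⟨hf, h⟩).2
    exact (bd_ne this).2.2.2.1 rfl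

/-- the count drops when the end of the range moves backward -/
theorem rd_lt' (hf : f ∈ V) (h : Bd p d c a f b) : rd p V d c a f < rd p V d c a b := by
  refine Set.ncard_lt_ncard ⟨fun x hx => ⟨hx.1, ?_⟩, fun hs => ?_⟩ (Set.toFinite _)
  · exact bd_trans hx.2 h
  · have := (hs ⟨hf, h⟩).2
    exact (bd_ne this).2.2.2.2.1 rfl

end rd

/-! ### letters -/

open Classical in
/-- `1` if the range from `a` in the sense `d` to `b` is not less than 180 degrees, else `0` -/
noncomputable def bg (p : α → ℝ × ℝ) (d : Bool) (c a b : α) : ℕ := if Sm p d c a b then 0 else 1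

theorem bg_sm (h : Sm p d c a b) : bg p d c a b = 0 := if_pos h

theorem bg_big (h : ¬ Sm p d c a b) : bg p d c a b = 1 := if_neg h

theorem bg_le (h : Bd p d c a f b) : bg p d c f b ≤ bg p d c a b := by
  by_cases h1 : Sm p d c a b
  · rw [bg_sm h1, bg_sm ((bd_sm h1).1 h).2]
  · rw [bg_big h1]
    unfold bg
    split_ifs <;> simp

/-- letter: number of points in the range from wall+ `e` to wall- `a` in the sense of `c` -/
noncomputable def Lt (p : α → ℝ × ℝ) (V : Set α) (a c e : α × Bool) : ℕ :=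
  rd p V c.2 c.1 e.1 a.1

/-- letter: (range not less than 180 degrees, number of points) -/
noncomputable def Lb (p : α → ℝ × ℝ) (V : Set α) (a c e : α × Bool) : ℕ ×ₗ ℕ :=
  toLex (bg p c.2 c.1 e.1 a.1, rd p V c.2 c.1 e.1 a.1)

/-- letter: (type, number of points) -/
noncomputable def Ly (p : α → ℝ × ℝ) (V : Set α) (a c e : α × Bool) : ℕ ×ₗ ℕ :=
  toLex ((if a.2 = c.2 then 0 else 1 : ℕ), rd p V c.2 c.1 e.1 a.1)

/-- letter: (type, (range not less than 180 degrees, number of points)) -/
noncomputable def Lyb (p : α → ℝ × ℝ) (V : Set α) (a c e : α × Bool) : ℕ ×ₗ (ℕ ×ₗ ℕ) :=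
  toLex ((if a.2 = c.2 then 0 else 1 : ℕ), Lb p V a c e)

section letters
variable [Finite α] {V : Set α} {a c e f : α × Bool}

/-- wall+ moves forward: every letter drops -/
theorem lt_drop (hf : f.1 ∈ V) (h : Bd p c.2 c.1 e.1 f.1 a.1) : Lt p V a c f < Lt p V a c e :=
  rd_lt hf h

theorem lb_drop (hf : f.1 ∈ V) (h : Bd p c.2 c.1 e.1 f.1 a.1) : Lb p V a c f < Lb p V a c e := by
  have h1 := bg_le h
  have h2 := rd_lt (V := V) hf h
  unfold Lb
  rw [Prod.Lex.toLex_lt_toLex]
  rcases lt_or_eq_of_le h1 with h1 | h1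
  · exact Or.inl h1
  · exact Or.inr ⟨h1, h2⟩

theorem ly_drop (hf : f.1 ∈ V) (h : Bd p c.2 c.1 e.1 f.1 a.1) : Ly p V a c f < Ly p V a c e := by
  unfold Ly
  rw [Prod.Lex.toLex_lt_toLex]
  exact Or.inr ⟨rfl, rd_lt hf h⟩

theorem lyb_drop (hf : f.1 ∈ V) (h : Bd p c.2 c.1 e.1 f.1 a.1) :
    Lyb p V a c f < Lyb p V a c e := by
  unfold Lyb
  rw [Prod.Lex.toLex_lt_toLex]
  exact Or.inr ⟨rfl, lb_drop hf h⟩

omit [Finite α] in
/-- the sense of `c` is reversed when the range is greater than 180 degrees: `Lb` drops -/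
theorem lb_switch (h : Sm p c.2 c.1 a.1 e.1) : Lb p V a (c.1, !c.2) e < Lb p V a c e := by
  unfold Lb
  rw [Prod.Lex.toLex_lt_toLex]
  left
  have h1 : bg p (!c.2) c.1 e.1 a.1 = 0 := bg_sm (sm_not.2 h)
  have h2 : bg p c.2 c.1 e.1 a.1 = 1 := bg_big (sm_asymm h)
  show bg p (!c.2) c.1 e.1 a.1 < bg p c.2 c.1 e.1 a.1
  rw [h1, h2]
  exact Nat.zero_lt_one

omit [Finite α] in
/-- type II becomes type I: `Ly` drops -/
theorem ly_switch (h : a.2 ≠ c.2) (e' : α × Bool) : Ly p V a (c.1, a.2) e' < Ly p V a c e := by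
  unfold Ly
  rw [Prod.Lex.toLex_lt_toLex]
  left
  simp [h]

omit [Finite α] in
/-- type II becomes type I: `Lyb` drops -/
theorem lyb_switch (h : a.2 ≠ c.2) (e' : α × Bool) : Lyb p V a (c.1, a.2) e' < Lyb p V a c e := by
  unfold Lyb
  rw [Prod.Lex.toLex_lt_toLex]
  left
  simp [h]

omit [Finite α] in
/-- the letters do not look at the sense of wall+ -/
theorem lt_congr (b : α) (d d' : Bool) : Lt p V a c (b, d) = Lt p V a c (b, d') := rfl

omit [Finite α] in
theorem lb_congr (b : α) (d d' : Bool) : Lb p V a c (b, d) = Lb p V a c (b, d') := rfl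

omit [Finite α] in
theorem ly_congr (b : α) (d d' : Bool) : Ly p V a c (b, d) = Ly p V a c (b, d') := rfl

omit [Finite α] in
theorem lyb_congr (b : α) (d d' : Bool) : Lyb p V a c (b, d) = Lyb p V a c (b, d') := rfl

end letters

/-! ### words of stacks, top first -/

section words
variable {A β : Type*} [LinearOrder A] (M : β → β → β → A)

/-- word of a stack, top first -/
def wt (K : List β) : List A := wd M K.reverse

/-- **turn**: wall+ of `b` is replaced, with a smaller letter; everything above is arbitrary -/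
theorem wt_turn {a b c c' : β} (T T' S : List β) (h : M a b c' < M a b c) :
    wt M (T' ++ c' :: b :: a :: S) < wt M (T ++ c :: b :: a :: S) := by
  have e : ∀ (T : List β) (c : β), (T ++ c :: b :: a :: S).reverse =
      S.reverse ++ a :: b :: c :: T.reverse := by
    intro T c
    simp
  unfold wt
  rw [e, e]
  exact wd_turn M _ _ _ h

/-- **push** of `f` with new end `y` -/
theorem wt_push {a b e f y : β} (S : List β) (h : M a b f < M a b e) :
    wt M (y :: f :: b :: a :: S) < wt M (e :: b :: a :: S) := wt_turn M [] [y] S h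

/-- **swap**: the new end is `y` -/
theorem wt_swap {a b e y : β} (S : List β) (h : M a b y < M a b e) :
    wt M (y :: b :: a :: S) < wt M (e :: b :: a :: S) := wt_turn M [] [] S h

/-- **cut**: the part above `b` is removed, `b` becomes the end -/
theorem wt_cut {a b c : β} (T S : List β) : wt M (b :: a :: S) < wt M (T ++ c :: b :: a :: S) := by
  have e : (T ++ c :: b :: a :: S).reverse = S.reverse ++ a :: b :: c :: T.reverse := by simp
  have e' : (b :: a :: S).reverse = S.reverse ++ [a, b] := by simp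
  unfold wt
  rw [e, e']
  exact wd_cut M _ _ _ _ _

/-- the sense of the entry on top is irrelevant when the letter does not look at it -/
theorem wt_congr {b b' : β} (h : ∀ a c, M a c b = M a c b') (S : List β) :
    wt M (b :: S) = wt M (b' :: S) := by
  unfold wt
  match S with
  | [] => rfl
  | [c] => rfl
  | c :: a :: S =>
    have e : ∀ b : β, (b :: c :: a :: S).reverse = S.reverse ++ a :: c :: [b] := by
      intro b
      simp
    rw [e, e, wd_split M _ a c [b], wd_split M _ a c [b'], wd_cons3, wd_cons3, h, wd_two, wd_two]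

/-- **pop**: the pivot `b` becomes the end (with any sense) -/
theorem wt_pop {a b b' c : β} (h : ∀ x y, M x y b = M x y b') (T S : List β) :
    wt M (b' :: a :: S) < wt M (T ++ c :: b :: a :: S) := by
  rw [← wt_congr M h]
  exact wt_cut M T S

end words

/-! ### obstacles and walls -/

/-- obstacles `O` and the walls of the stack `K` (top first) -/
def Wk (O : α → α → Prop) (K : List (α × Bool)) (x y : α) : Prop := O x y ∨ Ed (K.map Prod.fst) x y

section walls
variable {O : α → α → Prop} {l l' : List α} {K T : List (α × Bool)} {u v w y z e : α} {d₀ d₁ d₂ : Bool}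

theorem eo_wk_cons {k c : α × Bool} {a b : α} :
    EO l (Wk O (k :: c :: K)) a b ↔ EO l (aw (Wk O (c :: K)) k.1 c.1) a b := by
  unfold EO aw Wk
  rw [List.map_cons, List.map_cons, ed_cons2]
  tauto

theorem eo_wk_one {k : α × Bool} {a b : α} : EO l (Wk O [k]) a b ↔ EO l O a b := by
  unfold EO Wk
  have : ¬ Ed (([k] : List (α × Bool)).map Prod.fst) a b := fun h => h
  tauto

theorem eo_wk_tail {k : α × Bool} {a b : α} (h : EO l (Wk O K) a b) : EO l (Wk O (k :: K)) a b := by
  refine h.imp id fun h1 => h1.imp id fun h2 => ?_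
  cases K with
  | nil => exact h2.elim
  | cons c K => exact Or.inr (Or.inr h2)

theorem eo_wk_suffix {a b : α} (h : EO l (Wk O K) a b) : EO l (Wk O (T ++ K)) a b := by
  induction T with
  | nil => exact h
  | cons x T ih => exact eo_wk_tail ih

theorem wk_drop (hp : Plane p (EO l (Wk O (T ++ K)))) : Plane p (EO l (Wk O K)) :=
  Plane_mono (fun _ _ => eo_wk_suffix) hp

theorem wk_drop_vis (h : Vis p (EO l (Wk O (T ++ K))) u w) : Vis p (EO l (Wk O K)) u w :=
  Vis_mono (fun _ _ => eo_wk_suffix) h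

/-- a free segment becomes a wall -/
theorem wk_push {k c : α × Bool} (hp : Plane p (EO l (Wk O (c :: K))))
    (hv : Vis p (EO l (Wk O (c :: K))) k.1 c.1) : Plane p (EO l (Wk O (k :: c :: K))) := by
  intro a b u v hab huv
  exact aw_plane hp hv a b u v (eo_wk_cons.1 hab) (eo_wk_cons.1 huv)

theorem wk_push_vis {k c : α × Bool} (h : Vis p (EO l (Wk O (c :: K))) u w)
    (hx : ¬ X p u w k.1 c.1) : Vis p (EO l (Wk O (k :: c :: K))) u w := by
  intro a b hab hX
  exact aw_vis h hx a b (eo_wk_cons.1 hab) hX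

theorem wk_push_vis_at {k c : α × Bool} (h : Vis p (EO l (Wk O (c :: K))) u w)
    (hx : u = k.1 ∨ u = c.1 ∨ w = k.1 ∨ w = c.1) : Vis p (EO l (Wk O (k :: c :: K))) u w := by
  intro a b hab hX
  exact aw_vis_at h hx a b (eo_wk_cons.1 hab) hX

/-- the top wall is free -/
theorem wk_top {k c : α × Bool} (hp : Plane p (EO l (Wk O (k :: c :: K)))) :
    Vis p (EO l (Wk O (k :: c :: K))) k.1 c.1 :=
  Vis_of_edge hp (eo_wk_cons.2 (Or.inr (Or.inr (Or.inl ⟨rfl, rfl⟩))))

/-- a free segment stays free when the stack is cut and a new wall which shares an end point is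
added -/
theorem wk_replace_vis {k k' c : α × Bool} (h : Vis p (EO l (Wk O (k :: c :: K))) u w)
    (hx : u = k'.1 ∨ u = c.1 ∨ w = k'.1 ∨ w = c.1) : Vis p (EO l (Wk O (k' :: c :: K))) u w :=
  wk_push_vis_at (wk_drop_vis (T := [k]) h) hx

/-- hypothesis `hV` of `push_first` -/
theorem wk_hV {V : Set α} (hl : ∀ a ∈ l, a ∈ V) (hO : ∀ a b, O a b → a ∈ V ∧ b ∈ V ∧ a ≠ b)
    (hK : ∀ k ∈ K, k.1 ∈ V) (hln : l.Nodup) (hKn : (K.map Prod.fst).Nodup) :
    ∀ a b, EO l (Wk O K) a b → a ∈ V ∧ b ∈ V ∧ a ≠ b := by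
  rintro a b (h | h | h)
  · exact ⟨hl a (ed_mem h), hl b (ed_mem' h), ed_ne hln h⟩
  · exact hO a b h
  · have h1 : ∀ x, x ∈ K.map Prod.fst → x ∈ V := by
      intro x hx
      obtain ⟨k, hk, rfl⟩ := List.mem_map.1 hx
      exact hK k hk
    exact ⟨h1 a (ed_mem h), h1 b (ed_mem' h), ed_ne hKn h⟩

/-! ### moves -/

/-- **push**: the end `e` (door `e c`) sees `f`, and `c f` is free; the rotation at `f` gives the new
end `y` (the successor of `f`). The new walls are `c f`, `f y`. -/
theorem mv_push {f : α} {c : α × Bool} (hp : Plane p (EO l (Wk O ((e, d₀) :: c :: K))))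
    (hr : RotL f e l l') (h1 : Vis p (EO l (Wk O ((e, d₀) :: c :: K))) e f)
    (h2 : Vis p (EO l (Wk O ((e, d₀) :: c :: K))) c.1 f) (d₁ d₂ : Bool) :
    ∃ y A, l' = A ++ [y] ∧ Ed l f y ∧ RotL f y l' l ∧
      Plane p (EO l' (Wk O ((y, d₁) :: (f, d₂) :: c :: K))) ∧
      Plane p (EO l' (Wk O ((f, d₂) :: c :: K))) := by
  have p0 : Plane p (EO l (Wk O (c :: K))) := wk_drop (T := [(e, d₀)]) hp
  have v2 : Vis p (EO l (Wk O (c :: K))) f c.1 := Vis_comm.1 (wk_drop_vis (T := [(e, d₀)]) h2)
  have p1 : Plane p (EO l (Wk O ((f, d₂) :: c :: K))) := wk_push p0 v2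
  have v1 : Vis p (EO l (Wk O ((f, d₂) :: c :: K))) e f :=
    wk_replace_vis h1 (Or.inr (Or.inr (Or.inl rfl)))
  obtain ⟨y, A, hA, h3, h4, -, h6⟩ := rotG_removed p1 hr v1
  have p2 := rotG_plane p1 hr v1
  exact ⟨y, A, hA, h3, h4, wk_push p2 h6, p2⟩

/-- **push without rotation** (`f` is a neighbour of the end, or a chain vertex kept as wall): the
end `e` keeps, the new walls are `c f`, `f e` -/
theorem mv_push0 {f : α} {c : α × Bool} (hp : Plane p (EO l (Wk O ((e, d₀) :: c :: K))))
    (h1 : Vis p (EO l (Wk O ((e, d₀) :: c :: K))) e f)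
    (h2 : Vis p (EO l (Wk O ((e, d₀) :: c :: K))) c.1 f) (d₁ d₂ : Bool) :
    Plane p (EO l (Wk O ((e, d₁) :: (f, d₂) :: c :: K))) := by
  have p0 : Plane p (EO l (Wk O (c :: K))) := wk_drop (T := [(e, d₀)]) hp
  have v2 : Vis p (EO l (Wk O (c :: K))) f c.1 := Vis_comm.1 (wk_drop_vis (T := [(e, d₀)]) h2)
  have p1 : Plane p (EO l (Wk O ((f, d₂) :: c :: K))) := wk_push p0 v2
  exact wk_push p1 (wk_replace_vis h1 (Or.inr (Or.inr (Or.inl rfl))))

/-- **pop**: the rotation at `f`, the removed edge is `f c`, the new end is the top pivot `c` -/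
theorem mv_pop {f : α} {c : α × Bool} (hp : Plane p (EO l (Wk O ((e, d₀) :: c :: K))))
    (hr : RotL f e l l') (h1 : Vis p (EO l (Wk O ((e, d₀) :: c :: K))) e f) :
    Plane p (EO l' (Wk O (c :: K))) :=
  rotG_plane (wk_drop (T := [(e, d₀)]) hp) hr (wk_drop_vis (T := [(e, d₀)]) h1)

/-- **swap**: the rotation at the top pivot `c`; the new end is the successor `y` of `c` -/
theorem mv_swap {c : α × Bool} (hp : Plane p (EO l (Wk O ((e, d₀) :: c :: K))))
    (hr : RotL c.1 e l l') (d₁ : Bool) :
    ∃ y A, l' = A ++ [y] ∧ Ed l c.1 y ∧ RotL c.1 y l' l ∧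
      Plane p (EO l' (Wk O ((y, d₁) :: c :: K))) ∧ Plane p (EO l' (Wk O (c :: K))) := by
  have p0 : Plane p (EO l (Wk O (c :: K))) := wk_drop (T := [(e, d₀)]) hp
  have v1 : Vis p (EO l (Wk O (c :: K))) e c.1 := wk_drop_vis (T := [(e, d₀)]) (wk_top hp)
  obtain ⟨y, A, hA, h3, h4, -, h6⟩ := rotG_removed p0 hr v1
  have p2 := rotG_plane p0 hr v1
  exact ⟨y, A, hA, h3, h4, wk_push p2 h6, p2⟩

/-- **drop / cut with the end kept**: the end `e` sees the pivot `c` -/
theorem mv_door {c : α × Bool} (hp : Plane p (EO l (Wk O ((e, d₀) :: T ++ c :: K))))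
    (h1 : Vis p (EO l (Wk O ((e, d₀) :: T ++ c :: K))) e c.1) (d₁ : Bool) :
    Plane p (EO l (Wk O ((e, d₁) :: c :: K))) :=
  wk_push (wk_drop (T := (e, d₀) :: T) hp) (wk_drop_vis (T := (e, d₀) :: T) h1)

/-- **short cut**: stack `… c` and the pivot `f` (which sees `c` and `e`) -/
theorem mv_short {f c : α × Bool} (hp : Plane p (EO l (Wk O ((e, d₀) :: T ++ c :: K))))
    (h1 : Vis p (EO l (Wk O ((e, d₀) :: T ++ c :: K))) e f.1)
    (h2 : Vis p (EO l (Wk O ((e, d₀) :: T ++ c :: K))) f.1 c.1) (d₁ : Bool) :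
    Plane p (EO l (Wk O ((e, d₁) :: f :: c :: K))) := by
  have p1 : Plane p (EO l (Wk O (f :: c :: K))) :=
    wk_push (wk_drop (T := (e, d₀) :: T) hp) (wk_drop_vis (T := (e, d₀) :: T) h2)
  have v1 : Vis p (EO l (Wk O (f :: c :: K))) e f.1 :=
    wk_push_vis_at (wk_drop_vis (T := (e, d₀) :: T) h1) (Or.inr (Or.inr (Or.inl rfl)))
  exact wk_push p1 v1

/-- **cut below a pivot**: the end is the pivot `e` -/
theorem mv_cut (hp : Plane p (EO l (Wk O ((e, d₀) :: T ++ (e, d₁) :: K)))) :
    Plane p (EO l (Wk O ((e, d₁) :: K))) := wk_drop (T := (e, d₀) :: T) hp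

/-! ### the neighbours on the path after a rotation -/

/-- edges at a vertex different from `v, z` do not become more -/
theorem rot_nb (hr : RotL v z l l') (h1 : x ≠ v ∨ y ≠ z) (h2 : x ≠ z ∨ y ≠ v) (h : Ed l' x y) :
    Ed l x y := by
  rcases rotL_ed hr h with h | ⟨rfl, rfl⟩ | ⟨rfl, rfl⟩
  · exact h
  · simp at h1
  · simp at h2

/-- edges at a vertex different from `v`, the old end `z`, the new end `w` are kept -/
theorem rot_nb_iff (hr : RotL v z l l') {w : α} (hr' : RotL v w l' l) (hv : x ≠ v) (hz : x ≠ z)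
    (hw : x ≠ w) {y : α} : Ed l' x y ↔ Ed l x y :=
  ⟨rot_nb hr (Or.inl hv) (Or.inl hz), rot_nb hr' (Or.inl hv) (Or.inl hw)⟩

end walls

/-! ### order of the path after a rotation -/

theorem nx_cons2 {a b : α} {l : List α} {x y : α} :
    Nx (a :: b :: l) x y ↔ (x = a ∧ y = b) ∨ Nx (b :: l) x y := by
  constructor
  · rintro ⟨S, T, h⟩
    cases S with
    | nil =>
      rw [List.nil_append, List.cons.injEq, List.cons.injEq] at h
      exact Or.inl ⟨h.1.symm, h.2.1.symm⟩
    | cons s S =>
      rw [List.cons_append, List.cons.injEq] at h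
      exact Or.inr ⟨S, T, h.2⟩
  · rintro (⟨rfl, rfl⟩ | ⟨S, T, h⟩)
    · exact ⟨[], l, rfl⟩
    · exact ⟨a :: S, T, by rw [h]; rfl⟩

theorem nx_single {a x y : α} : ¬ Nx [a] x y := by
  rintro ⟨S, T, h⟩
  have := congrArg List.length h
  simp at this
  omega

theorem nx_mid {A B : List α} {v x y : α} :
    Nx (A ++ v :: B) x y ↔ Nx (A ++ [v]) x y ∨ Nx (v :: B) x y := by
  induction A with
  | nil =>
    constructor
    · intro h; exact Or.inr h
    · rintro (h | h)
      · exact absurd h nx_single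
      · exact h
  | cons a A ih =>
    cases A with
    | nil =>
      simp only [List.cons_append, List.nil_append, nx_cons2]
      have : ¬ Nx [v] x y := nx_single
      tauto
    | cons b A =>
      simp only [List.cons_append, nx_cons2] at ih ⊢
      rw [ih]
      tauto

/-- consecutive vertices after the rotation of `A ++ v :: (B ++ [z])` at `v` -/
theorem rot_nx {A B : List α} {v z x y : α} :
    Nx (A ++ v :: z :: B.reverse) x y ↔
      Nx (A ++ [v]) x y ∨ (x = v ∧ y = z) ∨ Nx (B ++ [z]) y x := by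
  have e : z :: B.reverse = (B ++ [z]).reverse := by simp
  rw [nx_mid, nx_cons2, e, nx_reverse]

/-- consecutive vertices of a path with two neighbours split at `v` -/
theorem ed_iff_nx {l : List α} {x y : α} : Ed l x y ↔ Nx l x y ∨ Nx l y x := by
  constructor
  · intro h
    obtain ⟨A, B, h | h⟩ := ed_split h
    · exact Or.inl ⟨A, B, h⟩
    · exact Or.inr ⟨A, B, h⟩
  · rintro (⟨A, B, h⟩ | ⟨A, B, h⟩)
    · rw [h]; exact ed_of_split
    · rw [h]; exact ed_of_split'

/-- successors are unique -/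
theorem nx_unique {l : List α} (hn : l.Nodup) {x y y' : α} (h : Nx l x y) (h' : Nx l x y') :
    y = y' := by
  obtain ⟨S, T, rfl⟩ := h
  obtain ⟨S', T', h⟩ := h'
  have key : ∀ (S S' : List α), (S ++ x :: y :: T).Nodup → S ++ x :: y :: T = S' ++ x :: y' :: T' →
      y = y' := by
    intro S
    induction S with
    | nil =>
      intro S' hn h
      cases S' with
      | nil =>
        rw [List.nil_append, List.nil_append, List.cons.injEq, List.cons.injEq] at h
        exact h.2.1
      | cons s S' =>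
        rw [List.nil_append, List.cons_append, List.cons.injEq] at h
        obtain ⟨rfl, h⟩ := h
        have : x ∈ y :: T := by rw [h]; simp
        exact absurd this (List.nodup_cons.1 hn).1
    | cons s S ih =>
      intro S' hn h
      cases S' with
      | nil =>
        rw [List.nil_append, List.cons_append, List.cons.injEq] at h
        obtain ⟨rfl, h⟩ := h
        have : s ∈ S ++ s :: y :: T := by simp
        exact absurd this (List.nodup_cons.1 hn).1
      | cons s' S' =>
        rw [List.cons_append, List.cons_append, List.cons.injEq] at h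
        exact ih S' (List.nodup_cons.1 hn).2 h.2
  exact key S S' hn h

theorem nx_unique' {l : List α} (hn : l.Nodup) {x x' y : α} (h : Nx l x y) (h' : Nx l x' y) :
    x = x' := by
  have hn' : l.reverse.Nodup := List.nodup_reverse.2 hn
  exact nx_unique hn' (nx_reverse.2 h) (nx_reverse.2 h')

/-- a rotation at `v` with a given successor `y` of `v` -/
theorem rotL_of_nx {l A : List α} {v y z : α} (hn : l.Nodup) (h : Nx l v y) (hl : l = A ++ [z]) :
    ∃ l', RotL v z l l' ∧ ∃ A', l' = A' ++ [y] := by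
  obtain ⟨S, T, rfl⟩ := h
  rcases List.eq_nil_or_concat T with rfl | ⟨T', t, rfl⟩
  · have e : S ++ [v, y] = (S ++ [v]) ++ [y] := by simp
    rw [e] at hl
    obtain ⟨-, h2⟩ := List.append_inj' hl rfl
    obtain rfl : y = z := by simpa using h2
    exact ⟨_, ⟨S, [], rfl, rfl⟩, S ++ [v], by simp⟩
  · rw [List.concat_eq_append] at hl ⊢
    have e : S ++ v :: y :: (T' ++ [t]) = (S ++ v :: y :: T') ++ [t] := by simp
    rw [e] at hl
    obtain ⟨-, h2⟩ := List.append_inj' hl rfl
    obtain rfl : t = z := by simpa using h2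
    exact ⟨_, ⟨S, y :: T', by simp, rfl⟩, S ++ v :: t :: T'.reverse, by simp⟩

/-! ### rotations which keep the hull edges -/

/-- `x` is strictly inside a triangle of points of `S` -/
def Inn (p : α → ℝ × ℝ) (S : Set α) (x : α) : Prop :=
  ∃ a ∈ S, ∃ b ∈ S, ∃ c ∈ S, InTri p a b c x

theorem inn_of_tri {S : Set α} {a b c x : α} (ha : a ∈ S) (hb : b ∈ S) (hc : c ∈ S)
    (h : InTri p a b c x) : Inn p S x := ⟨a, ha, b, hb, c, hc, h⟩

theorem inn_ne_hull (hgp : GP p) {S : Set α} {u v : α} (h : Inn p S u) (huv : u ≠ v) :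
    ¬ ∀ t ∈ S, 0 ≤ o p u v t := by
  have key : ∀ a b c : α, a ∈ S → b ∈ S → c ∈ S →
      (0 < o p a b u ∧ 0 < o p b c u ∧ 0 < o p c a u) → ¬ ∀ t ∈ S, 0 ≤ o p u v t := by
    rintro a b c ha hb hc ⟨h1, h2, h3⟩ hall
    have n : ∀ {x y z : α}, 0 < o p x y z → x ≠ y ∧ y ≠ z ∧ x ≠ z := by
      intro x y z h
      refine ⟨?_, ?_, ?_⟩ <;> rintro rfl <;> simp at h
    obtain ⟨n1, n2, n3⟩ := n h1
    obtain ⟨n4, n5, n6⟩ := n h2
    have hb' := o_bary p a b c u v u
    have z0 : o p u v u = 0 := by simp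
    have ka := hall a ha
    have kb := hall b hb
    have kc := hall c hc
    rw [z0, mul_zero] at hb'
    have ma := mul_nonneg h2.le ka
    have mb := mul_nonneg h3.le kb
    have mc := mul_nonneg h1.le kc
    have za : o p u v a = 0 := by
      have : o p b c u * o p u v a = 0 := by linarith
      exact (mul_eq_zero.1 this).resolve_left h2.ne'
    have zb : o p u v b = 0 := by
      have : o p c a u * o p u v b = 0 := by linarith
      exact (mul_eq_zero.1 this).resolve_left h3.ne'
    by_cases hva : v = a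
    · subst hva
      exact hgp.ne u v b huv n1 n2.symm zb
    · exact hgp.ne u v a huv hva n3.symm za
  obtain ⟨a, ha, b, hb, c, hc, h | ⟨h1, h2, h3⟩⟩ := h
  · exact key a b c ha hb hc h
  · refine key b a c hb ha hc ⟨?_, ?_, ?_⟩
    · have e : o p b a u = - o p a b u := by unfold o; ring
      rw [e]; linarith
    · have e : o p a c u = - o p c a u := by unfold o; ring
      rw [e]; linarith
    · have e : o p c b u = - o p b c u := by unfold o; ring
      rw [e]; linarith

theorem inn_mir {S : Set α} {x : α} : Inn (mir p) S x ↔ Inn p S x := by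
  unfold Inn
  simp only [InTri_mir]

theorem inn_ne_hull' (hgp : GP p) {S : Set α} {u v : α} (h : Inn p S u) (huv : u ≠ v) :
    ¬ ∀ t ∈ S, 0 ≤ o p v u t := by
  intro hall
  refine inn_ne_hull (GP_mir hgp) (inn_mir.2 h) huv fun t ht => ?_
  have h1 := hall t ht
  have e : o p v u t = - o p u v t := by unfold o; ring
  rw [o_mir, ← e]
  exact h1

/-- a rotation at `v` is kept by `RK` when `v` or the successor of `v` is strictly inside -/
theorem rk_of_inn (hgp : GP p) {S : Set α} {O : α → α → Prop} {l l' : List α} (hn : l.Nodup)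
    {v z w : α} (hr : RotL v z l l') (hv : Vis p (EO l O) z v) (hr' : RotL v w l' l)
    (h : Inn p S v ∨ Inn p S w) : RK p S O l l' := by
  refine ⟨⟨v, z, hr, hv⟩, ?_⟩
  intro a b hab hall
  rcases rotL_ed hr' hab with h1 | ⟨rfl, rfl⟩ | ⟨rfl, rfl⟩
  · exact h1
  · exfalso
    have hne : a ≠ b := ed_ne hn hab
    rcases h with h | h
    · exact inn_ne_hull hgp h hne hall
    · exact inn_ne_hull' hgp h hne.symm hall
  · exfalso
    have hne : a ≠ b := ed_ne hn hab
    rcases h with h | h
    · exact inn_ne_hull' hgp h hne.symm hall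
    · exact inn_ne_hull hgp h hne hall

end FPW
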