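import Pool.Agent.Lib.MP_deef39_co_PW.RotB

/-! # Eng module RotG: rotations and walls in one plane relation

`EO l W`: the edges of the path `l` together with the walls `W`. Rotation at `v` with end `z`:
`RotL v z l l'`. Adding and dropping walls.
-/

set_option autoImplicit false

namespace FPW

variable {α : Type*} {p : α → ℝ × ℝ}

/-! ### rotations -/

theorem rotG_eo {W : α → α → Prop} {l l' : List α} {v z a b : α} (hr : RotL v z l l')
    (h : EO l' W a b) : EO l W a b ∨ (a = v ∧ b = z) ∨ (a = z ∧ b = v) := by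
  rcases h with h | h
  · rcases rotL_ed hr h with h | h
    · exact Or.inl (Or.inl h)
    · exact Or.inr h
  · exact Or.inl (Or.inr h)

/-- the rotated path with the walls is plane -/
theorem rotG_plane {W : α → α → Prop} {l l' : List α} {v z : α} (hp : Plane p (EO l W))
    (hr : RotL v z l l') (hv : Vis p (EO l W) z v) : Plane p (EO l' W) :=
  rot_plane hp ⟨v, z, hr, hv⟩

/-- a free segment which does not cross the new edge stays free -/
theorem rotG_vis {W : α → α → Prop} {l l' : List α} {v z x y : α} (hr : RotL v z l l')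
    (h : Vis p (EO l W) x y) (hx : ¬ X p x y z v) : Vis p (EO l' W) x y := by
  intro a b hab hX
  rcases rotG_eo hr hab with h1 | ⟨rfl, rfl⟩ | ⟨rfl, rfl⟩
  · exact h a b h1 hX
  · exact hx (X_sw2.1 hX)
  · exact hx hX

/-- a free segment at the old end or at the pivot stays free -/
theorem rotG_vis_at {W : α → α → Prop} {l l' : List α} {v z x y : α} (hr : RotL v z l l')
    (h : Vis p (EO l W) x y) (hx : x = z ∨ x = v ∨ y = z ∨ y = v) : Vis p (EO l' W) x y := by
  refine rotG_vis hr h fun hX => ?_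
  obtain ⟨-, -, n1, n2, n3, n4⟩ := X_ne hX
  rcases hx with rfl | rfl | rfl | rfl
  · exact n1 rfl
  · exact n2 rfl
  · exact n3 rfl
  · exact n4 rfl

/-- edges of the old relation stay free -/
theorem rotG_vis_old {W : α → α → Prop} {l l' : List α} {v z x y : α} (hp : Plane p (EO l W))
    (hr : RotL v z l l') (hv : Vis p (EO l W) z v) (h : EO l W x y) : Vis p (EO l' W) x y :=
  rotG_vis hr (Vis_of_edge hp h) fun hX => hv x y h (X_comm.1 hX)

/-- the removed edge `v v⁺` stays free; `v⁺` is the new end -/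
theorem rotG_removed {W : α → α → Prop} {l l' : List α} {v z : α} (hp : Plane p (EO l W))
    (hr : RotL v z l l') (hv : Vis p (EO l W) z v) :
    ∃ b A, l' = A ++ [b] ∧ Ed l v b ∧ RotL v b l' l ∧ Vis p (EO l' W) v b ∧
      Vis p (EO l' W) b v := by
  obtain ⟨b, h1, h2⟩ := rotL_symm hr
  obtain ⟨A, hA⟩ := rotL_last h1
  have h3 : Vis p (EO l' W) v b := rotG_vis_old hp hr hv (Or.inl h2)
  exact ⟨b, A, hA, h2, h1, h3, Vis_comm.1 h3⟩

/-- the new edge is an edge of the rotated path -/
theorem rotG_new {l l' : List α} {v z : α} (hr : RotL v z l l') : Ed l' v z := by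
  obtain ⟨A, B, -, rfl⟩ := hr
  exact ed_of_split

/-- old edges other than the removed one survive -/
theorem rotG_keep {W : α → α → Prop} {l l' : List α} {v z : α} (hr : RotL v z l l') :
    ∃ b, Ed l v b ∧ (∀ x y, EO l W x y → EO l' W x y ∨ (x = v ∧ y = b) ∨ (x = b ∧ y = v)) := by
  obtain ⟨b, h1, h2⟩ := rotL_symm hr
  exact ⟨b, h2, fun x y h => rotG_eo h1 h⟩

/-! ### walls -/

/-- the walls `W` together with the wall `x y` -/
def aw (W : α → α → Prop) (x y a b : α) : Prop := W a b ∨ (a = x ∧ b = y) ∨ (a = y ∧ b = x)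

theorem aw_mono {W : α → α → Prop} {x y a b : α} (h : W a b) : aw W x y a b := Or.inl h

theorem aw_symm {W : α → α → Prop} {x y : α} (hW : ∀ a b, W a b → W b a) :
    ∀ a b, aw W x y a b → aw W x y b a := by
  rintro a b (h | ⟨rfl, rfl⟩ | ⟨rfl, rfl⟩)
  · exact Or.inl (hW a b h)
  · exact Or.inr (Or.inr ⟨rfl, rfl⟩)
  · exact Or.inr (Or.inl ⟨rfl, rfl⟩)

theorem eo_aw {W : α → α → Prop} {l : List α} {x y a b : α} :
    EO l (aw W x y) a b ↔ EO l W a b ∨ (a = x ∧ b = y) ∨ (a = y ∧ b = x) := by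
  unfold EO aw
  tauto

/-- adding a free segment as a wall keeps the relation plane -/
theorem aw_plane {W : α → α → Prop} {l : List α} {x y : α} (hp : Plane p (EO l W))
    (hv : Vis p (EO l W) x y) : Plane p (EO l (aw W x y)) := by
  intro a b c d hab hcd hX
  rcases eo_aw.1 hab with h1 | ⟨rfl, rfl⟩ | ⟨rfl, rfl⟩
  · rcases eo_aw.1 hcd with h2 | ⟨rfl, rfl⟩ | ⟨rfl, rfl⟩
    · exact hp a b c d h1 h2 hX
    · exact hv a b h1 (X_comm.1 hX)
    · exact hv a b h1 (X_sw1.1 (X_comm.1 hX))
  · rcases eo_aw.1 hcd with h2 | ⟨rfl, rfl⟩ | ⟨rfl, rfl⟩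
    · exact hv c d h2 hX
    · exact not_X_of_eq1 hX
    · exact not_X_of_eq2 hX
  · rcases eo_aw.1 hcd with h2 | ⟨rfl, rfl⟩ | ⟨rfl, rfl⟩
    · exact hv c d h2 (X_sw1.1 hX)
    · exact not_X_of_eq2 hX
    · exact not_X_of_eq1 hX

/-- a free segment which does not cross the new wall is free in the larger relation -/
theorem aw_vis {W : α → α → Prop} {l : List α} {x y u w : α} (h : Vis p (EO l W) u w)
    (hx : ¬ X p u w x y) : Vis p (EO l (aw W x y)) u w := by
  intro a b hab hX
  rcases eo_aw.1 hab with h1 | ⟨rfl, rfl⟩ | ⟨rfl, rfl⟩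
  · exact h a b h1 hX
  · exact hx hX
  · exact hx (X_sw2.1 hX)

theorem aw_vis_at {W : α → α → Prop} {l : List α} {x y u w : α} (h : Vis p (EO l W) u w)
    (hx : u = x ∨ u = y ∨ w = x ∨ w = y) : Vis p (EO l (aw W x y)) u w := by
  refine aw_vis h fun hX => ?_
  obtain ⟨-, -, n1, n2, n3, n4⟩ := X_ne hX
  rcases hx with rfl | rfl | rfl | rfl
  · exact n1 rfl
  · exact n2 rfl
  · exact n3 rfl
  · exact n4 rfl

theorem eo_mono {W W' : α → α → Prop} {l : List α} (h : ∀ a b, W' a b → W a b) {a b : α}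
    (hab : EO l W' a b) : EO l W a b := hab.imp id (h a b)

/-- dropping walls -/
theorem dw_plane {W W' : α → α → Prop} {l : List α} (h : ∀ a b, W' a b → W a b)
    (hp : Plane p (EO l W)) : Plane p (EO l W') := Plane_mono (fun _ _ => eo_mono h) hp

theorem dw_vis {W W' : α → α → Prop} {l : List α} (h : ∀ a b, W' a b → W a b) {x y : α}
    (hp : Vis p (EO l W) x y) : Vis p (EO l W') x y := Vis_mono (fun _ _ => eo_mono h) hp

/-! ### the stack as a list of walls: `Ed S`, top first -/

theorem eo_stk_cons {l S : List α} {x c a b : α} :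
    EO l (Ed (x :: c :: S)) a b ↔ EO l (aw (Ed (c :: S)) x c) a b := by
  unfold EO aw
  rw [ed_cons2]
  tauto

theorem eo_stk_tail {l S : List α} {x a b : α} (h : EO l (Ed S) a b) : EO l (Ed (x :: S)) a b := by
  refine h.imp id fun h1 => ?_
  cases S with
  | nil => exact h1.elim
  | cons c S => exact ed_cons2.2 (Or.inr (Or.inr h1))

theorem eo_stk_suffix {l S T : List α} {a b : α} (h : EO l (Ed S) a b) :
    EO l (Ed (T ++ S)) a b := by
  induction T with
  | nil => exact h
  | cons x T ih => exact eo_stk_tail ih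

/-- pushing the free segment `x c` on the stack with top `c` -/
theorem stk_push {l S : List α} {x c : α} (hp : Plane p (EO l (Ed (c :: S))))
    (hv : Vis p (EO l (Ed (c :: S))) x c) : Plane p (EO l (Ed (x :: c :: S))) := by
  intro a b u v hab huv
  exact aw_plane hp hv a b u v (eo_stk_cons.1 hab) (eo_stk_cons.1 huv)

theorem stk_push_vis {l S : List α} {x c u w : α} (h : Vis p (EO l (Ed (c :: S))) u w)
    (hx : ¬ X p u w x c) : Vis p (EO l (Ed (x :: c :: S))) u w := by
  intro a b hab hX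
  exact aw_vis h hx a b (eo_stk_cons.1 hab) hX

theorem stk_push_vis_at {l S : List α} {x c u w : α} (h : Vis p (EO l (Ed (c :: S))) u w)
    (hx : u = x ∨ u = c ∨ w = x ∨ w = c) : Vis p (EO l (Ed (x :: c :: S))) u w := by
  intro a b hab hX
  exact aw_vis_at h hx a b (eo_stk_cons.1 hab) hX

/-- dropping the top of the stack -/
theorem stk_drop {l S T : List α} (hp : Plane p (EO l (Ed (T ++ S)))) : Plane p (EO l (Ed S)) :=
  Plane_mono (fun _ _ => eo_stk_suffix) hp

theorem stk_drop_vis {l S T : List α} {x y : α} (hp : Vis p (EO l (Ed (T ++ S))) x y) :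
    Vis p (EO l (Ed S)) x y :=
  Vis_mono (fun _ _ => eo_stk_suffix) hp

/-- hypothesis `hV` of `push_first` for path and stack -/
theorem eo_stk_hV {l S : List α} {V : Set α} (hl : ∀ a ∈ l, a ∈ V) (hS : ∀ a ∈ S, a ∈ V)
    (hln : l.Nodup) (hSn : S.Nodup) :
    ∀ a b, EO l (Ed S) a b → a ∈ V ∧ b ∈ V ∧ a ≠ b := by
  have key : ∀ (T : List α), (∀ a ∈ T, a ∈ V) → T.Nodup → ∀ a b, Ed T a b →
      a ∈ V ∧ b ∈ V ∧ a ≠ b := by
    intro T
    induction T with
    | nil => exact fun _ _ a b h => h.elim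
    | cons x T ih =>
      intro h1 h2 a b h
      cases T with
      | nil => exact h.elim
      | cons y T =>
        have hxy : x ≠ y := fun he => (List.nodup_cons.1 h2).1 (he ▸ List.mem_cons_self)
        have hx := h1 x List.mem_cons_self
        have hy := h1 y (List.mem_cons_of_mem _ List.mem_cons_self)
        rcases ed_cons2.1 h with ⟨rfl, rfl⟩ | ⟨rfl, rfl⟩ | h
        · exact ⟨hx, hy, hxy⟩
        · exact ⟨hy, hx, hxy.symm⟩
        · exact ih (fun a ha => h1 a (List.mem_cons_of_mem _ ha)) (List.nodup_cons.1 h2).2 a b h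
  rintro a b (h | h)
  · exact key l hl hln a b h
  · exact key S hS hSn a b h

end FPW
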